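import Mathlib
import Pool.Agent.Run7.h157.Mk

/-!
Definitions for the meager block-minimal space: mixed norms on nonnegative sequences, zones.
-/

noncomputable section

namespace Run7.h157.G

open Set Filter Topology
open scoped ENNReal NNReal

/-- restriction of a sequence to the interval `[a, b)` -/
def res (a b : ℕ) (x : ℕ → ℝ≥0∞) : ℕ → ℝ≥0∞ := fun i => if a ≤ i ∧ i < b then x i else 0

/-- finite families of pairwise disjoint intervals `[I.1, I.2)` -/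
def Adm (S : Finset (ℕ × ℕ)) : Prop :=
  (S : Set (ℕ × ℕ)).PairwiseDisjoint (fun I => Finset.Ico I.1 I.2)

/-- the `l_p`-sum of the values of `F` on the restrictions to the intervals of `S` -/
def sS (p : ℝ) (F : (ℕ → ℝ≥0∞) → ℝ≥0∞) (S : Finset (ℕ × ℕ)) (x : ℕ → ℝ≥0∞) : ℝ≥0∞ :=
  (∑ I ∈ S, F (res I.1 I.2 x) ^ p) ^ (1 / p)

/-- supremum over all admissible families -/
def PS (p : ℝ) (F : (ℕ → ℝ≥0∞) → ℝ≥0∞) (x : ℕ → ℝ≥0∞) : ℝ≥0∞ :=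
  ⨆ (S : Finset (ℕ × ℕ)) (_ : Adm S), sS p F S x

/-- `d` more levels above level `j` -/
def Mn (m : ℕ → ℝ≥0∞) (p : ℕ → ℝ) : ℕ → ℕ → (ℕ → ℝ≥0∞) → ℝ≥0∞
  | 0, _, x => ⨆ i, x i
  | d + 1, j, x => max (Mn m p d (j + 1) x) ((m j)⁻¹ * PS (p j) (Mn m p d (j + 1)) x)

/-- the norm using the operations of index at least `j` -/
def Mk (m : ℕ → ℝ≥0∞) (p : ℕ → ℝ) (j : ℕ) (x : ℕ → ℝ≥0∞) : ℝ≥0∞ := ⨆ d, Mn m p d j x

/-- the norm -/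
def MM (m : ℕ → ℝ≥0∞) (p : ℕ → ℝ) : (ℕ → ℝ≥0∞) → ℝ≥0∞ := Mk m p 0

/-- conditions on the parameters `m` and `p` -/
structure Par (m : ℕ → ℝ≥0∞) (p : ℕ → ℝ) : Prop where
  one_lt : ∀ j, 1 < p j
  anti : Antitone p
  mono : Monotone m
  twelve : 12 ≤ m 0
  ne_top : ∀ j, m j ≠ ∞
  tend_m : Tendsto m atTop (𝓝 ∞)
  sum : ∀ n, ∑ j ∈ Finset.range n, (1 - 1 / p j) ≤ 1
  tend_p : Tendsto p atTop (𝓝 1)

/-- the block of `i` with respect to the partition `[s n, s (n+1))` -/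
def bl (s : ℕ → ℕ) (i : ℕ) : ℕ := Nat.findGreatest (fun n => s n ≤ i) i

/-- conditions on the parameters `m`, `p`, the zones `κ` and the lengths `N` -/
structure ParH (m : ℕ → ℝ≥0∞) (p : ℕ → ℝ) (κ : ℕ → ℕ) (N : ℕ → ℕ) : Prop where
  pos : ∀ n, 1 ≤ N n
  h1 : ∀ n, m n ≤ (N n : ℝ≥0∞) ^ (1 / p n)
  h2 : ∀ n l : ℕ, l < n → ((n : ℝ≥0∞) + 1) * m n ≤ (N n : ℝ≥0∞) ^ (1 / p n - 1 / p l)
  h3 : ∀ n, 2 ^ (n + 4) * m n * (((κ (n + 1) - κ n) * N n : ℕ) : ℝ≥0∞) ^ (1 - 1 / p n) ≤ m (n + 1)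

/-- the sequence of the `l_{p_n}`-norms over the zones -/
def HH (p : ℕ → ℝ) (κ : ℕ → ℕ) (t : ℕ → ℝ≥0) : ℕ → ℝ≥0∞ :=
  fun n => (∑ i ∈ Finset.Ico (κ n) (κ (n + 1)), (t i : ℝ≥0∞) ^ (p n)) ^ (1 / p n)

/-- a system of zones `[κ n, κ (n+1))` with norms `nu n` local to the zones -/
structure ZoneSys (κ : ℕ → ℕ) (nu : ℕ → (ℕ →₀ ℝ) → ℝ) (B : ℝ) : Prop where
  mono : StrictMono κ
  zero : κ 0 = 0
  nonneg : ∀ n a, 0 ≤ nu n a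
  add : ∀ n a b, nu n (a + b) ≤ nu n a + nu n b
  smul : ∀ n (c : ℝ) a, nu n (c • a) = |c| * nu n a
  loc : ∀ n a b, (∀ i, κ n ≤ i → i < κ (n + 1) → a i = b i) → nu n a = nu n b
  definite : ∀ n a, nu n a = 0 → ∀ i, κ n ≤ i → i < κ (n + 1) → a i = 0
  one_le : 1 ≤ B
  basis : ∀ n a (j : ℕ), nu n (a.filter (· < j)) ≤ B * nu n a

/-- the norm of the space on the finitely supported sequences -/
def ZNorm (m : ℕ → ℝ≥0∞) (p : ℕ → ℝ) (nu : ℕ → (ℕ →₀ ℝ) → ℝ) (a : ℕ →₀ ℝ) : ℝ :=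
  Real.sqrt (MM m p (fun n => ENNReal.ofReal (nu n a ^ 2))).toReal

/-- the `l_q`-norm on `ι → ℝ` -/
def lq {ι : Type*} [Fintype ι] (q : ℝ) (v : ι → ℝ) : ℝ := (∑ i, |v i| ^ q) ^ (1 / q)

/-- the norm of `(t, U t)` in `l_q ⊕ l_q` -/
def nA {ι : Type*} [Fintype ι] (q : ℝ) (U : Matrix ι ι ℝ) (t : ι → ℝ) : ℝ :=
  (∑ i, |t i| ^ q + ∑ i, |U.mulVec t i| ^ q) ^ (1 / q)

/-- the norm of the `n`-th zone: unit vectors of the first copy of `l_q^K` at the even places,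
the columns of `U` (in the second copy) at the odd places -/
def zn (q : ℝ) (k0 : ℕ) {K : ℕ} (U : Matrix (Fin K) (Fin K) ℝ) (a : ℕ →₀ ℝ) : ℝ :=
  (∑ u : Fin K, |a (k0 + 2 * u)| ^ q +
    ∑ v : Fin K, |∑ u : Fin K, U v u * a (k0 + 2 * u + 1)| ^ q) ^ (1 / q)

end Run7.h157.G
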