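import Mathlib
import Pool.Agent.Run7.h157.G.Defs

/-!
Interface: exact statements of the pieces. Each `St_X : Prop` is to be proved by
`theorem st_X : St_X` (possibly from other pieces, given as hypotheses).
-/

noncomputable section

namespace Run7.h157.G

open Set Filter Topology
open scoped ENNReal NNReal

/-! ### Pieces that do not use the norm `MM` -/

/-- LH: low-dimensional maps into `l_q`, `q` close to `2`, are Hilbertian, hence have an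
unconditional decomposition. -/
def St_LH : Prop := ∀ k : ℕ, ∃ q0 : ℝ, 2 < q0 ∧ ∀ q : ℝ, 2 ≤ q → q ≤ q0 →
  ∀ (ι : Type) [Fintype ι] (δ : (Fin k → ℝ) →ₗ[ℝ] (ι → ℝ)),
    ∃ (r : ℕ) (η : Fin r → (Fin k → ℝ) →ₗ[ℝ] ℝ) (h : Fin r → (ι → ℝ)),
      (∀ i, h i ∈ LinearMap.range δ) ∧ (∀ t, δ t = ∑ i, η i t • h i) ∧
      ∀ θ : Fin r → ℝ, (∀ i, |θ i| ≤ 1) → ∀ t,
        lq q (∑ i, (θ i * η i t) • h i) ≤ 2 * lq q (δ t)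

/-- WAL: the Walsh matrix (in the natural order), partial sums in `l_q` -/
def St_WAL : Prop := ∀ D : ℕ, ∃ U : Matrix (Fin (2 ^ D)) (Fin (2 ^ D)) ℝ,
  U.transpose * U = 1 ∧ (∀ i j, |U i j| = (Real.sqrt (2 ^ D))⁻¹) ∧
  ∀ q : ℝ, 2 ≤ q → ∀ (a : Fin (2 ^ D) → ℝ) (j : ℕ),
    lq q (U.mulVec (fun u => if (u : ℕ) < j then a u else 0)) ≤
      ((D : ℝ) + 1) ^ (1 - 2 / q) * lq q (U.mulVec a)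

/-- TR: trace inequality -/
def St_TR : Prop := ∃ c : ℝ, 0 < c ∧ ∀ (s : ℕ) (q : ℝ), 1 ≤ s → 2 ≤ q → q ≤ 4 →
  ∀ (ι : Type) [Fintype ι] (U : Matrix ι ι ℝ), Fintype.card ι = s ^ 2 →
    (∀ x, ∑ i, U.mulVec x i ^ 2 = ∑ i, x i ^ 2) → (∀ i j, |U i j| = 1 / s) →
  ∀ (J : Type) [Fintype J] (ξ b : J → ι → ℝ) (g : ℝ), 0 ≤ g →
    (∀ θ : J → ℝ, (∀ j, |θ j| ≤ 1) → ∀ x : ι → ℝ,
      nA q U (∑ j, (θ j * ∑ i, ξ j i * x i) • b j) ≤ g * nA q U x) →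
    c * (s : ℝ) ^ (1 / 2 - 1 / q) * |∑ j, ∑ i, ξ j i * b j i| ≤ g * s ^ 2

/-- PAR: choice of the parameters -/
def St_PAR : Prop := ∀ q0 : ℕ → ℝ, (∀ k, 2 < q0 k) → ∀ c : ℝ, 0 < c →
  ∃ (D N κ : ℕ → ℕ) (p : ℕ → ℝ) (m : ℕ → ℝ≥0∞),
    κ 0 = 0 ∧ (∀ n, κ (n + 1) = κ n + 2 * 2 ^ (2 * D n)) ∧ Par m p ∧ ParH m p κ N ∧
    p 0 ≤ 2 ∧ (∀ n l, n < l → 2 * p l ≤ q0 (2 ^ (2 * D n))) ∧
    (∀ n, (2 * (D n : ℝ) + 1) ^ (1 - 1 / p n) ≤ 2) ∧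
    ∀ n : ℕ, ((n : ℝ) + 1) * (κ n + 1) ≤ c * (2 : ℝ) ^ ((D n : ℝ) * (1 - 1 / p n) / 2)

/-! ### The norm `MM` -/

/-- E2: closure -/
def St_E2 : Prop := ∀ (m : ℕ → ℝ≥0∞) (p : ℕ → ℝ), Par m p → ∀ k x,
  PS (p k) (MM m p) x ≤ m k * MM m p x

/-- E3: triangle inequality for the 2-convexification -/
def St_E3 : Prop := ∀ (m : ℕ → ℝ≥0∞) (p : ℕ → ℝ), Par m p → ∀ u v : ℕ → ℝ≥0∞,
  MM m p (fun i => (u i + v i) ^ 2) ^ (1 / 2 : ℝ) ≤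
    MM m p (fun i => u i ^ 2) ^ (1 / 2 : ℝ) + MM m p (fun i => v i ^ 2) ^ (1 / 2 : ℝ)

/-- E4: upper estimate for rapidly increasing sequences -/
def St_E4 : Prop := ∀ (m : ℕ → ℝ≥0∞) (p : ℕ → ℝ), Par m p →
  ∀ (s j : ℕ → ℕ) (ζ x : ℕ → ℝ≥0∞) (C : ℝ≥0∞), StrictMono s → s 0 = 0 → StrictMono j → 1 ≤ C →
    (∀ n, MM m p (res (s n) (s (n + 1)) ζ) ≤ x n) →
    (∀ n k, k < j n → PS (p k) (MM m p) (res (s n) (s (n + 1)) ζ) ≤ C * x n) →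
    (∀ n, ∑' i, res (s n) (s (n + 1)) ζ i ≤ 2⁻¹ ^ (n + 1) * m (j (n + 1)) * x n) →
    MM m p ζ ≤ (6 * C + 4) * MM m p x

/-- E5: domination -/
def St_E5 : Prop := ∀ (m : ℕ → ℝ≥0∞) (p : ℕ → ℝ), Par m p →
  ∀ (s : ℕ → ℕ) (ζ : ℕ → ℝ≥0∞), StrictMono s →
    MM m p (fun n => MM m p (res (s n) (s (n + 1)) ζ)) ≤ MM m p ζ

/-- E6: `l_1`-averages in block subspaces -/
def St_E6 : Prop := ∀ (m : ℕ → ℝ≥0∞) (p : ℕ → ℝ), Par m p →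
  ∀ (s : ℕ → ℕ) (ζ : ℕ → ℝ≥0∞), StrictMono s → s 0 = 0 → (∀ i, ζ i ≠ ∞) →
    (∀ n, ∃ i, s n ≤ i ∧ i < s (n + 1) ∧ ζ i ≠ 0) →
    ∀ j n0 : ℕ, ∃ (n1 : ℕ) (c : ℕ → ℝ≥0), n0 < n1 ∧ (∀ n, c n ≠ 0 → n0 ≤ n ∧ n < n1) ∧
      1 / 2 ≤ MM m p (fun i => (c (bl s i) : ℝ≥0∞) * ζ i) ∧
      MM m p (fun i => (c (bl s i) : ℝ≥0∞) * ζ i) ≤ 1 ∧
      ∀ k, k < j → PS (p k) (MM m p) (fun i => (c (bl s i) : ℝ≥0∞) * ζ i) ≤ 3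

/-- E7: the zones live on blocks of unit vectors -/
def St_E7 : Prop := ∀ (m : ℕ → ℝ≥0∞) (p : ℕ → ℝ) (κ N : ℕ → ℕ), Par m p → StrictMono κ →
  κ 0 = 0 → ParH m p κ N → ∃ (lam : ℕ → ℕ) (cc : ℕ → ℝ≥0), StrictMono lam ∧ lam 0 = 0 ∧
    (∀ r, cc r ≠ 0) ∧ ∀ t : ℕ → ℝ≥0,
      MM m p (fun l => (cc (bl lam l) : ℝ≥0∞) * t (bl lam l)) ≤ 40 * MM m p (HH p κ t) ∧
      MM m p (HH p κ t) ≤ MM m p (fun l => (cc (bl lam l) : ℝ≥0∞) * t (bl lam l))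

/-- the conclusion of E8 -/
def E8Prop (m : ℕ → ℝ≥0∞) (p : ℕ → ℝ) (κ : ℕ → ℕ) (C : ℝ≥0) : Prop :=
  ∀ (s : ℕ → ℕ) (ζ : ℕ → ℝ≥0∞), StrictMono s → s 0 = 0 → (∀ i, ζ i ≠ ∞) →
    (∀ n, ∃ i, s n ≤ i ∧ i < s (n + 1) ∧ ζ i ≠ 0) →
    ∃ (τ : ℕ → ℕ) (γ : ℕ → ℝ≥0), StrictMono τ ∧ τ 0 = 0 ∧
      (∀ r, ∃ k, τ r ≤ k ∧ k < τ (r + 1) ∧ γ k ≠ 0) ∧ ∀ t : ℕ → ℝ≥0,
        MM m p (fun i => ((t (bl τ (bl s i)) * γ (bl s i) : ℝ≥0) : ℝ≥0∞) * ζ i) ≤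
          C * MM m p (HH p κ t) ∧
        MM m p (HH p κ t) ≤
          C * MM m p (fun i => ((t (bl τ (bl s i)) * γ (bl s i) : ℝ≥0) : ℝ≥0∞) * ζ i)

/-- E8: assembly of E4, E5, E6, E7 -/
def St_E8 : Prop := ∀ (m : ℕ → ℝ≥0∞) (p : ℕ → ℝ) (κ N : ℕ → ℕ), Par m p → StrictMono κ →
  κ 0 = 0 → ParH m p κ N → ∃ C : ℝ≥0, E8Prop m p κ C

/-! ### The space -/

/-- X1: the space -/
def St_X1 : Prop := ∀ (m : ℕ → ℝ≥0∞) (p : ℕ → ℝ) (κ : ℕ → ℕ) (nu : ℕ → (ℕ →₀ ℝ) → ℝ) (B : ℝ),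
  Par m p → ZoneSys κ nu B →
  ∃ (X : Type) (_ : NormedAddCommGroup X) (_ : NormedSpace ℝ X) (_ : CompleteSpace X)
    (b : SchauderBasis ℝ X), ∀ a : ℕ →₀ ℝ, ‖lc b a‖ = ZNorm m p nu a

/-- ZS: the concrete zone norms -/
def St_ZS : Prop := ∀ (D κ : ℕ → ℕ) (q : ℕ → ℝ)
  (U : ∀ n, Matrix (Fin (2 ^ (2 * D n))) (Fin (2 ^ (2 * D n))) ℝ), κ 0 = 0 →
  (∀ n, κ (n + 1) = κ n + 2 * 2 ^ (2 * D n)) → (∀ n, 2 ≤ q n) →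
  (∀ n, (U n).transpose * U n = 1) →
  (∀ n a (j : ℕ), lq (q n) ((U n).mulVec (fun u => if (u : ℕ) < j then a u else 0)) ≤
      2 * lq (q n) ((U n).mulVec a)) →
  ZoneSys κ (fun n => zn (q n) (κ n) (U n)) 2 ∧
  -- the unit vectors of `l_q ⊕ l_q`
  (∃ h : ℕ → (ℕ →₀ ℝ),
    (∀ n r, κ n ≤ r → r < κ (n + 1) → ∀ i ∈ (h r).support, κ n ≤ i ∧ i < κ (n + 1)) ∧
    (∀ n (T : ℕ →₀ ℝ), zn (q n) (κ n) (U n) (lc h T) =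
      (∑ r ∈ Finset.Ico (κ n) (κ (n + 1)), |T r| ^ q n) ^ (1 / q n)) ∧
    ∀ i, ∃ T : ℕ →₀ ℝ, lc h T = Finsupp.single i 1) ∧
  -- the vectors `e_{2u} + e_{2u+1}`
  (∀ n (t : Fin (2 ^ (2 * D n)) → ℝ),
    zn (q n) (κ n) (U n) (∑ u, t u • (Finsupp.single (κ n + 2 * u) 1 +
      Finsupp.single (κ n + 2 * u + 1) 1)) = nA (q n) (U n) t)

/-- local Hilbertian decompositions in the zone `n` -/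
def ZLH (k n : ℕ) (κ : ℕ → ℕ) (nu : ℕ → (ℕ →₀ ℝ) → ℝ) : Prop :=
  ∀ δ : (Fin k → ℝ) →ₗ[ℝ] (ℕ →₀ ℝ), (∀ t, ∀ i ∈ (δ t).support, κ n ≤ i ∧ i < κ (n + 1)) →
    ∃ (r : ℕ) (η : Fin r → (Fin k → ℝ) →ₗ[ℝ] ℝ) (w : Fin r → (Fin k → ℝ)),
      (∀ t, δ t = ∑ i, η i t • δ (w i)) ∧
      ∀ θ : Fin r → ℝ, (∀ i, |θ i| ≤ 1) → ∀ t,
        nu n (∑ i, (θ i * η i t) • δ (w i)) ≤ 2 * nu n (δ t)

/-- ZL: local Hilbertian decompositions in the zones, from LH -/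
def St_ZL : Prop := ∀ (k : ℕ) (q0 : ℝ),
  (∀ q : ℝ, 2 ≤ q → q ≤ q0 →
    ∀ (ι : Type) [Fintype ι] (δ : (Fin k → ℝ) →ₗ[ℝ] (ι → ℝ)),
    ∃ (r : ℕ) (η : Fin r → (Fin k → ℝ) →ₗ[ℝ] ℝ) (h : Fin r → (ι → ℝ)),
      (∀ i, h i ∈ LinearMap.range δ) ∧ (∀ t, δ t = ∑ i, η i t • h i) ∧
      ∀ θ : Fin r → ℝ, (∀ i, |θ i| ≤ 1) → ∀ t,
        lq q (∑ i, (θ i * η i t) • h i) ≤ 2 * lq q (δ t)) →
  ∀ (D κ : ℕ → ℕ) (q : ℕ → ℝ)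
    (U : ∀ n, Matrix (Fin (2 ^ (2 * D n))) (Fin (2 ^ (2 * D n))) ℝ),
    ZoneSys κ (fun n => zn (q n) (κ n) (U n)) 2 → 
    (∀ n, κ (n + 1) = κ n + 2 * 2 ^ (2 * D n)) →
    ∀ n, 2 ≤ q n → q n ≤ q0 → ZLH k n κ (fun n => zn (q n) (κ n) (U n))

/-- X2: block-minimality -/
def St_X2 : Prop := ∀ (m : ℕ → ℝ≥0∞) (p : ℕ → ℝ) (κ : ℕ → ℕ) (nu : ℕ → (ℕ →₀ ℝ) → ℝ) (B : ℝ)
  (C : ℝ≥0), Par m p → ZoneSys κ nu B → E8Prop m p κ C →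
  ∀ (X : Type) [NormedAddCommGroup X] [NormedSpace ℝ X] [CompleteSpace X] (b : SchauderBasis ℝ X),
  (∀ a : ℕ →₀ ℝ, ‖lc b a‖ = ZNorm m p nu a) →
  (∃ h : ℕ → (ℕ →₀ ℝ),
    (∀ n r, κ n ≤ r → r < κ (n + 1) → ∀ i ∈ (h r).support, κ n ≤ i ∧ i < κ (n + 1)) ∧
    (∀ n (T : ℕ →₀ ℝ), nu n (lc h T) =
      (∑ r ∈ Finset.Ico (κ n) (κ (n + 1)), |T r| ^ (2 * p n)) ^ (1 / (2 * p n))) ∧
    ∀ i, ∃ T : ℕ →₀ ℝ, lc h T = Finsupp.single i 1) →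
  ∀ y : ℕ → X, IsBlockSeq ℝ b y → ∃ z : ℕ → X, IsBlockSeq ℝ y z ∧
    Nonempty (X ≃L[ℝ] closedSpan ℝ z)

/-- `y` passes through the zone `n` along `single (κ n + 2 u) 1 + single (κ n + 2 u + 1) 1`,
`u < k` -/
def Through (κ : ℕ → ℕ) (k n : ℕ) (y : ℕ → ℕ →₀ ℝ) : Prop :=
  ∃ (i0 : ℕ) (r : ℕ → ℝ), (∀ u, u < k → r u ≠ 0) ∧ ∀ u, u < k →
    y (i0 + u) = r u • (Finsupp.single (κ n + 2 * u) 1 + Finsupp.single (κ n + 2 * u + 1) 1)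

/-- `z` avoids the zone `n` -/
def Avoids (κ : ℕ → ℕ) (n : ℕ) (z : ℕ → ℕ →₀ ℝ) : Prop :=
  ∃ l, (∀ i, i < l → ∀ j ∈ (z i).support, j < κ n) ∧
    ∀ i, l ≤ i → ∀ j ∈ (z i).support, κ (n + 1) ≤ j

/-- NA: non-absorption -/
def St_NA : Prop := ∃ C : ℝ, 0 < C ∧ ∀ (m : ℕ → ℝ≥0∞) (p : ℕ → ℝ) (κ : ℕ → ℕ)
  (nu : ℕ → (ℕ →₀ ℝ) → ℝ),
  Par m p → ZoneSys κ nu 2 → ∀ (n k : ℕ) (nrm : (Fin k → ℝ) → ℝ) (G : ℝ), 1 ≤ k →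
  κ (n + 1) = κ n + 2 * k →
  -- the norm of the diagonal vectors of the zone `n`
  (∀ t : Fin k → ℝ, nu n (∑ u, t u • (Finsupp.single (κ n + 2 * (u : ℕ)) 1 +
      Finsupp.single (κ n + 2 * u + 1) 1)) = nrm t) →
  -- the later zones are locally Hilbertian in dimension `k`
  (∀ n', n < n' → ZLH k n' κ nu) →
  -- the trace inequality in the zone `n`
  (∀ (J : Type) [Fintype J] (ξ b : J → Fin k → ℝ) (g : ℝ), 0 ≤ g →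
    (∀ θ : J → ℝ, (∀ j, |θ j| ≤ 1) → ∀ x : Fin k → ℝ,
      nrm (∑ j, (θ j * ∑ i, ξ j i * x i) • b j) ≤ g * nrm x) →
    G * |∑ j, ∑ i, ξ j i * b j i| ≤ g * k) →
  ∀ (X : Type) [NormedAddCommGroup X] [NormedSpace ℝ X] [CompleteSpace X] (b : SchauderBasis ℝ X),
  (∀ a : ℕ →₀ ℝ, ‖lc b a‖ = ZNorm m p nu a) →
  ∀ y z : ℕ → ℕ →₀ ℝ, IsBlock y → IsBlock z → Through κ k n y → Avoids κ n z →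
  ∀ (K : ℝ) (T : closedSpan ℝ (fun i => lc b (y i)) ≃L[ℝ] closedSpan ℝ (fun i => lc b (z i))),
    (∀ v, ‖T v‖ ≤ K * ‖v‖) → (∀ w, ‖T.symm w‖ ≤ K * ‖w‖) →
    G ≤ C * K ^ 2 * (κ n + 1)

/-- CAT: Baire category assembly -/
def St_CAT : Prop := ∀ (X : Type) [NormedAddCommGroup X] [NormedSpace ℝ X] [CompleteSpace X]
  (b : SchauderBasis ℝ X) (κ k : ℕ → ℕ), κ 0 = 0 → (∀ n, 1 ≤ k n) →
  (∀ n, κ (n + 1) = κ n + 2 * k n) →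
  (∀ K : ℝ, ∃ n0, ∀ n, n0 ≤ n → ∀ y z : ℕ → ℕ →₀ ℝ, IsBlock y → IsBlock z →
    Through κ (k n) n y → Avoids κ n z →
    ∀ T : closedSpan ℝ (fun i => lc b (y i)) ≃L[ℝ] closedSpan ℝ (fun i => lc b (z i)),
      (∀ v, ‖T v‖ ≤ K * ‖v‖) → (∀ w, ‖T.symm w‖ ≤ K * ‖w‖) → False) →
  ∀ Q : Subfield ℝ, IsAdmissible (b : ℕ → X) Q → IsMeagre (Is (b : ℕ → X) Q)

/-- QEX: an admissible field exists -/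
def St_QEX : Prop := ∀ (X : Type) [NormedAddCommGroup X] [NormedSpace ℝ X] (e : ℕ → X),
  ∃ Q : Subfield ℝ, IsAdmissible e Q

/-- FIN: the final theorem -/
def St_FIN : Prop := ∃ (X : Type) (_ : NormedAddCommGroup X) (_ : NormedSpace ℝ X)
  (_ : CompleteSpace X) (b : SchauderBasis ℝ X),
  (∀ y : ℕ → X, IsBlockSeq ℝ b y → ∃ z : ℕ → X, IsBlockSeq ℝ y z ∧
    Nonempty (X ≃L[ℝ] closedSpan ℝ z)) ∧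
  (∃ Q : Subfield ℝ, IsAdmissible (b : ℕ → X) Q) ∧
  ∀ Q : Subfield ℝ, IsAdmissible (b : ℕ → X) Q → IsMeagre (Is (b : ℕ → X) Q)

end Run7.h157.G
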