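import Mathlib
import Pool.Agent.Run7.h157.G.Iface
import Pool.Agent.Run7.h157.Cat2

/-!
The category argument and the existence of admissible fields.
-/

noncomputable section

namespace Run7.h157.G

open Set Filter Topology
open scoped ENNReal NNReal

section

variable {X : Type} [NormedAddCommGroup X] [NormedSpace ℝ X] {e : ℕ → X} {Q : Subfield ℝ}

/-- `x` passes through the zone `n` -/
def YSet (e : ℕ → X) (Q : Subfield ℝ) (κ : ℕ → ℕ) (k n : ℕ) : Set (BlockSpace e Q) :=
  {x | ∃ y : ℕ → ℕ →₀ ℝ, IsBlock y ∧ (∀ i, x.seq i = lc e (y i)) ∧ Through κ k n y}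

/-- `x` avoids the zone `n` -/
def ZSet (e : ℕ → X) (Q : Subfield ℝ) (κ : ℕ → ℕ) (n : ℕ) : Set (BlockSpace e Q) :=
  {x | ∃ z : ℕ → ℕ →₀ ℝ, IsBlock z ∧ (∀ i, x.seq i = lc e (z i)) ∧ Avoids κ n z}

theorem isOpen_YSet (he : Function.Injective (lc (𝕜 := ℝ) e)) (κ : ℕ → ℕ) (k n : ℕ) :
    IsOpen (YSet e Q κ k n) := by
  apply isOpen_of_agree
  rintro x ⟨y, hy, hxy, i0, r, hr, hyr⟩
  refine ⟨i0 + k, fun x' hx' => ?_⟩
  obtain ⟨y', hy', _, hxy'⟩ := exists_coef' he x'
  refine ⟨y', hy', hxy', i0, r, hr, fun u hu => ?_⟩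
  have h1 : y' (i0 + u) = y (i0 + u) := by
    apply he
    rw [← hxy', ← hxy]
    change (x'.1 (i0 + u)).1 = (x.1 (i0 + u)).1
    rw [hx' (i0 + u) (by omega)]
  rw [h1, hyr u hu]

theorem isOpen_ZSet (he : Function.Injective (lc (𝕜 := ℝ) e)) (κ : ℕ → ℕ) (n : ℕ) :
    IsOpen (ZSet e Q κ n) := by
  apply isOpen_of_agree
  rintro x ⟨z, hz, hxz, l, hl1, hl2⟩
  refine ⟨l + 1, fun x' hx' => ?_⟩
  obtain ⟨z', hz', _, hxz'⟩ := exists_coef' he x'
  have h1 : ∀ i, i < l + 1 → z' i = z i := by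
    intro i hi
    apply he
    rw [← hxz', ← hxz]
    change (x'.1 i).1 = (x.1 i).1
    rw [hx' i hi]
  refine ⟨z', hz', hxz', l, ?_, ?_⟩
  · intro i hi
    rw [h1 i (by omega)]
    exact hl1 i hi
  · intro i hi j hj
    rcases hi.eq_or_lt with rfl | hlt
    · rw [h1 l (Nat.lt_succ_self l)] at hj
      exact hl2 l le_rfl j hj
    · obtain ⟨j0, hj0⟩ := Finsupp.support_nonempty_iff.mpr (hz' l).1
      have h2 := hz'.lt hlt hj0 hj
      rw [h1 l (Nat.lt_succ_self l)] at hj0
      have h3 := hl2 l le_rfl j0 hj0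
      omega

theorem dense_of_agree2 {U : Set (BlockSpace e Q × BlockSpace e Q)}
    (h : ∀ (x0 z0 : BlockSpace e Q) (m : ℕ), ∃ x z, (x, z) ∈ U ∧ (∀ k, k < m → x.1 k = x0.1 k) ∧
      ∀ k, k < m → z.1 k = z0.1 k) : Dense U := by
  rintro ⟨x0, z0⟩
  choose f g hfU hf hg using h x0 z0
  have hind : Topology.IsInducing (fun x : BlockSpace e Q => x.1) := ⟨rfl⟩
  refine mem_closure_of_tendsto (f := fun m => (f m, g m)) (b := atTop) ?_
    (Eventually.of_forall hfU)
  apply Tendsto.prodMk_nhds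
  · rw [hind.tendsto_nhds_iff, tendsto_pi_nhds]
    intro k
    apply tendsto_const_nhds.congr'
    filter_upwards [eventually_gt_atTop k] with m hm
    exact (hf m k hm).symm
  · rw [hind.tendsto_nhds_iff, tendsto_pi_nhds]
    intro k
    apply tendsto_const_nhds.congr'
    filter_upwards [eventually_gt_atTop k] with m hm
    exact (hg m k hm).symm

theorem single_add_ne {i : ℕ} :
    (Finsupp.single (i) (1 : ℝ) + Finsupp.single (i + 1) 1 : ℕ →₀ ℝ) i = 1 := by
  simp

theorem support_single_add {i j : ℕ}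
    (h : j ∈ (Finsupp.single (i) (1 : ℝ) + Finsupp.single (i + 1) 1 : ℕ →₀ ℝ).support) :
    j = i ∨ j = i + 1 := by
  have := Finsupp.support_add h
  rw [Finset.mem_union, Finsupp.support_single_ne_zero _ one_ne_zero,
    Finsupp.support_single_ne_zero _ one_ne_zero, Finset.mem_singleton, Finset.mem_singleton] at this
  exact this

theorem isBlock_of {y : ℕ → ℕ →₀ ℝ} (h0 : ∀ k, y k ≠ 0)
    (h1 : ∀ k, ∀ i ∈ (y k).support, ∀ j ∈ (y (k + 1)).support, i < j) : IsBlock y := by
  intro k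
  refine ⟨h0 k, ?_⟩
  cases k with
  | zero => intro i _; exact Nat.zero_le _
  | succ k =>
    intro j hj
    exact top_le (fun i hi => h1 k i hi j hj)

theorem dense_WSet (he : Function.Injective (lc (𝕜 := ℝ) e)) (hQ : IsAdmissible e Q)
    {κ k : ℕ → ℕ} (hk : ∀ n, 1 ≤ k n) (hκ : ∀ n, κ (n + 1) = κ n + 2 * k n)
    (N : ℕ) : Dense (⋃ n ≥ N, (YSet e Q κ (k n) n) ×ˢ (ZSet e Q κ n)) := by
  have hκm : StrictMono κ := strictMono_nat_of_lt_succ (fun n => by
    rw [hκ]; have := hk n; omega)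
  apply dense_of_agree2
  intro x0 z0 m
  obtain ⟨c0, hc0, hc0Q, hc0x⟩ := exists_coef' he x0
  obtain ⟨d0, hd0, hd0Q, hd0x⟩ := exists_coef' he z0
  set n := max N (max (prevTop c0 m) (prevTop d0 m)) with hn
  have hnN : N ≤ n := le_max_left _ _
  have hκn : n ≤ κ n := hκm.id_le n
  have hn1 : prevTop c0 m ≤ κ n := ((le_max_left _ _).trans (le_max_right _ _)).trans hκn
  have hn2 : prevTop d0 m ≤ κ n := ((le_max_right _ _).trans (le_max_right _ _)).trans hκn
  -- the first sequence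
  set y : ℕ → ℕ →₀ ℝ := fun j => Finsupp.single (κ n + 2 * j) 1 +
    Finsupp.single (κ n + 2 * j + 1) 1 with hy
  have hyne : ∀ j, y j ≠ 0 := by
    intro j h0
    have h1 : y j (κ n + 2 * j) = 1 := single_add_ne
    rw [h0] at h1
    simp at h1
  have hyB : IsBlock y := by
    apply isBlock_of hyne
    intro j i hi i' hi'
    have h1 := support_single_add hi
    have h2 := support_single_add hi'
    omega
  have hyQ : ∀ j i, y j i ∈ Q := by
    intro j i
    simp only [hy, Finsupp.add_apply, Finsupp.single_apply]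
    apply Q.add_mem <;> split_ifs <;> simp [Q.one_mem, Q.zero_mem]
  obtain ⟨x, hx1, hx2⟩ := splice he hQ x0 hc0 hc0Q hc0x m 0 hyB hyQ (by
    intro i hi
    have h1 := support_single_add hi
    omega)
  -- the second sequence
  set z : ℕ → ℕ →₀ ℝ := fun j => Finsupp.single (κ (n + 1) + j) 1 with hz
  have hzB : IsBlock z := by
    apply isBlock_of
    · intro j h0
      rw [Finsupp.single_eq_zero] at h0
      exact one_ne_zero h0
    · intro j i hi i' hi'
      have h1 := Finsupp.support_single_subset hi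
      have h2 := Finsupp.support_single_subset hi'
      rw [Finset.mem_singleton] at h1 h2
      omega
  have hzQ : ∀ j i, z j i ∈ Q := by
    intro j i
    simp only [hz, Finsupp.single_apply]
    split_ifs <;> simp [Q.one_mem, Q.zero_mem]
  have hκn1 : κ n < κ (n + 1) := hκm (Nat.lt_succ_self n)
  obtain ⟨w, hw1, hw2⟩ := splice he hQ z0 hd0 hd0Q hd0x m 0 hzB hzQ (by
    intro i hi
    have h1 := Finsupp.support_single_subset hi
    rw [Finset.mem_singleton] at h1
    omega)
  refine ⟨x, w, ?_, hx1, hw1⟩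
  rw [mem_iUnion₂]
  refine ⟨n, hnN, ?_, ?_⟩
  · obtain ⟨c, hc, _, hcx⟩ := exists_coef' he x
    refine ⟨c, hc, hcx, m, fun u => (‖lc e (y u)‖)⁻¹, ?_, ?_⟩
    · intro u _
      apply inv_ne_zero
      rw [norm_ne_zero_iff]
      intro h0
      apply hyne u
      apply he
      rw [h0, map_zero]
    · intro u _
      apply he
      rw [← hcx]
      change (x.1 (m + u)).1 = _
      rw [hx2 u, Nat.zero_add]
      rfl
  · obtain ⟨c, hc, _, hcx⟩ := exists_coef' he w
    refine ⟨c, hc, hcx, m, ?_, ?_⟩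
    · intro i hi j hj
      have h1 : c i = d0 i := by
        apply he
        rw [← hcx, ← hd0x]
        change (w.1 i).1 = (z0.1 i).1
        rw [hw1 i hi]
      rw [h1] at hj
      have h2 : j < prevTop d0 (i + 1) := lt_top hj
      have h3 := hd0.strictMono.monotone (show i + 1 ≤ m from hi)
      omega
    · intro i hi j hj
      have h1 : c i = normVec e (z (i - m)) := by
        apply he
        rw [← hcx]
        change (w.1 i).1 = _
        have h2 := hw2 (i - m)
        rw [Nat.zero_add, show m + (i - m) = i by omega] at h2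
        exact h2
      rw [h1] at hj
      have h2 := Finsupp.support_single_subset (support_normVec hj)
      rw [Finset.mem_singleton] at h2
      omega

end

theorem st_CAT : St_CAT := by
  intro X _ _ _ b κ k hκ0 hk hκ H Q hQ
  obtain ⟨K0, hb⟩ := exists_basicSeq b
  have he : Function.Injective (lc (𝕜 := ℝ) (b : ℕ → X)) := hb.lc_injective
  choose n0 hn0 using H
  set U : ℕ → Set (BlockSpace (b : ℕ → X) Q × BlockSpace (b : ℕ → X) Q) := fun K =>
    ⋃ n ≥ n0 (K : ℝ), (YSet (b : ℕ → X) Q κ (k n) n) ×ˢ (ZSet (b : ℕ → X) Q κ n) with hU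
  have hUr : ∀ K, U K ∈ residual (BlockSpace (b : ℕ → X) Q × BlockSpace (b : ℕ → X) Q) := by
    intro K
    apply residual_of_dense_open
    · exact isOpen_biUnion (fun n _ => (isOpen_YSet he κ (k n) n).prod (isOpen_ZSet he κ n))
    · exact dense_WSet he hQ hk hκ _
  change (Is (b : ℕ → X) Q)ᶜ ∈ residual _
  have hI : (⋂ K, U K) ∈ residual (BlockSpace (b : ℕ → X) Q × BlockSpace (b : ℕ → X) Q) :=
    countable_iInter_mem.mpr hUr
  refine mem_of_superset hI ?_
  rintro ⟨x, w⟩ hp ⟨T⟩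
  obtain ⟨K, hK⟩ := exists_nat_ge (max ‖(T : closedSpan ℝ x.seq →L[ℝ] closedSpan ℝ w.seq)‖
    ‖(T.symm : closedSpan ℝ w.seq →L[ℝ] closedSpan ℝ x.seq)‖)
  have hT : ∃ T : closedSpan ℝ x.seq ≃L[ℝ] closedSpan ℝ w.seq, (∀ v, ‖T v‖ ≤ (K : ℝ) * ‖v‖) ∧
      ∀ v, ‖T.symm v‖ ≤ (K : ℝ) * ‖v‖ := by
    refine ⟨T, fun v => ?_, fun v => ?_⟩
    · refine ((T : closedSpan ℝ x.seq →L[ℝ] closedSpan ℝ w.seq).le_opNorm v).trans ?_
      gcongr
      exact (le_max_left _ _).trans hK
    · refine ((T.symm : closedSpan ℝ w.seq →L[ℝ] closedSpan ℝ x.seq).le_opNorm v).trans ?_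
      gcongr
      exact (le_max_right _ _).trans hK
  have h1 := mem_iInter.mp hp K
  rw [hU, mem_iUnion₂] at h1
  obtain ⟨n, hn, ⟨y, hy, hxy, hty⟩, ⟨z, hz, hwz, haz⟩⟩ := h1
  have e1 : x.seq = fun i => lc b (y i) := funext hxy
  have e2 : w.seq = fun i => lc b (z i) := funext hwz
  rw [e1, e2] at hT
  obtain ⟨T, hT1, hT2⟩ := hT
  exact hn0 K n hn y z hy hz hty haz T hT1 hT2

/-- one step of the closure -/
def stepQ {X : Type} [NormedAddCommGroup X] [NormedSpace ℝ X] (e : ℕ → X) (Q : Subfield ℝ) :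
    Subfield ℝ :=
  Subfield.closure ((Q : Set ℝ) ∪ range (fun c : EQ Q => ‖lc e c.1‖))

theorem st_QEX : St_QEX := by
  intro X _ _ e
  set S : ℕ → Subfield ℝ := fun n => (stepQ e)^[n] ⊥ with hS
  have hS1 : ∀ n, S (n + 1) = stepQ e (S n) := fun n => Function.iterate_succ_apply' _ _ _
  have hle : ∀ n, S n ≤ S (n + 1) := by
    intro n x hx
    rw [hS1]
    exact Subfield.subset_closure (Or.inl hx)
  have hmono : Monotone S := monotone_nat_of_le_succ hle
  have hc : ∀ n, ((S n : Subfield ℝ) : Set ℝ).Countable := by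
    intro n
    induction n with
    | zero =>
      have h1 : S 0 = Subfield.closure ∅ := by
        rw [Subfield.closure_empty]; rfl
      rw [h1, ← Cardinal.le_aleph0_iff_set_countable]
      refine (Subfield.cardinalMk_closure_le_max _).trans ?_
      simp
    | succ n ih =>
      rw [hS1]
      unfold stepQ
      rw [← Cardinal.le_aleph0_iff_set_countable]
      refine (Subfield.cardinalMk_closure_le_max _).trans ?_
      have := countable_EQ ih
      have h2 : ((S n : Set ℝ) ∪ range (fun c : EQ (S n) => ‖lc e c.1‖)).Countable :=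
        ih.union (countable_range _)
      exact max_le (Cardinal.le_aleph0_iff_set_countable.mpr h2) le_rfl
  have hmem : ∀ x, x ∈ (⨆ n, S n) ↔ ∃ n, x ∈ S n := fun x =>
    Subfield.mem_iSup_of_directed hmono.directed_le
  refine ⟨⨆ n, S n, ?_, ?_, ?_⟩
  · have h1 : ((⨆ n, S n : Subfield ℝ) : Set ℝ) = ⋃ n, (S n : Set ℝ) := by
      ext x
      rw [mem_iUnion]
      exact hmem x
    rw [h1]
    exact countable_iUnion hc
  · simp
  · intro c hcs
    have h1 : ∃ n, ∀ i, c i ∈ S n := by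
      have h2 : ∀ i, ∃ n, c i ∈ S n := fun i => (hmem _).mp (hcs i)
      choose f hf using h2
      refine ⟨c.support.sup f, fun i => ?_⟩
      by_cases hi : i ∈ c.support
      · exact hmono (Finset.le_sup hi) (hf i)
      · rw [Finsupp.notMem_support_iff.mp hi]
        exact (S _).zero_mem
    obtain ⟨n, hn⟩ := h1
    rw [hmem]
    refine ⟨n + 1, ?_⟩
    rw [hS1]
    exact Subfield.subset_closure (Or.inr ⟨⟨c, hn⟩, rfl⟩)

end Run7.h157.G
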