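import Pool.Agent.Run7.h157.G.E1
import Pool.Agent.Run7.h157.G.Iface

/-!
MP_e76fc4_an: pieces E2 (closure), E3 (triangle inequality), E5 (domination).
-/

noncomputable section

namespace Run7.h157.G

open Set Filter Topology
open scoped ENNReal NNReal

/-! ### E2 -/

theorem sum_iSup_le {ι κ : Type*} [Nonempty κ] (s : Finset ι) (g : ι → κ → ℝ≥0∞) :
    ∀ C : ℝ≥0∞, (∀ T : ι → κ, ∑ i ∈ s, g i (T i) ≤ C) → ∑ i ∈ s, ⨆ k, g i k ≤ C := by
  classical
  induction s using Finset.induction_on with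
  | empty => intro C _; simp
  | insert a s ha ih =>
    intro C h
    rcases eq_or_ne C ∞ with rfl | hC
    · exact le_top
    rw [Finset.sum_insert ha, ENNReal.iSup_add]
    refine iSup_le fun k => ?_
    have hk : ∀ T : ι → κ, g a k + ∑ i ∈ s, g i (T i) ≤ C := by
      intro T
      have := h (Function.update T a k)
      rw [Finset.sum_insert ha, Function.update_self] at this
      refine le_trans (le_of_eq ?_) this
      congr 1
      refine Finset.sum_congr rfl fun i hi => ?_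
      have hia : i ≠ a := fun h' => ha (h' ▸ hi)
      rw [Function.update_of_ne hia]
    have hk0 : g a k ≤ C := by
      obtain ⟨k0⟩ := (inferInstance : Nonempty κ)
      exact le_self_add.trans (hk fun _ => k0)
    have hkt : g a k ≠ ∞ := ne_top_of_le_ne_top hC hk0
    have h1 : ∑ i ∈ s, ⨆ k, g i k ≤ C - g a k := by
      refine ih _ fun T => ?_
      exact ENNReal.le_sub_of_add_le_left hkt (hk T)
    calc g a k + ∑ i ∈ s, ⨆ k, g i k ≤ g a k + (C - g a k) := by gcongr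
      _ = C := add_tsub_cancel_of_le hk0

theorem PS_eq_iSup (p : ℝ) (F : (ℕ → ℝ≥0∞) → ℝ≥0∞) (x : ℕ → ℝ≥0∞) :
    PS p F x = ⨆ S : {S : Finset (ℕ × ℕ) // Adm S}, sS p F S.1 x := by
  unfold PS
  rw [iSup_subtype']

instance : Nonempty {S : Finset (ℕ × ℕ) // Adm S} := ⟨⟨∅, adm_empty⟩⟩

theorem PS_idem {p : ℝ} (hp : 0 < p) {F : (ℕ → ℝ≥0∞) → ℝ≥0∞} (h0 : F (fun _ => 0) = 0)
    (x : ℕ → ℝ≥0∞) : PS p (PS p F) x ≤ PS p F x := by
  refine PS_le fun S hS => ?_
  unfold sS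
  rw [one_div, ENNReal.rpow_inv_le_iff hp]
  have h1 : ∀ I : ℕ × ℕ, PS p F (res I.1 I.2 x) ^ p =
      ⨆ T : {S : Finset (ℕ × ℕ) // Adm S}, ∑ J ∈ T.1, F (res J.1 J.2 (res I.1 I.2 x)) ^ p := by
    intro I
    rw [PS_eq_iSup]
    have h2 : ∀ f : {S : Finset (ℕ × ℕ) // Adm S} → ℝ≥0∞, (⨆ d, f d) ^ p = ⨆ d, f d ^ p :=
      fun f => (ENNReal.orderIsoRpow p hp).map_iSup f
    rw [h2]
    refine iSup_congr fun T => ?_
    unfold sS
    rw [← ENNReal.rpow_mul, one_div_mul_cancel hp.ne', ENNReal.rpow_one]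
  simp only [h1]
  refine sum_iSup_le S _ _ fun T => ?_
  have h3 := sum_rpow_le_PS hp h0 (S.sigma fun I => (T I).1)
    (fun i => max i.2.1 i.1.1) (fun i => min i.2.2 i.1.2) (by
      rintro ⟨I, I'⟩ hi ⟨J, J'⟩ hj hne n h1 h2 h3 h4
      rw [Finset.mem_sigma] at hi hj
      simp only at h1 h2 h3 h4 hi hj
      by_cases hIJ : I = J
      · subst hIJ
        by_cases hIJ' : I' = J'
        · subst hIJ'; exact hne rfl
        · exact (T I).2.disj hi.2 hj.2 hIJ' n (by omega) (by omega) (by omega) (by omega)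
      · exact hS.disj hi.1 hj.1 hIJ n (by omega) (by omega) (by omega) (by omega)) x
  rw [one_div, ENNReal.rpow_inv_le_iff hp, Finset.sum_sigma] at h3
  refine le_trans (le_of_eq ?_) h3
  refine Finset.sum_congr rfl fun I _ => Finset.sum_congr rfl fun J _ => ?_
  rw [res_res]

theorem self_le_PS {p : ℝ} (hp : 0 < p) (F : (ℕ → ℝ≥0∞) → ℝ≥0∞) (a b : ℕ) (x : ℕ → ℝ≥0∞) :
    F (res a b x) ≤ PS p F (res a b x) := by
  have h : Adm {(a, b)} := by
    intro I hI J hJ hne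
    simp only [Finset.coe_singleton, Set.mem_singleton_iff] at hI hJ
    exact absurd (hI.trans hJ.symm) hne
  refine le_trans (le_of_eq ?_) (sS_le_PS h _)
  unfold sS
  rw [Finset.sum_singleton, ← ENNReal.rpow_mul, mul_one_div_cancel hp.ne', ENNReal.rpow_one,
    res_res]
  simp

theorem PS_anti {p q : ℝ} (hp : 0 < p) (hpq : p ≤ q) (F : (ℕ → ℝ≥0∞) → ℝ≥0∞) (x : ℕ → ℝ≥0∞) :
    PS q F x ≤ PS p F x := by
  refine PS_le fun S hS => ?_
  exact (lp_anti S _ hp hpq).trans (sS_le_PS hS x)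

theorem PS_Mk_le' {m : ℕ → ℝ≥0∞} {p : ℕ → ℝ} (h : Par m p) (k : ℕ) :
    ∀ n j, j + n = k + 1 → ∀ x, PS (p k) (Mk m p j) x ≤ m k * Mk m p k x := by
  intro n
  induction n with
  | zero =>
    intro j hj x
    have : j = k + 1 := by omega
    subst this
    exact PS_Mk_le h k x
  | succ n ih =>
    intro j hj x
    have h1 := ih (j + 1) (by omega) x
    refine le_trans ?_ h1
    refine le_trans ?_ (PS_idem (h.pos k) (nrm_Mk h (j + 1)).zero x)
    refine PS_mono (h.pos k) fun a b => ?_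
    rw [Mk_eq h j]
    refine max_le (self_le_PS (h.pos k) _ a b x) ?_
    refine le_trans ?_ (PS_anti (h.pos k) (h.anti (show j ≤ k by omega)) _ _)
    calc (m j)⁻¹ * PS (p j) (Mk m p (j + 1)) (res a b x) ≤
        1 * PS (p j) (Mk m p (j + 1)) (res a b x) := by
          gcongr
          exact ENNReal.inv_le_one.mpr (h.one_le j)
      _ = _ := one_mul _

theorem st_E2 : St_E2 := by
  intro m p h k x
  refine (PS_Mk_le' h k (k + 1) 0 (by omega) x).trans ?_
  gcongr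
  exact Mk_le_MM h k x

/-! ### E3 -/

/-- the triangle inequality for the 2-convexification -/
def QF (F : (ℕ → ℝ≥0∞) → ℝ≥0∞) : Prop := ∀ u v : ℕ → ℝ≥0∞,
  F (fun i => (u i + v i) ^ 2) ^ (1 / 2 : ℝ) ≤
    F (fun i => u i ^ 2) ^ (1 / 2 : ℝ) + F (fun i => v i ^ 2) ^ (1 / 2 : ℝ)

theorem half_le {x y : ℝ≥0∞} (h : x ≤ y) : x ^ (1 / 2 : ℝ) ≤ y ^ (1 / 2 : ℝ) :=
  ENNReal.rpow_le_rpow h (by norm_num)

theorem iSup_half {κ : Sort*} (f : κ → ℝ≥0∞) :
    (⨆ i, f i) ^ (1 / 2 : ℝ) = ⨆ i, f i ^ (1 / 2 : ℝ) :=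
  (ENNReal.orderIsoRpow (1 / 2 : ℝ) (by norm_num)).map_iSup f

theorem sq_half (x : ℝ≥0∞) : (x ^ 2) ^ (1 / 2 : ℝ) = x := by
  rw [← ENNReal.rpow_natCast, ← ENNReal.rpow_mul]
  norm_num

theorem QF_sup : QF (fun x => ⨆ i, x i) := by
  intro u v
  simp only [iSup_half, sq_half]
  exact iSup_le fun i => add_le_add (le_iSup u i) (le_iSup v i)

theorem QF_iSup {κ : Type*} (F : κ → (ℕ → ℝ≥0∞) → ℝ≥0∞) (h : ∀ d, QF (F d)) :
    QF (fun x => ⨆ d, F d x) := by
  intro u v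
  simp only [iSup_half]
  exact iSup_le fun d => (h d u v).trans (add_le_add
    (le_iSup (fun d => F d (fun i => u i ^ 2) ^ (1 / 2 : ℝ)) d)
    (le_iSup (fun d => F d (fun i => v i ^ 2) ^ (1 / 2 : ℝ)) d))

theorem QF_sS {F : (ℕ → ℝ≥0∞) → ℝ≥0∞} (h : QF F) {p : ℝ} (hp : 1 ≤ p) (S : Finset (ℕ × ℕ)) :
    QF (fun x => sS p F S x) := by
  intro u v
  have hp0 : 0 < p := by linarith
  have key : ∀ f : ℕ × ℕ → ℝ≥0∞, ((∑ I ∈ S, f I ^ p) ^ (1 / p)) ^ (1 / 2 : ℝ) =
      (∑ I ∈ S, (f I ^ (1 / 2 : ℝ)) ^ (2 * p)) ^ (1 / (2 * p)) := by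
    intro f
    rw [← ENNReal.rpow_mul]
    congr 1
    · refine Finset.sum_congr rfl fun I _ => ?_
      rw [← ENNReal.rpow_mul]
      congr 1
      ring
    · field_simp
  unfold sS
  rw [key, key, key]
  refine le_trans ?_ (ENNReal.Lp_add_le _ _ _ (by linarith))
  refine ENNReal.rpow_le_rpow (Finset.sum_le_sum fun I _ => ENNReal.rpow_le_rpow ?_ (by positivity))
    (by positivity)
  have e : ∀ w : ℕ → ℝ≥0∞, res I.1 I.2 (fun i => w i ^ 2) = fun i => res I.1 I.2 w i ^ 2 := by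
    intro w
    ext i
    simp only [res_apply]
    split_ifs
    · rfl
    · simp
  have e2 : res I.1 I.2 (fun i => (u i + v i) ^ 2) =
      fun i => (res I.1 I.2 u i + res I.1 I.2 v i) ^ 2 := by
    rw [e (fun i => u i + v i), res_add]
  rw [e2, e u, e v]
  exact h _ _

theorem QF_smul {F : (ℕ → ℝ≥0∞) → ℝ≥0∞} (h : QF F) (c : ℝ≥0∞) : QF (fun x => c * F x) := by
  intro u v
  simp only [ENNReal.mul_rpow_of_nonneg _ _ (show (0 : ℝ) ≤ 1 / 2 by norm_num)]
  rw [← mul_add]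
  gcongr
  exact h u v

theorem QF_max {F G : (ℕ → ℝ≥0∞) → ℝ≥0∞} (hF : QF F) (hG : QF G) :
    QF (fun x => max (F x) (G x)) := by
  intro u v
  have hm : ∀ a b : ℝ≥0∞, (max a b) ^ (1 / 2 : ℝ) = max (a ^ (1 / 2 : ℝ)) (b ^ (1 / 2 : ℝ)) := by
    intro a b
    rcases le_total a b with h | h
    · rw [max_eq_right h, max_eq_right (half_le h)]
    · rw [max_eq_left h, max_eq_left (half_le h)]
  simp only [hm]
  refine max_le ((hF u v).trans ?_) ((hG u v).trans ?_)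
  · exact add_le_add (le_max_left _ _) (le_max_left _ _)
  · exact add_le_add (le_max_right _ _) (le_max_right _ _)

theorem QF_PS {F : (ℕ → ℝ≥0∞) → ℝ≥0∞} (h : QF F) {p : ℝ} (hp : 1 ≤ p) : QF (PS p F) := by
  have : PS p F = fun x => ⨆ S : {S : Finset (ℕ × ℕ) // Adm S}, sS p F S.1 x := by
    ext x
    exact PS_eq_iSup p F x
  rw [this]
  exact QF_iSup (fun (S : {S : Finset (ℕ × ℕ) // Adm S}) x => sS p F S.1 x)
    fun S => QF_sS h hp S.1

theorem QF_Mn {m : ℕ → ℝ≥0∞} {p : ℕ → ℝ} (h : Par m p) (d : ℕ) : ∀ j, QF (Mn m p d j) := by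
  induction d with
  | zero => intro j; exact QF_sup
  | succ d ih =>
    intro j
    exact QF_max (ih (j + 1)) (QF_smul (QF_PS (ih (j + 1)) (h.one_lt j).le) _)

theorem st_E3 : St_E3 := by
  intro m p h u v
  exact QF_iSup (fun d => Mn m p d 0) (fun d => QF_Mn h d 0) u v

/-! ### E5 -/

theorem E5_aux {m : ℕ → ℝ≥0∞} {p : ℕ → ℝ} (h : Par m p) {s : ℕ → ℕ} (hs : StrictMono s) (d : ℕ) :
    ∀ (j : ℕ) (ζ : ℕ → ℝ≥0∞),
      Mn m p d j (fun n => MM m p (res (s n) (s (n + 1)) ζ)) ≤ MM m p ζ := by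
  induction d with
  | zero =>
    intro j ζ
    exact iSup_le fun n => (nrm_MM h).res_le _ _ _
  | succ d ih =>
    intro j ζ
    rw [Mn_succ]
    refine max_le (ih _ _) ?_
    have h1 : PS (p j) (Mn m p d (j + 1)) (fun n => MM m p (res (s n) (s (n + 1)) ζ)) ≤
        PS (p j) (MM m p) ζ := by
      refine PS_le fun S hS => ?_
      refine le_trans ?_ (sum_rpow_le_PS (h.pos j) (nrm_MM h).zero S (fun I => s I.1)
        (fun I => s I.2) ?_ ζ)
      · unfold sS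
        refine ENNReal.rpow_le_rpow (Finset.sum_le_sum fun I _ =>
          ENNReal.rpow_le_rpow ?_ (h.pos j).le) (by have := h.pos j; positivity)
        refine le_trans ((nrm_Mn h d (j + 1)).mono fun n => ?_) (ih (j + 1) (res (s I.1) (s I.2) ζ))
        rw [res_apply]
        split_ifs with hn
        · refine (nrm_MM h).mono fun i => ?_
          rw [res_res, max_eq_left (hs.monotone hn.1), min_eq_left (hs.monotone hn.2)]
        · exact bot_le
      · intro I hI J hJ hne n h1 h2 h3 h4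
        have k1 : I.1 < J.2 := hs.lt_iff_lt.1 (h1.trans_lt h4)
        have k2 : J.1 < I.2 := hs.lt_iff_lt.1 (h3.trans_lt h2)
        have k3 : I.1 < I.2 := hs.lt_iff_lt.1 (h1.trans_lt h2)
        have k4 : J.1 < J.2 := hs.lt_iff_lt.1 (h3.trans_lt h4)
        exact hS.disj hI hJ hne (max I.1 J.1) (le_max_left _ _) (max_lt k3 k2) (le_max_right _ _)
          (max_lt k1 k4)
    calc (m j)⁻¹ * PS (p j) (Mn m p d (j + 1)) (fun n => MM m p (res (s n) (s (n + 1)) ζ))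
        ≤ (m j)⁻¹ * (m j * MM m p ζ) := by
          gcongr
          exact h1.trans (st_E2 m p h j ζ)
      _ = MM m p ζ := by
          rw [← mul_assoc, ENNReal.inv_mul_cancel (h.ne_zero j) (h.ne_top j), one_mul]

theorem st_E5 : St_E5 := by
  intro m p h s ζ hs
  exact iSup_le fun d => E5_aux h hs d 0 ζ

end Run7.h157.G
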