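import Mathlib
import Pool.Agent.Run7.h157.G.Defs

/-!
Basic properties of the norms `Mn`, `Mk`, `MM`.
-/

noncomputable section

namespace Run7.h157.G

open Set Filter Topology
open scoped ENNReal NNReal

/-! ### restrictions -/

theorem res_apply (a b : ℕ) (x : ℕ → ℝ≥0∞) (i : ℕ) :
    res a b x i = if a ≤ i ∧ i < b then x i else 0 := rfl

theorem res_le (a b : ℕ) (x : ℕ → ℝ≥0∞) (i : ℕ) : res a b x i ≤ x i := by
  rw [res_apply]; split_ifs <;> simp

theorem res_mono {x y : ℕ → ℝ≥0∞} (h : ∀ i, x i ≤ y i) (a b i : ℕ) :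
    res a b x i ≤ res a b y i := by
  rw [res_apply, res_apply]; split_ifs
  · exact h i
  · exact le_rfl

theorem res_mono' {a b a' b' : ℕ} (ha : a' ≤ a) (hb : b ≤ b') (x : ℕ → ℝ≥0∞) (i : ℕ) :
    res a b x i ≤ res a' b' x i := by
  rw [res_apply, res_apply]
  split_ifs with h1 h2
  · exact le_rfl
  · omega
  · exact bot_le
  · exact le_rfl

theorem res_res (a b c d : ℕ) (x : ℕ → ℝ≥0∞) :
    res a b (res c d x) = res (max a c) (min b d) x := by
  ext i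
  simp only [res_apply]
  by_cases h1 : a ≤ i ∧ i < b <;> by_cases h2 : c ≤ i ∧ i < d <;> simp [h1, h2]; omega

theorem res_of_le {a b : ℕ} (h : b ≤ a) (x : ℕ → ℝ≥0∞) : res a b x = fun _ => 0 := by
  ext i
  rw [res_apply, if_neg (by omega)]

@[simp] theorem res_zero_fun (a b : ℕ) : res a b (fun _ => (0 : ℝ≥0∞)) = fun _ => 0 := by
  ext i
  rw [res_apply]; split_ifs <;> rfl

theorem res_smul (a b : ℕ) (c : ℝ≥0∞) (x : ℕ → ℝ≥0∞) :
    res a b (fun i => c * x i) = fun i => c * res a b x i := by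
  ext i
  simp only [res_apply]; split_ifs <;> simp

theorem res_add (a b : ℕ) (x y : ℕ → ℝ≥0∞) :
    res a b (fun i => x i + y i) = fun i => res a b x i + res a b y i := by
  ext i
  simp only [res_apply]; split_ifs <;> simp

theorem res_split {a b c : ℕ} (h1 : a ≤ b) (h2 : b ≤ c) (x : ℕ → ℝ≥0∞) :
    res a c x = fun i => res a b x i + res b c x i := by
  ext i
  simp only [res_apply]
  by_cases h : i < b
  · by_cases h3 : a ≤ i
    · rw [if_pos ⟨h3, by omega⟩, if_pos ⟨h3, h⟩, if_neg (by omega), add_zero]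
    · rw [if_neg (by omega), if_neg (by omega), if_neg (by omega), add_zero]
  · by_cases h3 : i < c
    · rw [if_pos ⟨by omega, h3⟩, if_neg (by omega), if_pos ⟨by omega, h3⟩, zero_add]
    · rw [if_neg (by omega), if_neg (by omega), if_neg (by omega), add_zero]

/-! ### norms -/

/-- lattice norms between the sup norm and the `l_1` norm -/
structure Nrm (F : (ℕ → ℝ≥0∞) → ℝ≥0∞) : Prop where
  mono : ∀ {x y : ℕ → ℝ≥0∞}, (∀ i, x i ≤ y i) → F x ≤ F y
  smul : ∀ (c : ℝ≥0∞) x, F (fun i => c * x i) = c * F x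
  add : ∀ x y, F (fun i => x i + y i) ≤ F x + F y
  sup : ∀ x i, x i ≤ F x
  sum : ∀ x, F x ≤ ∑' i, x i

theorem Nrm.zero {F : (ℕ → ℝ≥0∞) → ℝ≥0∞} (hF : Nrm F) : F (fun _ => 0) = 0 := by
  have := hF.smul 0 (fun _ => 0)
  simpa using this

theorem Nrm.res_le {F : (ℕ → ℝ≥0∞) → ℝ≥0∞} (hF : Nrm F) (a b : ℕ) (x : ℕ → ℝ≥0∞) :
    F (res a b x) ≤ F x := hF.mono (G.res_le a b x)

theorem Nrm.res_of_le {F : (ℕ → ℝ≥0∞) → ℝ≥0∞} (hF : Nrm F) {a b : ℕ} (h : b ≤ a)
    (x : ℕ → ℝ≥0∞) : F (res a b x) = 0 := by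
  rw [G.res_of_le h, hF.zero]

theorem nrm_sup : Nrm (fun x : ℕ → ℝ≥0∞ => ⨆ i, x i) where
  mono := fun h => iSup_mono h
  smul := fun c x => (ENNReal.mul_iSup c x).symm
  add := fun x y => iSup_le (fun i => add_le_add (le_iSup x i) (le_iSup y i))
  sup := fun x i => le_iSup x i
  sum := fun x => iSup_le (fun i => ENNReal.le_tsum i)

/-! ### the sums over families -/

theorem adm_empty : Adm ∅ := by simp [Adm]

theorem Adm.disj {S : Finset (ℕ × ℕ)} (hS : Adm S) {I J : ℕ × ℕ} (hI : I ∈ S) (hJ : J ∈ S)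
    (h : I ≠ J) (i : ℕ) (h1 : I.1 ≤ i) (h2 : i < I.2) (h3 : J.1 ≤ i) (h4 : i < J.2) : False := by
  have := hS hI hJ h
  rw [Function.onFun, Finset.disjoint_left] at this
  exact this (Finset.mem_Ico.mpr ⟨h1, h2⟩) (Finset.mem_Ico.mpr ⟨h3, h4⟩)

theorem Adm.of_disj {S : Finset (ℕ × ℕ)} (h : ∀ I ∈ S, ∀ J ∈ S, I ≠ J → ∀ i, I.1 ≤ i → i < I.2 →
    J.1 ≤ i → i < J.2 → False) : Adm S := by
  intro I hI J hJ hIJ
  rw [Function.onFun, Finset.disjoint_left]
  intro i h1 h2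
  rw [Finset.mem_Ico] at h1 h2
  exact h I hI J hJ hIJ i h1.1 h1.2 h2.1 h2.2

theorem Adm.subset {S S' : Finset (ℕ × ℕ)} (hS : Adm S) (h : S' ⊆ S) : Adm S' :=
  Set.PairwiseDisjoint.subset hS (by exact_mod_cast h)

theorem sS_le_PS {p : ℝ} {F : (ℕ → ℝ≥0∞) → ℝ≥0∞} {S : Finset (ℕ × ℕ)} (hS : Adm S)
    (x : ℕ → ℝ≥0∞) : sS p F S x ≤ PS p F x := le_iSup₂ (f := fun S (_ : Adm S) => sS p F S x) S hS

theorem PS_le {p : ℝ} {F : (ℕ → ℝ≥0∞) → ℝ≥0∞} {x : ℕ → ℝ≥0∞} {c : ℝ≥0∞}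
    (h : ∀ S, Adm S → sS p F S x ≤ c) : PS p F x ≤ c := iSup₂_le h

/-- a family of intervals indexed by any finite set -/
theorem sum_rpow_le_PS {p : ℝ} (hp : 0 < p) {F : (ℕ → ℝ≥0∞) → ℝ≥0∞} (h0 : F (fun _ => 0) = 0)
    {ι : Type*} (s : Finset ι) (a b : ι → ℕ)
    (hd : ∀ i ∈ s, ∀ j ∈ s, i ≠ j → ∀ n, a i ≤ n → n < b i → a j ≤ n → n < b j → False)
    (x : ℕ → ℝ≥0∞) :
    (∑ i ∈ s, F (res (a i) (b i) x) ^ p) ^ (1 / p) ≤ PS p F x := by
  classical
  set s' := s.filter (fun i => a i < b i) with hs'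
  have h1 : ∑ i ∈ s, F (res (a i) (b i) x) ^ p = ∑ i ∈ s', F (res (a i) (b i) x) ^ p := by
    rw [hs']
    symm
    apply Finset.sum_subset (Finset.filter_subset _ _)
    intro i hi hi2
    have h2 : b i ≤ a i := by
      by_contra h
      exact hi2 (Finset.mem_filter.mpr ⟨hi, by omega⟩)
    rw [res_of_le h2, h0, ENNReal.zero_rpow_of_pos hp]
  have hinj : ∀ i ∈ s', ∀ j ∈ s', (a i, b i) = (a j, b j) → i = j := by
    intro i hi j hj h
    by_contra hij
    rw [hs', Finset.mem_filter] at hi hj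
    have h2 := Prod.ext_iff.mp h
    exact hd i hi.1 j hj.1 hij (a i) le_rfl hi.2 (by simp at h2; omega) (by simp at h2; omega)
  have h2 : ∑ i ∈ s', F (res (a i) (b i) x) ^ p =
      ∑ I ∈ s'.image (fun i => (a i, b i)), F (res I.1 I.2 x) ^ p := by
    rw [Finset.sum_image]
    intro i hi j hj h
    exact hinj i hi j hj h
  rw [h1, h2]
  apply sS_le_PS (S := s'.image (fun i => (a i, b i)))
  apply Adm.of_disj
  intro I hI J hJ hIJ n h3 h4 h5 h6
  rw [Finset.mem_image] at hI hJ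
  obtain ⟨i, hi, rfl⟩ := hI
  obtain ⟨j, hj, rfl⟩ := hJ
  have hij : i ≠ j := fun h => hIJ (by rw [h])
  exact hd i (Finset.mem_filter.mp hi).1 j (Finset.mem_filter.mp hj).1 hij n h3 h4 h5 h6

theorem sS_mono {p : ℝ} (hp : 0 < p) {F G : (ℕ → ℝ≥0∞) → ℝ≥0∞} {x y : ℕ → ℝ≥0∞}
    {S : Finset (ℕ × ℕ)} (h : ∀ I ∈ S, F (res I.1 I.2 x) ≤ G (res I.1 I.2 y)) :
    sS p F S x ≤ sS p G S y := by
  unfold sS
  apply ENNReal.rpow_le_rpow _ (by positivity)
  apply Finset.sum_le_sum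
  intro I hI
  exact ENNReal.rpow_le_rpow (h I hI) hp.le

theorem PS_mono {p : ℝ} (hp : 0 < p) {F G : (ℕ → ℝ≥0∞) → ℝ≥0∞} {x y : ℕ → ℝ≥0∞}
    (h : ∀ a b, F (res a b x) ≤ G (res a b y)) : PS p F x ≤ PS p G y := by
  apply PS_le
  intro S hS
  exact (sS_mono hp (fun I _ => h I.1 I.2)).trans (sS_le_PS hS y)

theorem sum_rpow_le_rpow_sum {ι : Type*} (s : Finset ι) (f : ι → ℝ≥0∞) {p : ℝ} (hp : 1 ≤ p) :
    ∑ i ∈ s, f i ^ p ≤ (∑ i ∈ s, f i) ^ p := by
  classical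
  induction s using Finset.induction_on with
  | empty => simp
  | insert a s ha ih =>
    rw [Finset.sum_insert ha, Finset.sum_insert ha]
    calc f a ^ p + ∑ i ∈ s, f i ^ p ≤ f a ^ p + (∑ i ∈ s, f i) ^ p := by gcongr
      _ ≤ _ := ENNReal.add_rpow_le_rpow_add _ _ hp

/-- `l_p`-sums decrease in `p` -/
theorem lp_anti {ι : Type*} (s : Finset ι) (f : ι → ℝ≥0∞) {p q : ℝ} (hp : 0 < p) (hpq : p ≤ q) :
    (∑ i ∈ s, f i ^ q) ^ (1 / q) ≤ (∑ i ∈ s, f i ^ p) ^ (1 / p) := by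
  have hq : 0 < q := hp.trans_le hpq
  have h1 : ∑ i ∈ s, f i ^ q ≤ (∑ i ∈ s, f i ^ p) ^ (q / p) := by
    have h2 := sum_rpow_le_rpow_sum s (fun i => f i ^ p) (p := q / p)
      (by rwa [le_div_iff₀ hp, one_mul])
    have h3 : ∀ i, (f i ^ p) ^ (q / p) = f i ^ q := by
      intro i
      rw [← ENNReal.rpow_mul, mul_div_cancel₀ _ hp.ne']
    simpa only [h3] using h2
  calc (∑ i ∈ s, f i ^ q) ^ (1 / q) ≤ ((∑ i ∈ s, f i ^ p) ^ (q / p)) ^ (1 / q) :=
        ENNReal.rpow_le_rpow h1 (by positivity)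
    _ = _ := by
        rw [← ENNReal.rpow_mul]
        congr 1
        field_simp

theorem lp_le_sum {ι : Type*} (s : Finset ι) (f : ι → ℝ≥0∞) {q : ℝ} (hq : 1 ≤ q) :
    (∑ i ∈ s, f i ^ q) ^ (1 / q) ≤ ∑ i ∈ s, f i := by
  have := lp_anti s f one_pos hq
  simpa using this

/-- sums over disjoint intervals -/
theorem sum_tsum_res_le (S : Finset (ℕ × ℕ)) (hS : Adm S) (x : ℕ → ℝ≥0∞) :
    ∑ I ∈ S, ∑' i, res I.1 I.2 x i ≤ ∑' i, x i := by
  rw [← Summable.tsum_finsetSum (fun _ _ => ENNReal.summable)]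
  apply ENNReal.tsum_le_tsum
  intro i
  by_cases h : ∃ I ∈ S, I.1 ≤ i ∧ i < I.2
  · obtain ⟨I, hI, h1, h2⟩ := h
    rw [Finset.sum_eq_single I]
    · exact res_le _ _ _ _
    · intro J hJ hJI
      rw [res_apply, if_neg]
      rintro ⟨h3, h4⟩
      exact hS.disj hJ hI hJI i h3 h4 h1 h2
    · intro h; exact absurd hI h
  · push Not at h
    rw [Finset.sum_eq_zero]
    · exact bot_le
    · intro I hI
      rw [res_apply, if_neg]
      rintro ⟨h3, h4⟩
      have := h I hI h3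
      omega

theorem PS_le_tsum {p : ℝ} (hp : 1 ≤ p) {F : (ℕ → ℝ≥0∞) → ℝ≥0∞} (hF : Nrm F)
    (x : ℕ → ℝ≥0∞) : PS p F x ≤ ∑' i, x i := by
  apply PS_le
  intro S hS
  calc sS p F S x ≤ ∑ I ∈ S, F (res I.1 I.2 x) := lp_le_sum S _ hp
    _ ≤ ∑ I ∈ S, ∑' i, res I.1 I.2 x i := Finset.sum_le_sum (fun I _ => hF.sum _)
    _ ≤ _ := sum_tsum_res_le S hS x

theorem PS_smul {p : ℝ} (hp : 0 < p) {F : (ℕ → ℝ≥0∞) → ℝ≥0∞} (hF : Nrm F) (c : ℝ≥0∞)
    (x : ℕ → ℝ≥0∞) : PS p F (fun i => c * x i) = c * PS p F x := by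
  unfold PS
  simp only [ENNReal.mul_iSup]
  congr 1; ext S; congr 1; ext hS
  unfold sS
  simp only [res_smul, hF.smul, ENNReal.mul_rpow_of_nonneg _ _ hp.le]
  rw [← Finset.mul_sum, ENNReal.mul_rpow_of_nonneg _ _ (by positivity), ← ENNReal.rpow_mul,
    mul_one_div_cancel hp.ne', ENNReal.rpow_one]

theorem PS_add {p : ℝ} (hp : 1 ≤ p) {F : (ℕ → ℝ≥0∞) → ℝ≥0∞} (hF : Nrm F) (x y : ℕ → ℝ≥0∞) :
    PS p F (fun i => x i + y i) ≤ PS p F x + PS p F y := by
  apply PS_le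
  intro S hS
  calc sS p F S (fun i => x i + y i) ≤
        (∑ I ∈ S, (F (res I.1 I.2 x) + F (res I.1 I.2 y)) ^ p) ^ (1 / p) := by
        unfold sS
        apply ENNReal.rpow_le_rpow _ (by positivity)
        apply Finset.sum_le_sum
        intro I hI
        apply ENNReal.rpow_le_rpow _ (by positivity)
        rw [res_add]
        exact hF.add _ _
    _ ≤ sS p F S x + sS p F S y := ENNReal.Lp_add_le _ _ _ hp
    _ ≤ _ := add_le_add (sS_le_PS hS x) (sS_le_PS hS y)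

/-- one more operation -/
theorem Nrm.max_PS {F : (ℕ → ℝ≥0∞) → ℝ≥0∞} (hF : Nrm F) {p : ℝ} (hp : 1 ≤ p) {m : ℝ≥0∞}
    (hm : 1 ≤ m) : Nrm (fun x => max (F x) (m⁻¹ * PS p F x)) where
  mono := fun {x y} h => max_le_max (hF.mono h) (by
    gcongr
    exact PS_mono (by linarith) (fun a b => hF.mono (res_mono h a b)))
  smul := fun c x => by
    beta_reduce
    rw [hF.smul, PS_smul (by linarith) hF]
    have h1 : m⁻¹ * (c * PS p F x) = c * (m⁻¹ * PS p F x) := by ring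
    rw [h1]
    exact (mul_max_of_nonneg _ _ bot_le).symm
  add := fun x y => by
    apply max_le
    · exact (hF.add x y).trans (add_le_add (le_max_left _ _) (le_max_left _ _))
    · calc m⁻¹ * PS p F (fun i => x i + y i) ≤ m⁻¹ * (PS p F x + PS p F y) := by
            gcongr; exact PS_add hp hF x y
        _ = m⁻¹ * PS p F x + m⁻¹ * PS p F y := mul_add _ _ _
        _ ≤ _ := add_le_add (le_max_right _ _) (le_max_right _ _)
  sup := fun x i => (hF.sup x i).trans (le_max_left _ _)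
  sum := fun x => by
    apply max_le (hF.sum x)
    calc m⁻¹ * PS p F x ≤ 1 * ∑' i, x i := by
          gcongr
          · exact ENNReal.inv_le_one.mpr hm
          · exact PS_le_tsum hp hF x
      _ = _ := one_mul _

theorem Par.one_le {m : ℕ → ℝ≥0∞} {p : ℕ → ℝ} (h : Par m p) (j : ℕ) : 1 ≤ m j :=
  (show (1 : ℝ≥0∞) ≤ 12 by norm_num).trans (h.twelve.trans (h.mono (Nat.zero_le j)))

theorem Par.ne_zero {m : ℕ → ℝ≥0∞} {p : ℕ → ℝ} (h : Par m p) (j : ℕ) : m j ≠ 0 :=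
  (lt_of_lt_of_le one_pos (h.one_le j)).ne'

theorem Par.pos {m : ℕ → ℝ≥0∞} {p : ℕ → ℝ} (h : Par m p) (j : ℕ) : 0 < p j :=
  one_pos.trans (h.one_lt j)

theorem Mn_zero (m : ℕ → ℝ≥0∞) (p : ℕ → ℝ) (j : ℕ) (x : ℕ → ℝ≥0∞) : Mn m p 0 j x = ⨆ i, x i := rfl

theorem Mn_succ (m : ℕ → ℝ≥0∞) (p : ℕ → ℝ) (d j : ℕ) (x : ℕ → ℝ≥0∞) :
    Mn m p (d + 1) j x = max (Mn m p d (j + 1) x) ((m j)⁻¹ * PS (p j) (Mn m p d (j + 1)) x) := rfl

variable {m : ℕ → ℝ≥0∞} {p : ℕ → ℝ}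

theorem nrm_Mn (h : Par m p) (d : ℕ) : ∀ j, Nrm (Mn m p d j) := by
  induction d with
  | zero => intro j; exact nrm_sup
  | succ d ih => intro j; exact (ih (j + 1)).max_PS (h.one_lt j).le (h.one_le j)

theorem Mn_le_succ (h : Par m p) (d : ℕ) : ∀ j x, Mn m p d j x ≤ Mn m p (d + 1) j x := by
  induction d with
  | zero =>
    intro j x
    rw [Mn_succ]
    exact le_max_left _ _
  | succ d ih =>
    intro j x
    rw [Mn_succ, Mn_succ]
    apply max_le_max (ih _ _)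
    gcongr
    exact PS_mono (h.pos j) (fun a b => ih _ _)

theorem Mn_mono (h : Par m p) (j : ℕ) (x : ℕ → ℝ≥0∞) : Monotone (fun d => Mn m p d j x) :=
  monotone_nat_of_le_succ (fun d => Mn_le_succ h d j x)

theorem Mn_le_Mk (m : ℕ → ℝ≥0∞) (p : ℕ → ℝ) (d j : ℕ) (x : ℕ → ℝ≥0∞) :
    Mn m p d j x ≤ Mk m p j x := le_iSup (fun d => Mn m p d j x) d

theorem nrm_Mk (h : Par m p) (j : ℕ) : Nrm (Mk m p j) where
  mono := fun hxy => iSup_mono (fun d => (nrm_Mn h d j).mono hxy)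
  smul := fun c x => by
    unfold Mk
    simp only [(nrm_Mn h _ j).smul]
    exact (ENNReal.mul_iSup _ _).symm
  add := fun x y => iSup_le (fun d => ((nrm_Mn h d j).add x y).trans
    (add_le_add (Mn_le_Mk _ _ _ _ _) (Mn_le_Mk _ _ _ _ _)))
  sup := fun x i => ((nrm_Mn h 0 j).sup x i).trans (Mn_le_Mk _ _ _ _ _)
  sum := fun x => iSup_le (fun d => (nrm_Mn h d j).sum x)

theorem nrm_MM (h : Par m p) : Nrm (MM m p) := nrm_Mk h 0

/-- suprema of increasing families go through the finite sums -/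
theorem sS_iSup {p : ℝ} (hp : 0 < p) (F : ℕ → (ℕ → ℝ≥0∞) → ℝ≥0∞)
    (hF : ∀ x, Monotone (fun d => F d x)) (S : Finset (ℕ × ℕ)) (x : ℕ → ℝ≥0∞) :
    sS p (fun x => ⨆ d, F d x) S x = ⨆ d, sS p (F d) S x := by
  unfold sS
  have h1 : ∀ r : ℝ, 0 < r → ∀ f : ℕ → ℝ≥0∞, (⨆ d, f d) ^ r = ⨆ d, f d ^ r := by
    intro r hr f
    exact (ENNReal.orderIsoRpow r hr).map_iSup f
  simp only [h1 p hp]
  rw [ENNReal.finsetSum_iSup_of_monotone, h1 (1 / p) (by positivity)]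
  intro I d d' hd
  exact ENNReal.rpow_le_rpow (hF _ hd) hp.le

theorem Mk_eq (h : Par m p) (j : ℕ) (x : ℕ → ℝ≥0∞) :
    Mk m p j x = max (Mk m p (j + 1) x) ((m j)⁻¹ * PS (p j) (Mk m p (j + 1)) x) := by
  apply le_antisymm
  · unfold Mk
    apply iSup_le
    intro d
    cases d with
    | zero =>
      apply le_max_of_le_left
      exact Mn_le_Mk m p 0 (j + 1) x
    | succ d =>
      rw [Mn_succ]
      apply max_le_max (Mn_le_Mk _ _ _ _ _)
      gcongr
      exact PS_mono (h.pos j) (fun a b => Mn_le_Mk _ _ _ _ _)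
  · apply max_le
    · apply iSup_le
      intro d
      exact (le_max_left _ _).trans (Mn_le_Mk m p (d + 1) j x)
    · unfold PS
      simp only [ENNReal.mul_iSup]
      apply iSup₂_le
      intro S hS
      have h1 : sS (p j) (Mk m p (j + 1)) S x = ⨆ d, sS (p j) (Mn m p d (j + 1)) S x :=
        sS_iSup (h.pos j) (fun d => Mn m p d (j + 1)) (fun x => Mn_mono h (j + 1) x) S x
      rw [h1, ENNReal.mul_iSup]
      apply iSup_le
      intro d
      calc (m j)⁻¹ * sS (p j) (Mn m p d (j + 1)) S x ≤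
            (m j)⁻¹ * PS (p j) (Mn m p d (j + 1)) x := by
            gcongr; exact sS_le_PS hS x
        _ ≤ Mn m p (d + 1) j x := le_max_right _ _
        _ ≤ _ := Mn_le_Mk _ _ _ _ _

theorem Mk_succ_le (h : Par m p) (j : ℕ) (x : ℕ → ℝ≥0∞) : Mk m p (j + 1) x ≤ Mk m p j x := by
  rw [Mk_eq h j]; exact le_max_left _ _

theorem Mk_anti (h : Par m p) (x : ℕ → ℝ≥0∞) : Antitone (fun j => Mk m p j x) :=
  antitone_nat_of_succ_le (fun j => Mk_succ_le h j x)

theorem Mk_le_MM (h : Par m p) (j : ℕ) (x : ℕ → ℝ≥0∞) : Mk m p j x ≤ MM m p x :=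
  Mk_anti h x (Nat.zero_le j)

theorem PS_Mk_le (h : Par m p) (j : ℕ) (x : ℕ → ℝ≥0∞) :
    PS (p j) (Mk m p (j + 1)) x ≤ m j * Mk m p j x := by
  have h1 : (m j)⁻¹ * PS (p j) (Mk m p (j + 1)) x ≤ Mk m p j x := by
    rw [Mk_eq h j]; exact le_max_right _ _
  calc PS (p j) (Mk m p (j + 1)) x = m j * ((m j)⁻¹ * PS (p j) (Mk m p (j + 1)) x) := by
        rw [← mul_assoc, ENNReal.mul_inv_cancel (h.ne_zero j) (h.ne_top j), one_mul]
    _ ≤ _ := by gcongr

theorem Mn_le_sup_add (h : Par m p) (d : ℕ) : ∀ j x,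
    Mn m p d j x ≤ (⨆ i, x i) + (m j)⁻¹ * ∑' i, x i := by
  induction d with
  | zero => intro j x; exact le_self_add
  | succ d ih =>
    intro j x
    rw [Mn_succ]
    apply max_le
    · refine (ih (j + 1) x).trans ?_
      gcongr
      exact h.mono (Nat.le_succ j)
    · refine le_trans ?_ le_add_self
      gcongr
      exact PS_le_tsum (h.one_lt j).le (nrm_Mn h d (j + 1)) x

theorem Mk_le_sup_add (h : Par m p) (j : ℕ) (x : ℕ → ℝ≥0∞) :
    Mk m p j x ≤ (⨆ i, x i) + (m j)⁻¹ * ∑' i, x i := iSup_le (fun d => Mn_le_sup_add h d j x)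

/-- it is enough to look at the finite initial segments -/
theorem Mn_eq_iSup_res (h : Par m p) (d : ℕ) : ∀ j x,
    Mn m p d j x = ⨆ n, Mn m p d j (res 0 n x) := by
  induction d with
  | zero =>
    intro j x
    apply le_antisymm
    · apply iSup_le
      intro i
      refine le_trans ?_ (le_iSup _ (i + 1))
      refine le_trans ?_ (le_iSup _ i)
      rw [res_apply, if_pos ⟨Nat.zero_le _, Nat.lt_succ_self i⟩]
    · exact iSup_le (fun n => (nrm_Mn h 0 j).res_le 0 n x)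
  | succ d ih =>
    intro j x
    apply le_antisymm
    · rw [Mn_succ]
      apply max_le
      · rw [ih (j + 1) x]
        exact iSup_mono (fun n => by rw [Mn_succ]; exact le_max_left _ _)
      · unfold PS
        simp only [ENNReal.mul_iSup]
        apply iSup₂_le
        intro S hS
        set n := S.sup Prod.snd with hn
        refine le_trans ?_ (le_iSup _ n)
        rw [Mn_succ]
        refine le_trans ?_ (le_max_right _ _)
        gcongr
        refine le_trans ?_ (sS_le_PS hS _)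
        apply sS_mono (h.pos j)
        intro I hI
        have h1 : I.2 ≤ n := Finset.le_sup (f := Prod.snd) hI
        rw [res_res, max_eq_left (Nat.zero_le _), min_eq_left h1]
    · exact iSup_le (fun n => (nrm_Mn h (d + 1) j).res_le 0 n x)

theorem Mk_eq_iSup_res (h : Par m p) (j : ℕ) (x : ℕ → ℝ≥0∞) :
    Mk m p j x = ⨆ n, Mk m p j (res 0 n x) := by
  apply le_antisymm
  · apply iSup_le
    intro d
    rw [Mn_eq_iSup_res h]
    exact iSup_mono (fun n => Mn_le_Mk _ _ _ _ _)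
  · exact iSup_le (fun n => (nrm_Mk h j).res_le 0 n x)

theorem MM_eq_iSup_res (h : Par m p) (x : ℕ → ℝ≥0∞) :
    MM m p x = ⨆ n, MM m p (res 0 n x) := Mk_eq_iSup_res h 0 x

/-! ### blocks -/

theorem bl_spec {s : ℕ → ℕ} (hs : StrictMono s) (h0 : s 0 = 0) (i : ℕ) :
    s (bl s i) ≤ i ∧ i < s (bl s i + 1) := by
  constructor
  · have : s (bl s i) ≤ i := Nat.findGreatest_spec (P := fun n => s n ≤ i) (Nat.zero_le i)
      (by rw [h0]; exact Nat.zero_le i)
    exact this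
  · by_contra h
    push Not at h
    have h1 : bl s i + 1 ≤ i := (hs.id_le (bl s i + 1)).trans h
    have h2 : bl s i + 1 ≤ bl s i := Nat.le_findGreatest h1 h
    omega

theorem bl_eq {s : ℕ → ℕ} (hs : StrictMono s) {n i : ℕ} (h1 : s n ≤ i) (h2 : i < s (n + 1)) :
    bl s i = n := by
  have h3 : n ≤ bl s i := Nat.le_findGreatest ((hs.id_le n).trans h1) h1
  have h4 : s (bl s i) ≤ i := by
    have : s (Nat.findGreatest (fun n => s n ≤ i) i) ≤ i :=
      Nat.findGreatest_spec (P := fun n => s n ≤ i) ((hs.id_le n).trans h1) h1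
    exact this
  by_contra hne
  have h5 : n + 1 ≤ bl s i := by omega
  have := hs.monotone h5
  omega

theorem bl_eq_iff {s : ℕ → ℕ} (hs : StrictMono s) (h0 : s 0 = 0) (n i : ℕ) :
    bl s i = n ↔ s n ≤ i ∧ i < s (n + 1) := by
  constructor
  · rintro rfl; exact bl_spec hs h0 i
  · rintro ⟨h1, h2⟩; exact bl_eq hs h1 h2

theorem bl_comp {s t : ℕ → ℕ} (hs : StrictMono s) (hs0 : s 0 = 0) (ht : StrictMono t)
    (ht0 : t 0 = 0) (i : ℕ) : bl (fun n => s (t n)) i = bl t (bl s i) := by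
  have h1 := bl_spec hs hs0 i
  have h2 := bl_spec ht ht0 (bl s i)
  refine bl_eq (hs.comp ht) ?_ ?_
  · exact (hs.monotone h2.1).trans h1.1
  · exact h1.2.trans_le (hs.monotone h2.2)

theorem bl_mono {s : ℕ → ℕ} (hs : StrictMono s) (h0 : s 0 = 0) : Monotone (bl s) := by
  intro i j hij
  by_contra h
  push Not at h
  have h1 := bl_spec hs h0 i
  have h2 := bl_spec hs h0 j
  have h3 := hs.monotone (show bl s j + 1 ≤ bl s i from h)
  omega

end Run7.h157.G
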