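import Mathlib
import Pool.Agent.Run7.h157.G.E1
import Pool.Agent.Run7.h157.G.Iface

/-!
Upper estimate for rapidly increasing sequences.
-/

noncomputable section

namespace Run7.h157.G

open Set Filter Topology
open scoped ENNReal NNReal

theorem Nrm.finset_sum {F : (ℕ → ℝ≥0∞) → ℝ≥0∞} (hF : Nrm F) {ι : Type*} (T : Finset ι)
    (g : ι → ℕ → ℝ≥0∞) : F (fun i => ∑ n ∈ T, g n i) ≤ ∑ n ∈ T, F (g n) := by
  classical
  induction T using Finset.induction_on with
  | empty => simp [hF.zero]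
  | insert a T ha ih =>
    simp only [Finset.sum_insert ha]
    exact (hF.add _ _).trans (by gcongr)

/-- first and last block of an interval -/
theorem res_blocks {s : ℕ → ℕ} (hs : StrictMono s) (h0 : s 0 = 0) (ζ : ℕ → ℝ≥0∞) {a b u v : ℕ}
    (hu : s a ≤ u) (huv : u < v) (hv : v ≤ s b) :
    a ≤ bl s u ∧ bl s u ≤ bl s (v - 1) ∧ bl s (v - 1) < b ∧
    ∀ i, res u v ζ i ≤ (∑ n ∈ ({bl s u, bl s (v - 1)} : Finset ℕ),
      res u v (res (s n) (s (n + 1)) ζ) i) + res (s (bl s u + 1)) (s (bl s (v - 1))) ζ i := by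
  have h1 := bl_spec hs h0 u
  have h2 := bl_spec hs h0 (v - 1)
  refine ⟨?_, bl_mono hs h0 (by omega), ?_, ?_⟩
  · by_contra hlt
    have := hs.monotone (show bl s u + 1 ≤ a by omega)
    omega
  · by_contra hlt
    have := hs.monotone (show b ≤ bl s (v - 1) by omega)
    omega
  · intro i
    by_cases hi : u ≤ i ∧ i < v
    · have hres : res u v ζ i = ζ i := by rw [res_apply, if_pos hi]
      rw [hres]
      by_cases hi1 : i < s (bl s u + 1)
      · have h3 : ζ i = res u v (res (s (bl s u)) (s (bl s u + 1)) ζ) i := by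
          rw [res_apply, if_pos hi, res_apply, if_pos ⟨h1.1.trans hi.1, hi1⟩]
        refine le_trans ?_ le_self_add
        rw [h3]
        exact Finset.single_le_sum (f := fun n => res u v (res (s n) (s (n + 1)) ζ) i)
          (fun _ _ => bot_le) (Finset.mem_insert_self _ _)
      · by_cases hi2 : s (bl s (v - 1)) ≤ i
        · have h3 : ζ i = res u v (res (s (bl s (v - 1))) (s (bl s (v - 1) + 1)) ζ) i := by
            rw [res_apply, if_pos hi, res_apply, if_pos ⟨hi2, by omega⟩]
          refine le_trans ?_ le_self_add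
          rw [h3]
          exact Finset.single_le_sum (f := fun n => res u v (res (s n) (s (n + 1)) ζ) i)
            (fun _ _ => bot_le) (Finset.mem_insert_of_mem (Finset.mem_singleton_self _))
        · refine le_trans ?_ le_add_self
          rw [res_apply, if_pos (by omega)]
    · rw [res_apply, if_neg hi]
      exact bot_le

/-- the small error -/
def Ee (x : ℕ → ℝ≥0∞) (a b : ℕ) : ℝ≥0∞ := ∑ n ∈ Finset.Ico a b, 2⁻¹ ^ (n + 1) * x n

/-- the constants -/
def Dc (p : ℕ → ℝ) (C : ℝ≥0∞) (d k : ℕ) : ℝ≥0∞ :=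
  C * 6 ^ (∑ i ∈ Finset.range d, (1 - 1 / p (k + i)))

theorem Dc_succ (p : ℕ → ℝ) (C : ℝ≥0∞) (d k : ℕ) :
    Dc p C (d + 1) k = 6 ^ (1 - 1 / p k) * Dc p C d (k + 1) := by
  unfold Dc
  rw [Finset.sum_range_succ', ENNReal.rpow_add _ _ (by norm_num) (by norm_num)]
  have h1 : ∀ i, k + (i + 1) = k + 1 + i := fun i => by omega
  have h2 : ∑ i ∈ Finset.range d, (1 - 1 / p (k + (i + 1))) =
      ∑ i ∈ Finset.range d, (1 - 1 / p (k + 1 + i)) :=
    Finset.sum_congr rfl (fun i _ => by rw [h1])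
  rw [h2, add_zero]
  ring

variable {m : ℕ → ℝ≥0∞} {p : ℕ → ℝ}

theorem alpha_nonneg (h : Par m p) (k : ℕ) : 0 ≤ 1 - 1 / p k := by
  have h1 := h.one_lt k
  have : 1 / p k ≤ 1 := by rw [div_le_one (h.pos k)]; exact h1.le
  linarith

theorem le_Dc (h : Par m p) (C : ℝ≥0∞) (d k : ℕ) : C ≤ Dc p C d k := by
  unfold Dc
  have h1 : (1 : ℝ≥0∞) ≤ 6 ^ (∑ i ∈ Finset.range d, (1 - 1 / p (k + i))) := by
    rw [← ENNReal.one_rpow (∑ i ∈ Finset.range d, (1 - 1 / p (k + i)))]
    exact ENNReal.rpow_le_rpow (by norm_num)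
      (Finset.sum_nonneg (fun i _ => alpha_nonneg h (k + i)))
  calc C = C * 1 := (mul_one C).symm
    _ ≤ _ := by gcongr

theorem Dc_le_succ (h : Par m p) (C : ℝ≥0∞) (d k : ℕ) : Dc p C d (k + 1) ≤ Dc p C (d + 1) k := by
  rw [Dc_succ]
  have h1 : (1 : ℝ≥0∞) ≤ 6 ^ (1 - 1 / p k) := by
    rw [← ENNReal.one_rpow (1 - 1 / p k)]
    exact ENNReal.rpow_le_rpow (by norm_num) (alpha_nonneg h k)
  calc Dc p C d (k + 1) = 1 * Dc p C d (k + 1) := (one_mul _).symm
    _ ≤ _ := by gcongr

theorem pow_three {p : ℝ} (hp : 1 ≤ p) (a b c : ℝ≥0∞) :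
    (a + b + c) ^ p ≤ 3 ^ (p - 1) * (a ^ p + b ^ p + c ^ p) := by
  have := ENNReal.rpow_sum_le_const_mul_sum_rpow (Finset.univ : Finset (Fin 3)) ![a, b, c] hp
  simpa [Fin.sum_univ_three] using this

theorem pow_finset {p : ℝ} (hp : 1 ≤ p) {ι : Type*} (T : Finset ι) (hT : T.card ≤ 2)
    (f : ι → ℝ≥0∞) : (∑ n ∈ T, f n) ^ p ≤ 2 ^ (p - 1) * ∑ n ∈ T, f n ^ p := by
  refine (ENNReal.rpow_sum_le_const_mul_sum_rpow T f hp).trans ?_
  have h1 : (T.card : ℝ≥0∞) ≤ 2 := by exact_mod_cast hT
  have h2 : 0 ≤ p - 1 := by linarith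
  gcongr

/-- the claim of the induction -/
def Clm (m : ℕ → ℝ≥0∞) (p : ℕ → ℝ) (s : ℕ → ℕ) (ζ x : ℕ → ℝ≥0∞) (C : ℝ≥0∞) (d k : ℕ) : Prop :=
  ∀ a b, ∃ τ ρ, a ≤ τ ∧ τ ≤ ρ ∧ (ρ ≤ a ∨ ρ ≤ b) ∧
    Mn m p d k (res (s a) (s b) ζ) ≤
      Ee x a b + Mn m p d k (res τ ρ x) + Dc p C d k * Mn m p d k (res ρ b x)

/-- the pieces beyond the special index -/
theorem ris_step (h : Par m p) {s : ℕ → ℕ} {ζ x : ℕ → ℝ≥0∞} {C : ℝ≥0∞} (hs : StrictMono s)
    (h0 : s 0 = 0) (hC : 1 ≤ C) {d k : ℕ} (ih : Clm m p s ζ x C d (k + 1)) {a b : ℕ}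
    (H2 : ∀ n, a ≤ n → n < b → PS (p k) (MM m p) (res (s n) (s (n + 1)) ζ) ≤ C * x n) :
    (m k)⁻¹ * PS (p k) (Mn m p d (k + 1)) (res (s a) (s b) ζ) ≤
      Ee x a b + Dc p C (d + 1) k * Mn m p (d + 1) k (res a b x) := by
  classical
  set F := Mn m p d (k + 1) with hF
  have hFN : Nrm F := nrm_Mn h d (k + 1)
  have hFM : ∀ y, F y ≤ MM m p y := fun y => (Mn_le_Mk _ _ _ _ _).trans (Mk_le_MM h _ _)
  set q := p k with hq
  have hq1 : 1 ≤ q := (h.one_lt k).le
  have hq0 : 0 < q := h.pos k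
  set D' := Dc p C d (k + 1) with hD'
  have hCD : C ≤ D' := le_Dc h C d (k + 1)
  -- the main estimate for one family
  have main : ∀ S : Finset (ℕ × ℕ), Adm S → sS q F S (res (s a) (s b) ζ) ≤
      Ee x a b + 6 ^ (1 - 1 / q) * D' * PS q F (res a b x) := by
    intro S hS
    -- first and last blocks
    set u : ℕ × ℕ → ℕ := fun I => max I.1 (s a) with hu
    set v : ℕ × ℕ → ℕ := fun I => min I.2 (s b) with hv
    set l : ℕ × ℕ → ℕ := fun I => bl s (u I) with hl
    set r : ℕ × ℕ → ℕ := fun I => bl s (v I - 1) with hr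
    set S' := S.filter (fun I => u I < v I) with hS'
    have hS'S : S' ⊆ S := Finset.filter_subset _ _
    choose τ ρ hτ1 hτ2 hρ hτρ using fun I : ℕ × ℕ => ih (l I + 1) (r I)
    have hblk : ∀ I ∈ S', a ≤ l I ∧ l I ≤ r I ∧ r I < b ∧
        F (res I.1 I.2 (res (s a) (s b) ζ)) ≤
          (∑ n ∈ ({l I, r I} : Finset ℕ), MM m p (res I.1 I.2 (res (s n) (s (n + 1)) ζ))) +
            F (res (s (l I + 1)) (s (r I)) ζ) := by
      intro I hI
      have huv : u I < v I := (Finset.mem_filter.mp hI).2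
      obtain ⟨h1, h2, h3, h4⟩ := res_blocks hs h0 ζ (le_max_right _ _ : s a ≤ u I) huv
        (min_le_right _ _ : v I ≤ s b)
      refine ⟨h1, h2, h3, ?_⟩
      rw [res_res]
      calc F (res (u I) (v I) ζ) ≤ F (fun i => (∑ n ∈ ({l I, r I} : Finset ℕ),
            res (u I) (v I) (res (s n) (s (n + 1)) ζ) i) +
            res (s (l I + 1)) (s (r I)) ζ i) := hFN.mono h4
        _ ≤ F (fun i => (∑ n ∈ ({l I, r I} : Finset ℕ),
            res (u I) (v I) (res (s n) (s (n + 1)) ζ) i)) +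
            F (res (s (l I + 1)) (s (r I)) ζ) := hFN.add _ _
        _ ≤ _ := by
            gcongr
            refine (hFN.finset_sum _ _).trans ?_
            apply Finset.sum_le_sum
            intro n _
            refine (hFM _).trans ((nrm_MM h).mono ?_)
            intro i
            exact res_mono' (le_max_left _ _) (min_le_left _ _) _ i
    -- order of the pieces
    have hord : ∀ I ∈ S', ∀ J ∈ S', I ≠ J → r I ≤ l J ∨ r J ≤ l I := by
      intro I hI J hJ hIJ
      have hI2 := (Finset.mem_filter.mp hI).2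
      have hJ2 := (Finset.mem_filter.mp hJ).2
      have hd := hS.disj (hS'S hI) (hS'S hJ) hIJ
      simp only [hu, hv] at hI2 hJ2
      rcases le_or_gt I.2 J.1 with hc | hc
      · left
        apply bl_mono hs h0
        simp only [hu, hv]
        omega
      · right
        apply bl_mono hs h0
        simp only [hu, hv]
        by_contra hlt
        exact hd (max I.1 J.1) (le_max_left _ _) (by omega) (le_max_right _ _) (by omega)
    set A : ℕ × ℕ → ℝ≥0∞ := fun I =>
      ∑ n ∈ ({l I, r I} : Finset ℕ), MM m p (res I.1 I.2 (res (s n) (s (n + 1)) ζ)) with hA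
    set e : ℕ × ℕ → ℝ≥0∞ := fun I => Ee x (l I + 1) (r I) with he
    set G : ℕ × ℕ → ℝ≥0∞ := fun I => F (res (τ I) (ρ I) x) with hG
    set H : ℕ × ℕ → ℝ≥0∞ := fun I => F (res (ρ I) (r I) x) with hH
    have hY : ∀ I ∈ S', F (res I.1 I.2 (res (s a) (s b) ζ)) ≤ e I + (A I + G I + D' * H I) := by
      intro I hI
      refine (hblk I hI).2.2.2.trans ?_
      calc A I + F (res (s (l I + 1)) (s (r I)) ζ) ≤ A I + (e I + G I + D' * H I) := by
            gcongr
            exact hτρ I
        _ = _ := by ring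
    -- the errors
    have hE : ∑ I ∈ S', e I ≤ Ee x a b := by
      simp only [he, Ee]
      rw [← Finset.sum_biUnion]
      · apply Finset.sum_le_sum_of_subset
        intro n hn
        rw [Finset.mem_biUnion] at hn
        obtain ⟨I, hI, hn⟩ := hn
        obtain ⟨h1, h2, h3, _⟩ := hblk I hI
        rw [Finset.mem_Ico] at hn ⊢
        omega
      · intro I hI J hJ hIJ
        rw [Function.onFun, Finset.disjoint_left]
        intro n h1 h2
        rw [Finset.mem_Ico] at h1 h2
        rcases hord I hI J hJ hIJ with h3 | h3 <;> omega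
    -- the boundary blocks
    set NS : Finset ℕ := S'.biUnion (fun I => {l I, r I}) with hNS
    have hNSab : ∀ n ∈ NS, a ≤ n ∧ n < b := by
      intro n hn
      rw [hNS, Finset.mem_biUnion] at hn
      obtain ⟨I, hI, hn⟩ := hn
      obtain ⟨h1, h2, h3, _⟩ := hblk I hI
      rw [Finset.mem_insert, Finset.mem_singleton] at hn
      omega
    have hAsum : ∑ I ∈ S', A I ^ q ≤ 2 ^ (q - 1) * (D' ^ q * ∑ n ∈ NS, F (res n (n + 1) x) ^ q) := by
      calc ∑ I ∈ S', A I ^ q ≤ ∑ I ∈ S', 2 ^ (q - 1) * ∑ n ∈ ({l I, r I} : Finset ℕ),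
            MM m p (res I.1 I.2 (res (s n) (s (n + 1)) ζ)) ^ q :=
            Finset.sum_le_sum (fun I _ => pow_finset hq1 _ Finset.card_le_two _)
        _ ≤ ∑ I ∈ S', 2 ^ (q - 1) * ∑ n ∈ NS,
            MM m p (res I.1 I.2 (res (s n) (s (n + 1)) ζ)) ^ q := by
            apply Finset.sum_le_sum
            intro I hI
            gcongr
            intro n hn
            rw [hNS, Finset.mem_biUnion]
            exact ⟨I, hI, hn⟩
        _ = 2 ^ (q - 1) * ∑ n ∈ NS, ∑ I ∈ S',
            MM m p (res I.1 I.2 (res (s n) (s (n + 1)) ζ)) ^ q := by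
            rw [← Finset.mul_sum, Finset.sum_comm]
        _ ≤ 2 ^ (q - 1) * ∑ n ∈ NS, (D' * F (res n (n + 1) x)) ^ q := by
            gcongr with n hn
            obtain ⟨h1, h2⟩ := hNSab n hn
            have h3 : sS q (MM m p) S' (res (s n) (s (n + 1)) ζ) ≤ D' * F (res n (n + 1) x) := by
              refine (sS_le_PS (hS.subset hS'S) _).trans ((H2 n h1 h2).trans ?_)
              gcongr
              refine le_trans ?_ (hFN.sup _ n)
              rw [res_apply, if_pos ⟨le_rfl, Nat.lt_succ_self n⟩]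
            unfold sS at h3
            have h4 := ENNReal.rpow_le_rpow h3 hq0.le
            rwa [← ENNReal.rpow_mul, one_div_mul_cancel hq0.ne', ENNReal.rpow_one] at h4
        _ = _ := by
            congr 1
            rw [Finset.mul_sum]
            exact Finset.sum_congr rfl (fun n _ => ENNReal.mul_rpow_of_nonneg _ _ hq0.le)
    have hNSI : ∀ n ∈ NS, ∀ I ∈ S', l I + 1 ≤ n → n < r I → False := by
      intro n hn I hI h1 h2
      rw [hNS, Finset.mem_biUnion] at hn
      obtain ⟨J, hJ, hn⟩ := hn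
      rw [Finset.mem_insert, Finset.mem_singleton] at hn
      have h3 := (hblk J hJ).2.1
      by_cases hIJ : I = J
      · subst hIJ; omega
      · rcases hord I hI J hJ hIJ with h4 | h4 <;> omega
    have hint1 : ∀ I n, τ I ≤ n → n < ρ I → l I + 1 ≤ n ∧ n < r I := by
      intro I n h1 h2
      have h3 := hτ1 I
      have h4 := hρ I
      omega
    have hint2 : ∀ I n, ρ I ≤ n → n < r I → l I + 1 ≤ n := by
      intro I n h1 h2
      have h3 := hτ1 I
      have h4 := hτ2 I
      omega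
    -- all together in one family
    have hfam : ∑ n ∈ NS, F (res n (n + 1) x) ^ q + (∑ I ∈ S', G I ^ q + ∑ I ∈ S', H I ^ q) ≤
        PS q F (res a b x) ^ q := by
      have h1 := sum_rpow_le_PS hq0 hFN.zero (NS.disjSum (S'.disjSum S'))
        (Sum.elim (fun n => n) (Sum.elim τ ρ)) (Sum.elim (fun n => n + 1) (Sum.elim ρ r)) ?_
        (res a b x)
      · have h2 := ENNReal.rpow_le_rpow h1 hq0.le
        rw [← ENNReal.rpow_mul, one_div_mul_cancel hq0.ne', ENNReal.rpow_one,
          Finset.sum_disjSum, Finset.sum_disjSum] at h2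
        refine le_trans (le_of_eq ?_) h2
        congr 1
        · apply Finset.sum_congr rfl
          intro n hn
          obtain ⟨h3, h4⟩ := hNSab n hn
          simp only [Sum.elim_inl]
          rw [res_res, max_eq_left h3, min_eq_left (by omega)]
        · congr 1
          · apply Finset.sum_congr rfl
            intro I hI
            obtain ⟨h3, h4, h5, _⟩ := hblk I hI
            simp only [Sum.elim_inl, Sum.elim_inr, hG]
            have h6 := hτ1 I
            have h7 := hτ2 I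
            have h8 := hρ I
            by_cases h9 : ρ I ≤ b
            · rw [res_res, max_eq_left (by omega), min_eq_left h9]
            · have h10 : ρ I ≤ τ I := by omega
              rw [hFN.res_of_le h10, hFN.res_of_le h10]
          · apply Finset.sum_congr rfl
            intro I hI
            obtain ⟨h3, h4, h5, _⟩ := hblk I hI
            simp only [Sum.elim_inr, hH]
            have h6 := hτ1 I
            have h7 := hτ2 I
            rw [res_res, max_eq_left (by omega), min_eq_left (by omega)]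
      · intro i hi j hj hij n h2 h3 h4 h5
        rcases i with i | i | i <;> rcases j with j | j | j <;>
          simp only [Sum.elim_inl, Sum.elim_inr] at h2 h3 h4 h5 <;>
          simp only [Finset.inl_mem_disjSum, Finset.inr_mem_disjSum] at hi hj
        · apply hij; congr 1; omega
        · have h6 := hint1 j n h4 h5
          have h7 : n = i := by omega
          exact hNSI n (h7 ▸ hi) j hj h6.1 h6.2
        · have h6 := hint2 j n h4 h5
          have h7 : n = i := by omega
          exact hNSI n (h7 ▸ hi) j hj h6 h5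
        · have h6 := hint1 i n h2 h3
          have h7 : n = j := by omega
          exact hNSI n (h7 ▸ hj) i hi h6.1 h6.2
        · have h6 := hint1 j n h4 h5
          have h7 := hint1 i n h2 h3
          have h8 : i ≠ j := fun h => hij (by rw [h])
          rcases hord i hi j hj h8 with h9 | h9 <;> omega
        · have h6 := hint2 j n h4 h5
          have h7 := hint1 i n h2 h3
          by_cases h8 : i = j
          · subst h8; omega
          · rcases hord i hi j hj h8 with h9 | h9 <;> omega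
        · have h6 := hint2 i n h2 h3
          have h7 : n = j := by omega
          exact hNSI n (h7 ▸ hj) i hi h6 h3
        · have h6 := hint2 i n h2 h3
          have h7 := hint1 j n h4 h5
          by_cases h8 : i = j
          · subst h8; omega
          · rcases hord i hi j hj h8 with h9 | h9 <;> omega
        · have h6 := hint2 j n h4 h5
          have h7 := hint2 i n h2 h3
          have h8 : i ≠ j := fun h => hij (by rw [h])
          rcases hord i hi j hj h8 with h9 | h9 <;> omega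
    have hW : ∑ I ∈ S', (A I + G I + D' * H I) ^ q ≤
        6 ^ (q - 1) * D' ^ q * PS q F (res a b x) ^ q := by
      have hD1 : 1 ≤ D' := hC.trans hCD
      have hDq : 1 ≤ D' ^ q := by
        rw [← ENNReal.one_rpow q]; exact ENNReal.rpow_le_rpow hD1 hq0.le
      have h2q : (1 : ℝ≥0∞) ≤ 2 ^ (q - 1) := by
        rw [← ENNReal.one_rpow (q - 1)]
        exact ENNReal.rpow_le_rpow (by norm_num) (by linarith)
      have h6q : (6 : ℝ≥0∞) ^ (q - 1) = 3 ^ (q - 1) * 2 ^ (q - 1) := by
        rw [← ENNReal.mul_rpow_of_nonneg _ _ (by linarith)]; norm_num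
      calc ∑ I ∈ S', (A I + G I + D' * H I) ^ q
          ≤ ∑ I ∈ S', 3 ^ (q - 1) * (A I ^ q + G I ^ q + (D' * H I) ^ q) :=
            Finset.sum_le_sum (fun I _ => pow_three hq1 _ _ _)
        _ = 3 ^ (q - 1) * (∑ I ∈ S', A I ^ q + ∑ I ∈ S', G I ^ q + D' ^ q * ∑ I ∈ S', H I ^ q) := by
            rw [← Finset.mul_sum, Finset.sum_add_distrib, Finset.sum_add_distrib]
            simp only [ENNReal.mul_rpow_of_nonneg _ _ hq0.le, ← Finset.mul_sum]
        _ ≤ 3 ^ (q - 1) * (2 ^ (q - 1) * (D' ^ q * ∑ n ∈ NS, F (res n (n + 1) x) ^ q) +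
              2 ^ (q - 1) * (D' ^ q * ∑ I ∈ S', G I ^ q) +
              2 ^ (q - 1) * (D' ^ q * ∑ I ∈ S', H I ^ q)) := by
            have e1 : ∑ I ∈ S', G I ^ q ≤ 2 ^ (q - 1) * (D' ^ q * ∑ I ∈ S', G I ^ q) := by
              calc ∑ I ∈ S', G I ^ q = 1 * (1 * ∑ I ∈ S', G I ^ q) := by ring
                _ ≤ _ := by gcongr
            have e2 : D' ^ q * ∑ I ∈ S', H I ^ q ≤
                2 ^ (q - 1) * (D' ^ q * ∑ I ∈ S', H I ^ q) := by
              calc D' ^ q * ∑ I ∈ S', H I ^ q = 1 * (D' ^ q * ∑ I ∈ S', H I ^ q) := by ring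
                _ ≤ _ := by gcongr
            have e3 := add_le_add (add_le_add hAsum e1) e2
            gcongr
        _ = 6 ^ (q - 1) * D' ^ q * (∑ n ∈ NS, F (res n (n + 1) x) ^ q +
              (∑ I ∈ S', G I ^ q + ∑ I ∈ S', H I ^ q)) := by
            rw [h6q]; ring
        _ ≤ _ := by gcongr
    have h1 : sS q F S (res (s a) (s b) ζ) =
        (∑ I ∈ S', F (res I.1 I.2 (res (s a) (s b) ζ)) ^ q) ^ (1 / q) := by
      unfold sS
      congr 1
      symm
      apply Finset.sum_subset hS'S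
      intro I hI hI2
      have h2 : v I ≤ u I := by
        by_contra hlt
        exact hI2 (Finset.mem_filter.mpr ⟨hI, by omega⟩)
      rw [res_res, hFN.res_of_le h2, ENNReal.zero_rpow_of_pos hq0]
    rw [h1]
    calc (∑ I ∈ S', F (res I.1 I.2 (res (s a) (s b) ζ)) ^ q) ^ (1 / q)
        ≤ (∑ I ∈ S', (e I + (A I + G I + D' * H I)) ^ q) ^ (1 / q) := by
          apply ENNReal.rpow_le_rpow _ (by positivity)
          apply Finset.sum_le_sum
          intro I hI
          exact ENNReal.rpow_le_rpow (hY I hI) hq0.le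
      _ ≤ (∑ I ∈ S', e I ^ q) ^ (1 / q) + (∑ I ∈ S', (A I + G I + D' * H I) ^ q) ^ (1 / q) :=
          ENNReal.Lp_add_le _ _ _ hq1
      _ ≤ Ee x a b + (6 ^ (q - 1) * D' ^ q * PS q F (res a b x) ^ q) ^ (1 / q) := by
          gcongr
          exact (lp_le_sum _ _ hq1).trans hE
      _ = _ := by
          congr 1
          rw [ENNReal.mul_rpow_of_nonneg _ _ (by positivity),
            ENNReal.mul_rpow_of_nonneg _ _ (by positivity), ← ENNReal.rpow_mul,
            ← ENNReal.rpow_mul, ← ENNReal.rpow_mul, mul_one_div_cancel hq0.ne', ENNReal.rpow_one,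
            ENNReal.rpow_one]
          congr 3
          field_simp
  have h2 : PS q F (res (s a) (s b) ζ) ≤ Ee x a b + 6 ^ (1 - 1 / q) * D' * PS q F (res a b x) :=
    PS_le main
  calc (m k)⁻¹ * PS q F (res (s a) (s b) ζ)
      ≤ (m k)⁻¹ * (Ee x a b + 6 ^ (1 - 1 / q) * D' * PS q F (res a b x)) := by gcongr
    _ = (m k)⁻¹ * Ee x a b + (6 ^ (1 - 1 / q) * D') * ((m k)⁻¹ * PS q F (res a b x)) := by ring
    _ ≤ 1 * Ee x a b + Dc p C (d + 1) k * Mn m p (d + 1) k (res a b x) := by
        have h3 : (m k)⁻¹ ≤ 1 := ENNReal.inv_le_one.mpr (h.one_le k)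
        have h4 : (m k)⁻¹ * PS q F (res a b x) ≤ Mn m p (d + 1) k (res a b x) := by
          rw [Mn_succ]; exact le_max_right _ _
        rw [Dc_succ]
        gcongr
    _ = _ := by rw [one_mul]


theorem Ee_split {x : ℕ → ℝ≥0∞} {a c b : ℕ} (h1 : a ≤ c) (h2 : c + 1 ≤ b) :
    Ee x a c + Ee x (c + 1) b ≤ Ee x a b := by
  unfold Ee
  rw [← Finset.sum_Ico_consecutive _ h1 (show c ≤ b by omega)]
  gcongr
  exact Nat.le_succ c

theorem tsum_res_blocks {s : ℕ → ℕ} (hs : StrictMono s) (ζ : ℕ → ℝ≥0∞) (a b : ℕ) :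
    ∑' i, res (s a) (s b) ζ i = ∑ n ∈ Finset.Ico a b, ∑' i, res (s n) (s (n + 1)) ζ i := by
  rcases le_or_gt b a with hab | hab
  · rw [res_of_le (hs.monotone hab), Finset.Ico_eq_empty (by omega)]
    simp
  · obtain ⟨c, rfl⟩ := Nat.exists_eq_add_of_lt hab
    induction c with
    | zero => simp
    | succ c ih =>
      have h1 : s a ≤ s (a + c + 1) := hs.monotone (by omega)
      have h2 : s (a + c + 1) ≤ s (a + c + 1 + 1) := hs.monotone (by omega)
      have h3 : a + (c + 1) + 1 = a + c + 1 + 1 := by omega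
      rw [h3, res_split h1 h2, ENNReal.tsum_add, ih (by omega),
        Finset.sum_Ico_succ_top (show a ≤ a + c + 1 by omega)]

theorem clm (h : Par m p) {s j : ℕ → ℕ} {ζ x : ℕ → ℝ≥0∞} {C : ℝ≥0∞} (hs : StrictMono s)
    (h0 : s 0 = 0) (hj : StrictMono j) (hC : 1 ≤ C)
    (H1 : ∀ n, MM m p (res (s n) (s (n + 1)) ζ) ≤ x n)
    (H2 : ∀ n k, k < j n → PS (p k) (MM m p) (res (s n) (s (n + 1)) ζ) ≤ C * x n)
    (H3 : ∀ n, ∑' i, res (s n) (s (n + 1)) ζ i ≤ 2⁻¹ ^ (n + 1) * m (j (n + 1)) * x n) (d : ℕ) :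
    ∀ k, Clm m p s ζ x C d k := by
  induction d with
  | zero =>
    intro k a b
    refine ⟨a, a, le_rfl, le_rfl, Or.inl le_rfl, ?_⟩
    refine le_trans ?_ le_add_self
    rw [Mn_zero]
    apply iSup_le
    intro i
    rw [res_apply]
    split_ifs with hi
    · have h1 := bl_spec hs h0 i
      have h2 : a ≤ bl s i := by
        by_contra hlt
        have := hs.monotone (show bl s i + 1 ≤ a by omega)
        omega
      have h3 : bl s i < b := by
        by_contra hlt
        have := hs.monotone (show b ≤ bl s i by omega)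
        omega
      calc ζ i = res (s (bl s i)) (s (bl s i + 1)) ζ i := by rw [res_apply, if_pos h1]
        _ ≤ MM m p (res (s (bl s i)) (s (bl s i + 1)) ζ) := (nrm_MM h).sup _ _
        _ ≤ x (bl s i) := H1 _
        _ = res a b x (bl s i) := by rw [res_apply, if_pos ⟨h2, h3⟩]
        _ ≤ Mn m p 0 k (res a b x) := (nrm_Mn h 0 k).sup _ _
        _ = 1 * Mn m p 0 k (res a b x) := (one_mul _).symm
        _ ≤ _ := by gcongr; exact hC.trans (le_Dc h C 0 k)
    · exact bot_le
  | succ d ih =>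
    intro k a b
    rcases le_or_gt b a with hab | hab
    · refine ⟨a, a, le_rfl, le_rfl, Or.inl le_rfl, ?_⟩
      rw [(nrm_Mn h (d + 1) k).res_of_le (hs.monotone hab)]
      exact bot_le
    -- the two candidates
    obtain ⟨τ1, ρ1, ha1, ha2, ha3, hA⟩ := ih (k + 1) a b
    have hA' : Mn m p d (k + 1) (res (s a) (s b) ζ) ≤ Ee x a b + Mn m p (d + 1) k (res τ1 ρ1 x) +
        Dc p C (d + 1) k * Mn m p (d + 1) k (res ρ1 b x) := by
      refine hA.trans ?_
      have h1 : ∀ y, Mn m p d (k + 1) y ≤ Mn m p (d + 1) k y := fun y => by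
        rw [Mn_succ]; exact le_max_left _ _
      gcongr
      · exact h1 _
      · exact Dc_le_succ h C d k
      · exact h1 _
    have hB' : ∃ τ ρ, a ≤ τ ∧ τ ≤ ρ ∧ (ρ ≤ a ∨ ρ ≤ b) ∧
        (m k)⁻¹ * PS (p k) (Mn m p d (k + 1)) (res (s a) (s b) ζ) ≤
          Ee x a b + Mn m p (d + 1) k (res τ ρ x) +
            Dc p C (d + 1) k * Mn m p (d + 1) k (res ρ b x) := by
      by_cases hex : ∃ n, a ≤ n ∧ n < b ∧ j n ≤ k
      · -- the last one
        classical
        obtain ⟨n0, hn0⟩ := hex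
        set T := (Finset.Ico a b).filter (fun n => j n ≤ k) with hT
        have hTn : T.Nonempty := ⟨n0, Finset.mem_filter.mpr
          ⟨Finset.mem_Ico.mpr ⟨hn0.1, hn0.2.1⟩, hn0.2.2⟩⟩
        set σ := T.max' hTn with hσ
        have hσT : σ ∈ T := Finset.max'_mem _ _
        rw [hT, Finset.mem_filter, Finset.mem_Ico] at hσT
        obtain ⟨⟨hσ1, hσ2⟩, hσ3⟩ := hσT
        have hσ4 : ∀ n, σ + 1 ≤ n → n < b → k < j n := by
          intro n hn1 hn2
          by_contra hlt
          have h1 : n ∈ T := Finset.mem_filter.mpr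
            ⟨Finset.mem_Ico.mpr ⟨by omega, hn2⟩, by omega⟩
          have := Finset.le_max' T n h1
          omega
        refine ⟨σ, σ + 1, hσ1, Nat.le_succ _, Or.inr hσ2, ?_⟩
        have hF := nrm_Mn h d (k + 1)
        have hp1 : 1 ≤ p k := (h.one_lt k).le
        have hsp : res (s a) (s b) ζ = fun i => res (s a) (s σ) ζ i +
            (res (s σ) (s (σ + 1)) ζ i + res (s (σ + 1)) (s b) ζ i) := by
          rw [res_split (hs.monotone hσ1) (hs.monotone hσ2.le)]
          ext i
          rw [res_split (a := s σ) (hs.monotone (Nat.le_succ σ)) (hs.monotone hσ2)]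
        have hPS : PS (p k) (Mn m p d (k + 1)) (res (s a) (s b) ζ) ≤
            PS (p k) (Mn m p d (k + 1)) (res (s a) (s σ) ζ) +
            (PS (p k) (Mn m p d (k + 1)) (res (s σ) (s (σ + 1)) ζ) +
              PS (p k) (Mn m p d (k + 1)) (res (s (σ + 1)) (s b) ζ)) := by
          rw [hsp]
          refine (PS_add hp1 hF _ _).trans ?_
          gcongr
          exact PS_add hp1 hF _ _
        have e1 : (m k)⁻¹ * PS (p k) (Mn m p d (k + 1)) (res (s a) (s σ) ζ) ≤ Ee x a σ := by
          calc (m k)⁻¹ * PS (p k) (Mn m p d (k + 1)) (res (s a) (s σ) ζ)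
              ≤ (m k)⁻¹ * ∑' i, res (s a) (s σ) ζ i := by
                gcongr; exact PS_le_tsum hp1 hF _
            _ = (m k)⁻¹ * ∑ n ∈ Finset.Ico a σ, ∑' i, res (s n) (s (n + 1)) ζ i := by
                rw [tsum_res_blocks hs]
            _ ≤ (m k)⁻¹ * ∑ n ∈ Finset.Ico a σ, m k * (2⁻¹ ^ (n + 1) * x n) := by
                gcongr with n hn
                rw [Finset.mem_Ico] at hn
                refine (H3 n).trans ?_
                calc 2⁻¹ ^ (n + 1) * m (j (n + 1)) * x n = m (j (n + 1)) * (2⁻¹ ^ (n + 1) * x n) := by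
                      ring
                  _ ≤ _ := by
                      gcongr
                      apply h.mono
                      exact (hj.monotone (show n + 1 ≤ σ by omega)).trans hσ3
            _ = _ := by
                rw [← Finset.mul_sum, ← mul_assoc, ENNReal.inv_mul_cancel (h.ne_zero k)
                  (h.ne_top k), one_mul]
                rfl
        have e2 : (m k)⁻¹ * PS (p k) (Mn m p d (k + 1)) (res (s σ) (s (σ + 1)) ζ) ≤
            Mn m p (d + 1) k (res σ (σ + 1) x) := by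
          calc (m k)⁻¹ * PS (p k) (Mn m p d (k + 1)) (res (s σ) (s (σ + 1)) ζ)
              ≤ Mn m p (d + 1) k (res (s σ) (s (σ + 1)) ζ) := by
                rw [Mn_succ]; exact le_max_right _ _
            _ ≤ MM m p (res (s σ) (s (σ + 1)) ζ) := (Mn_le_Mk _ _ _ _ _).trans (Mk_le_MM h _ _)
            _ ≤ x σ := H1 σ
            _ = res σ (σ + 1) x σ := by rw [res_apply, if_pos ⟨le_rfl, Nat.lt_succ_self σ⟩]
            _ ≤ _ := (nrm_Mn h (d + 1) k).sup _ _
        have e3 := ris_step h hs h0 hC (ih (k + 1)) (a := σ + 1) (b := b)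
          (fun n h1 h2 => H2 n k (hσ4 n h1 h2))
        calc (m k)⁻¹ * PS (p k) (Mn m p d (k + 1)) (res (s a) (s b) ζ)
            ≤ (m k)⁻¹ * (PS (p k) (Mn m p d (k + 1)) (res (s a) (s σ) ζ) +
            (PS (p k) (Mn m p d (k + 1)) (res (s σ) (s (σ + 1)) ζ) +
              PS (p k) (Mn m p d (k + 1)) (res (s (σ + 1)) (s b) ζ))) := by gcongr
          _ = (m k)⁻¹ * PS (p k) (Mn m p d (k + 1)) (res (s a) (s σ) ζ) +
              ((m k)⁻¹ * PS (p k) (Mn m p d (k + 1)) (res (s σ) (s (σ + 1)) ζ) +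
              (m k)⁻¹ * PS (p k) (Mn m p d (k + 1)) (res (s (σ + 1)) (s b) ζ)) := by ring
          _ ≤ Ee x a σ + (Mn m p (d + 1) k (res σ (σ + 1) x) + (Ee x (σ + 1) b +
              Dc p C (d + 1) k * Mn m p (d + 1) k (res (σ + 1) b x))) := by gcongr
          _ = (Ee x a σ + Ee x (σ + 1) b) + Mn m p (d + 1) k (res σ (σ + 1) x) +
              Dc p C (d + 1) k * Mn m p (d + 1) k (res (σ + 1) b x) := by ring
          _ ≤ _ := by
              gcongr
              exact Ee_split hσ1 hσ2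
      · push Not at hex
        refine ⟨a, a, le_rfl, le_rfl, Or.inl le_rfl, ?_⟩
        have e3 := ris_step h hs h0 hC (ih (k + 1)) (a := a) (b := b)
          (fun n h1 h2 => H2 n k (hex n h1 h2))
        refine e3.trans ?_
        rw [(nrm_Mn h (d + 1) k).res_of_le le_rfl, add_zero]
    obtain ⟨τ2, ρ2, hb1, hb2, hb3, hB⟩ := hB'
    rcases le_total (Mn m p d (k + 1) (res (s a) (s b) ζ))
      ((m k)⁻¹ * PS (p k) (Mn m p d (k + 1)) (res (s a) (s b) ζ)) with hle | hle
    · refine ⟨τ2, ρ2, hb1, hb2, hb3, ?_⟩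
      rw [Mn_succ, max_eq_right hle]
      exact hB
    · refine ⟨τ1, ρ1, ha1, ha2, ha3, ?_⟩
      rw [Mn_succ, max_eq_left hle]
      exact hA'

theorem sum_half (n : ℕ) : ∑ i ∈ Finset.range n, (2 : ℝ≥0∞)⁻¹ ^ (i + 1) ≤ 1 := by
  calc ∑ i ∈ Finset.range n, (2 : ℝ≥0∞)⁻¹ ^ (i + 1) ≤ ∑' i, (2 : ℝ≥0∞)⁻¹ ^ (i + 1) :=
        ENNReal.sum_le_tsum _
    _ = 1 := by
        simp only [pow_succ]
        rw [ENNReal.tsum_mul_right, ENNReal.tsum_geometric]
        rw [ENNReal.one_sub_inv_two, inv_inv, ENNReal.mul_inv_cancel (by norm_num) (by norm_num)]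

theorem st_E4 : St_E4 := by
  intro m p h s j ζ x C hs h0 hj hC H1 H2 H3
  have hM := nrm_MM h
  have key : ∀ d n, Mn m p d 0 (res 0 n ζ) ≤ (6 * C + 4) * MM m p x := by
    intro d n
    obtain ⟨τ, ρ, _, _, _, h1⟩ := clm h hs h0 hj hC H1 H2 H3 d 0 0 n
    rw [h0] at h1
    have h2 : ∀ a b, Mn m p d 0 (res a b x) ≤ MM m p x := fun a b =>
      ((nrm_Mn h d 0).res_le a b x).trans (Mn_le_Mk m p d 0 x)
    have h3 : Ee x 0 n ≤ MM m p x := by
      unfold Ee
      calc ∑ i ∈ Finset.Ico 0 n, 2⁻¹ ^ (i + 1) * x i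
          ≤ ∑ i ∈ Finset.Ico 0 n, 2⁻¹ ^ (i + 1) * MM m p x := by
            gcongr with i _
            exact hM.sup x i
        _ = (∑ i ∈ Finset.range n, 2⁻¹ ^ (i + 1)) * MM m p x := by
            rw [Finset.sum_mul, Finset.range_eq_Ico]
        _ ≤ 1 * MM m p x := by gcongr; exact sum_half n
        _ = _ := one_mul _
    have h4 : Dc p C d 0 ≤ C * 6 := by
      unfold Dc
      have h5 : ∑ i ∈ Finset.range d, (1 - 1 / p (0 + i)) ≤ 1 := by
        simp only [zero_add]; exact h.sum d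
      have h6 : (6 : ℝ≥0∞) ^ (∑ i ∈ Finset.range d, (1 - 1 / p (0 + i))) ≤ 6 ^ (1 : ℝ) :=
        ENNReal.rpow_le_rpow_of_exponent_le (by norm_num) h5
      rw [ENNReal.rpow_one] at h6
      gcongr
    calc Mn m p d 0 (res 0 n ζ) ≤ Mn m p d 0 (res 0 (s n) ζ) :=
          (nrm_Mn h d 0).mono (fun i => res_mono' le_rfl (hs.id_le n) ζ i)
      _ ≤ Ee x 0 n + Mn m p d 0 (res τ ρ x) + Dc p C d 0 * Mn m p d 0 (res ρ n x) := h1
      _ ≤ MM m p x + MM m p x + C * 6 * MM m p x := by
          gcongr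
          · exact h2 _ _
          · exact h2 _ _
      _ = (6 * C + 2) * MM m p x := by ring
      _ ≤ _ := by gcongr; norm_num
  unfold MM Mk
  apply iSup_le
  intro d
  rw [Mn_eq_iSup_res h]
  exact iSup_le (fun n => key d n)

end Run7.h157.G
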