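import Pool.Agent.Run7.h157.G.E2E3E5
import Pool.Agent.Run7.h157.G.Iface

/-!
MP_e76fc4_an: piece E6 (`l_1`-averages in block subspaces).
-/

noncomputable section

namespace Run7.h157.G

open Set Filter Topology
open scoped ENNReal NNReal

theorem split_sum {F : (ℕ → ℝ≥0∞) → ℝ≥0∞} (hF : Nrm F) {t : ℕ → ℕ} (ht : StrictMono t)
    (a b : ℕ) (y : ℕ → ℝ≥0∞) (N : ℕ) :
    F (res a b (res (t 0) (t N) y)) ≤
      ∑ i ∈ Finset.range N, F (res a b (res (t i) (t (i + 1)) y)) := by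
  induction N with
  | zero =>
    rw [res_of_le (le_refl _), res_zero_fun, hF.zero]
    exact bot_le
  | succ N ih =>
    rw [Finset.sum_range_succ, res_split (ht.monotone (Nat.zero_le N)) (ht.monotone (Nat.le_succ N)),
      res_add]
    exact (hF.add _ _).trans (add_le_add ih le_rfl)

theorem split_sum' {F : (ℕ → ℝ≥0∞) → ℝ≥0∞} (hF : Nrm F) {t : ℕ → ℕ} (ht : StrictMono t)
    (y : ℕ → ℝ≥0∞) (N : ℕ) :
    F (res (t 0) (t N) y) ≤ ∑ i ∈ Finset.range N, F (res (t i) (t (i + 1)) y) := by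
  have h := split_sum hF ht 0 (t N) y N
  have e : ∀ a b, b ≤ t N → res 0 (t N) (res a b y) = res a b y := by
    intro a b hb
    rw [res_res, max_eq_right (Nat.zero_le _), min_eq_right hb]
  rw [e _ _ le_rfl] at h
  refine h.trans (le_of_eq (Finset.sum_congr rfl fun i hi => ?_))
  rw [e _ _ (ht.monotone (by rw [Finset.mem_range] at hi; omega))]

theorem avg (hE2 : St_E2) {m : ℕ → ℝ≥0∞} {p : ℕ → ℝ} (h : Par m p) {t : ℕ → ℕ} (ht : StrictMono t)
    (N : ℕ) (y : ℕ → ℝ≥0∞) (hy : ∀ i < N, MM m p (res (t i) (t (i + 1)) y) ≤ 1) (k : ℕ)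
    (hk : m k ≤ (N : ℝ≥0∞) ^ (1 - 1 / p k)) :
    PS (p k) (MM m p) (res (t 0) (t N) y) ≤ 2 * N := by
  have hp := h.pos k
  have hp1 := h.one_lt k
  have hF := nrm_MM h
  refine PS_le fun S hS => ?_
  set f : ℕ × ℕ → ℕ → ℝ≥0∞ := fun I i => MM m p (res I.1 I.2 (res (t i) (t (i + 1)) y)) with hf
  set A : ℕ × ℕ → ℝ≥0∞ := fun I => (∑ i ∈ Finset.range N, f I i ^ p k) ^ (1 / p k) with hA
  set P : ℕ × ℕ → Finset ℕ := fun I => (Finset.range N).filter (fun i => I.1 ≤ t i ∧ t i < I.2)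
    with hP
  set C : ℕ × ℕ → ℝ≥0∞ := fun I => ((P I).card : ℝ≥0∞) with hC
  have hfA : ∀ I, ∀ i < N, f I i ≤ A I := by
    intro I i hi
    have h1 : f I i ^ p k ≤ ∑ i ∈ Finset.range N, f I i ^ p k :=
      Finset.single_le_sum (f := fun i => f I i ^ p k) (fun _ _ => bot_le) (Finset.mem_range.2 hi)
    calc f I i = (f I i ^ p k) ^ (1 / p k) := by
          rw [← ENNReal.rpow_mul, mul_one_div_cancel hp.ne', ENNReal.rpow_one]
      _ ≤ _ := ENNReal.rpow_le_rpow h1 (by positivity)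
  have h1 : ∀ I, MM m p (res I.1 I.2 (res (t 0) (t N) y)) ≤ A I + C I := by
    intro I
    refine (split_sum hF ht I.1 I.2 y N).trans ?_
    rw [← Finset.sum_filter_add_sum_filter_not (Finset.range N)
      (fun i => I.1 ≤ t i ∧ t i < I.2), add_comm]
    refine add_le_add ?_ ?_
    · -- the boundary piece
      set Q := (Finset.range N).filter (fun i => ¬ (I.1 ≤ t i ∧ t i < I.2)) with hQ
      by_cases hex : ∃ i0 ∈ Q, t i0 < I.1 ∧ I.1 < t (i0 + 1)
      · obtain ⟨i0, hi0, h2, h3⟩ := hex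
        rw [Finset.sum_eq_single i0]
        · exact hfA I i0 (Finset.mem_range.1 (Finset.mem_filter.1 hi0).1)
        · intro i hi hne
          have h4 := (Finset.mem_filter.1 hi).2
          rw [res_res]
          refine hF.res_of_le ?_ y
          rcases lt_or_gt_of_ne hne with h5 | h5
          · have := ht.monotone (show i + 1 ≤ i0 by omega)
            omega
          · have := ht.monotone (show i0 + 1 ≤ i by omega)
            omega
        · intro h5; exact absurd hi0 h5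
      · push Not at hex
        rw [Finset.sum_eq_zero]
        · exact bot_le
        · intro i hi
          have h4 := (Finset.mem_filter.1 hi).2
          have h5 := hex i hi
          rw [res_res]
          refine hF.res_of_le ?_ y
          by_cases h6 : t i < I.1
          · have := h5 h6
            omega
          · omega
    · refine (Finset.sum_le_card_nsmul _ _ 1 fun i hi => ?_).trans (by simp [hC, hP])
      rw [Finset.mem_filter, Finset.mem_range] at hi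
      exact (hF.res_le _ _ _).trans (hy i hi.1)
  have hAsum : (∑ I ∈ S, A I ^ p k) ^ (1 / p k) ≤ N := by
    have e1 : ∀ I, A I ^ p k = ∑ i ∈ Finset.range N, f I i ^ p k := by
      intro I
      simp only [hA]
      rw [← ENNReal.rpow_mul, one_div_mul_cancel hp.ne', ENNReal.rpow_one]
    simp only [e1]
    rw [Finset.sum_comm]
    have e2 : ∑ i ∈ Finset.range N, ∑ I ∈ S, f I i ^ p k ≤ N * m k ^ p k := by
      refine (Finset.sum_le_card_nsmul _ _ (m k ^ p k) fun i hi => ?_).trans (by simp)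
      have e3 : sS (p k) (MM m p) S (res (t i) (t (i + 1)) y) ≤ m k := by
        refine (sS_le_PS hS _).trans ((hE2 m p h k _).trans ?_)
        calc m k * MM m p (res (t i) (t (i + 1)) y) ≤ m k * 1 := by
              gcongr
              exact hy i (Finset.mem_range.1 hi)
          _ = m k := mul_one _
      unfold sS at e3
      rw [one_div, ENNReal.rpow_inv_le_iff hp] at e3
      exact e3
    calc (∑ i ∈ Finset.range N, ∑ I ∈ S, f I i ^ p k) ^ (1 / p k)
        ≤ ((N : ℝ≥0∞) * m k ^ p k) ^ (1 / p k) := ENNReal.rpow_le_rpow e2 (by positivity)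
      _ = (N : ℝ≥0∞) ^ (1 / p k) * m k := by
          rw [ENNReal.mul_rpow_of_nonneg _ _ (by positivity), ← ENNReal.rpow_mul,
            mul_one_div_cancel hp.ne', ENNReal.rpow_one]
      _ ≤ (N : ℝ≥0∞) ^ (1 / p k) * (N : ℝ≥0∞) ^ (1 - 1 / p k) := by gcongr
      _ = N := by
          rw [← ENNReal.rpow_add_of_nonneg _ _ (by positivity)
            (by rw [sub_nonneg, div_le_one hp]; exact hp1.le)]
          norm_num
  have hCsum : (∑ I ∈ S, C I ^ p k) ^ (1 / p k) ≤ N := by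
    refine (lp_le_sum S C hp1.le).trans ?_
    have h2 : ∑ I ∈ S, (P I).card ≤ N := by
      rw [← Finset.card_biUnion]
      · refine (Finset.card_le_card ?_).trans (le_of_eq (Finset.card_range N))
        intro i hi
        obtain ⟨I, _, hi⟩ := Finset.mem_biUnion.1 hi
        exact (Finset.mem_filter.1 hi).1
      · intro I hI J hJ hne
        rw [Function.onFun, Finset.disjoint_left]
        intro i hi hi'
        have h3 := (Finset.mem_filter.1 hi).2
        have h4 := (Finset.mem_filter.1 hi').2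
        exact hS.disj hI hJ hne (t i) h3.1 h3.2 h4.1 h4.2
    calc ∑ I ∈ S, C I = ((∑ I ∈ S, (P I).card : ℕ) : ℝ≥0∞) := by push_cast; rfl
      _ ≤ N := by exact_mod_cast h2
  calc sS (p k) (MM m p) S (res (t 0) (t N) y)
      ≤ (∑ I ∈ S, (A I + C I) ^ p k) ^ (1 / p k) := by
        unfold sS
        exact ENNReal.rpow_le_rpow (Finset.sum_le_sum fun I _ =>
          ENNReal.rpow_le_rpow (h1 I) hp.le) (by positivity)
    _ ≤ (∑ I ∈ S, A I ^ p k) ^ (1 / p k) + (∑ I ∈ S, C I ^ p k) ^ (1 / p k) :=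
        ENNReal.Lp_add_le _ _ _ hp1.le
    _ ≤ N + N := add_le_add hAsum hCsum
    _ = 2 * N := (two_mul _).symm

/-- the choice of `N` -/
theorem exists_N {m : ℕ → ℝ≥0∞} {p : ℕ → ℝ} (h : Par m p) (j : ℕ) :
    ∃ N : ℕ, 2 ≤ N ∧ ∀ k < j, m k ≤ (N : ℝ≥0∞) ^ (1 - 1 / p k) := by
  have h1 : ∀ k, ∀ᶠ N : ℕ in atTop, m k ≤ (N : ℝ≥0∞) ^ (1 - 1 / p k) := by
    intro k
    have hα : 0 < 1 - 1 / p k := by
      rw [sub_pos, div_lt_one (h.pos k)]; exact h.one_lt k
    have h2 : Tendsto (fun N : ℕ => (N : ℝ≥0∞) ^ (1 - 1 / p k)) atTop (𝓝 ∞) :=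
      (ENNReal.tendsto_rpow_at_top hα).comp ENNReal.tendsto_nat_nhds_top
    have h3 := h2.eventually (lt_mem_nhds (h.ne_top k).lt_top)
    exact h3.mono fun N hN => hN.le
  have h2 : ∀ᶠ N : ℕ in atTop, ∀ k ∈ Finset.range j, m k ≤ (N : ℝ≥0∞) ^ (1 - 1 / p k) :=
    (Finset.eventually_all _).2 fun k _ => h1 k
  obtain ⟨N, hN1, hN2⟩ := (h2.and (eventually_ge_atTop 2)).exists
  exact ⟨N, hN2, fun k hk => hN1 k (Finset.mem_range.2 hk)⟩

/-- the choice of `J` -/
theorem exists_J {m : ℕ → ℝ≥0∞} {p : ℕ → ℝ} (h : Par m p) (N : ℕ) (hN : 2 ≤ N) :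
    ∃ J : ℕ, (N : ℝ≥0∞) ^ (1 - 1 / p J) ≤ 3 / 2 := by
  have hN0 : (0 : ℝ) < N := by exact_mod_cast (by omega : 0 < N)
  have h1 : Tendsto (fun J => (N : ℝ) ^ (1 - 1 / p J)) atTop (𝓝 1) := by
    have h2 : Tendsto (fun J => 1 - 1 / p J) atTop (𝓝 (1 - 1 / 1)) :=
      tendsto_const_nhds.sub (tendsto_const_nhds.div h.tend_p one_ne_zero)
    have h3 : Tendsto (fun J => (N : ℝ) ^ (1 - 1 / p J)) atTop (𝓝 ((N : ℝ) ^ ((1 : ℝ) - 1 / 1))) :=
      ((Real.continuous_const_rpow hN0.ne').tendsto _).comp h2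
    simpa using h3
  have h2 := h1.eventually (gt_mem_nhds (show (1 : ℝ) < 3 / 2 by norm_num))
  obtain ⟨J, hJ⟩ := h2.exists
  refine ⟨J, ?_⟩
  have e1 : (N : ℝ≥0∞) = ENNReal.ofReal (N : ℝ) := (ENNReal.ofReal_natCast N).symm
  rw [e1, ENNReal.ofReal_rpow_of_pos hN0]
  have e2 : (3 / 2 : ℝ≥0∞) = ENNReal.ofReal (3 / 2) := by
    rw [ENNReal.ofReal_div_of_pos (by norm_num)]
    simp
  rw [e2]
  exact ENNReal.ofReal_le_ofReal hJ.le

theorem bl_mem {s : ℕ → ℕ} (hs : StrictMono s) (h0 : s 0 = 0) (a b i : ℕ) :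
    (a ≤ bl s i ∧ bl s i < b) ↔ (s a ≤ i ∧ i < s b) := by
  obtain ⟨h1, h2⟩ := bl_spec hs h0 i
  constructor
  · rintro ⟨h3, h4⟩
    exact ⟨(hs.monotone h3).trans h1, h2.trans_le (hs.monotone h4)⟩
  · rintro ⟨h3, h4⟩
    constructor
    · by_contra hc
      have := hs.monotone (show bl s i + 1 ≤ a by omega)
      omega
    · by_contra hc
      have := hs.monotone (show b ≤ bl s i by omega)
      omega

theorem MM_res_ne_top {m : ℕ → ℝ≥0∞} {p : ℕ → ℝ} (h : Par m p) (a b : ℕ) {ζ : ℕ → ℝ≥0∞}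
    (hζ : ∀ i, ζ i ≠ ∞) : MM m p (res a b ζ) ≠ ∞ := by
  refine ne_top_of_le_ne_top ?_ ((nrm_MM h).sum _)
  rw [tsum_eq_sum (s := Finset.range b)]
  · rw [ENNReal.sum_ne_top]
    intro i _
    rw [res_apply]
    split_ifs
    · exact hζ i
    · exact ENNReal.zero_ne_top
  · intro i hi
    rw [Finset.mem_range] at hi
    rw [res_apply, if_neg (by omega)]

theorem MM_res_ne_zero {m : ℕ → ℝ≥0∞} {p : ℕ → ℝ} (h : Par m p) {a b : ℕ} {ζ : ℕ → ℝ≥0∞}
    (hζ : ∃ i, a ≤ i ∧ i < b ∧ ζ i ≠ 0) : MM m p (res a b ζ) ≠ 0 := by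
  obtain ⟨i, h1, h2, h3⟩ := hζ
  intro h0
  have := (nrm_MM h).sup (res a b ζ) i
  rw [h0, res_apply, if_pos ⟨h1, h2⟩] at this
  exact h3 (le_antisymm this bot_le)

theorem E6_main (hE2 : St_E2) : St_E6 := by
  intro m p h s ζ hs hs0 hζ hne j n0
  have hF := nrm_MM h
  obtain ⟨N, hN2, hNk⟩ := exists_N h j
  obtain ⟨J, hJ⟩ := exists_J (m := m) h N hN2
  have hN0 : (N : ℝ≥0∞) ≠ 0 := by
    exact_mod_cast (by omega : N ≠ 0)
  have hNt : (N : ℝ≥0∞) ≠ ∞ := ENNReal.natCast_ne_top N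
  -- the normalised blocks
  set c0 : ℕ → ℝ≥0 := fun n => (MM m p (res (s n) (s (n + 1)) ζ)).toNNReal⁻¹ with hc0
  have hc0' : ∀ n, ((c0 n : ℝ≥0) : ℝ≥0∞) = (MM m p (res (s n) (s (n + 1)) ζ))⁻¹ := by
    intro n
    have h1 := MM_res_ne_top h (s n) (s (n + 1)) hζ
    have h2 := MM_res_ne_zero h (hne n)
    simp only [hc0]
    rw [ENNReal.coe_inv (by
      intro h3
      rw [ENNReal.toNNReal_eq_zero_iff] at h3
      rcases h3 with h3 | h3
      · exact h2 h3
      · exact h1 h3), ENNReal.coe_toNNReal h1]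
  set w : ℕ → ℝ≥0∞ := fun i => (c0 (bl s i) : ℝ≥0∞) * ζ i with hw
  have hblock : ∀ n, MM m p (res (s n) (s (n + 1)) w) = 1 := by
    intro n
    have e : res (s n) (s (n + 1)) w = fun i => (c0 n : ℝ≥0∞) * res (s n) (s (n + 1)) ζ i := by
      ext i
      simp only [res_apply, hw]
      split_ifs with hi
      · rw [(bl_eq_iff hs hs0 n i).2 hi]
      · simp
    rw [e, hF.smul, hc0' n, ENNReal.inv_mul_cancel (MM_res_ne_zero h (hne n))
      (MM_res_ne_top h _ _ hζ)]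
  set T : ℕ → ℕ → ℕ := fun r i => s (n0 + i * N ^ r) with hT
  have hTm : ∀ r, StrictMono (T r) := by
    intro r i i' hi
    refine hs ?_
    have : 0 < N ^ r := pow_pos (by omega) r
    have := Nat.mul_lt_mul_of_pos_right hi this
    omega
  set G : ℕ → Prop := fun r => ∀ i, MM m p (res (T r i) (T r (i + 1)) w) ≤ ((N : ℝ≥0∞) / 2) ^ r
    with hG
  have hG0 : G 0 := by
    intro i
    simp only [hT, pow_zero, mul_one]
    rw [← add_assoc, hblock]
  have hGn : ¬ ∀ r, G r := by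
    intro hall
    have key : ∀ R : ℕ, 1 ≤ m J * (3 / 4) ^ R := by
      intro R
      have h1 := hall R 0
      simp only [hT, zero_mul, add_zero, zero_add, one_mul] at h1
      set x := res (s n0) (s (n0 + N ^ R)) w with hx
      have h2 := hE2 m p h J x
      have h3 := sum_rpow_le_PS (h.pos J) hF.zero (Finset.range (N ^ R)) (fun i => s (n0 + i))
        (fun i => s (n0 + i + 1)) (by
          intro i _ i' _ hii n a1 a2 a3 a4
          rcases lt_or_gt_of_ne hii with h5 | h5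
          · have := hs.monotone (show n0 + i + 1 ≤ n0 + i' by omega)
            omega
          · have := hs.monotone (show n0 + i' + 1 ≤ n0 + i by omega)
            omega) x
      have h4 : ∑ i ∈ Finset.range (N ^ R), MM m p (res (s (n0 + i)) (s (n0 + i + 1)) x) ^ p J =
          (N : ℝ≥0∞) ^ R := by
        have : ∀ i ∈ Finset.range (N ^ R),
            MM m p (res (s (n0 + i)) (s (n0 + i + 1)) x) ^ p J = 1 := by
          intro i hi
          rw [Finset.mem_range] at hi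
          rw [hx, res_res, max_eq_left (hs.monotone (by omega)), min_eq_left
            (hs.monotone (by omega)), hblock, ENNReal.one_rpow]
        rw [Finset.sum_congr rfl this]
        simp
      rw [h4] at h3
      have h5 : ((N : ℝ≥0∞) ^ R) ^ (1 / p J) ≤ m J * ((N : ℝ≥0∞) / 2) ^ R :=
        h3.trans (h2.trans (by gcongr))
      have h6 : (N : ℝ≥0∞) ^ R = ((N : ℝ≥0∞) ^ R) ^ (1 / p J) *
          ((N : ℝ≥0∞) ^ (1 - 1 / p J)) ^ R := by
        have e1 : ((N : ℝ≥0∞) ^ (1 - 1 / p J)) ^ R = ((N : ℝ≥0∞) ^ R) ^ (1 - 1 / p J) := by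
          rw [← ENNReal.rpow_natCast, ← ENNReal.rpow_mul, ← ENNReal.rpow_natCast,
            ← ENNReal.rpow_mul, mul_comm]
        have := h.pos J
        rw [e1, ← ENNReal.rpow_add_of_nonneg _ _ (by positivity)
          (by rw [sub_nonneg, div_le_one this]; exact (h.one_lt J).le)]
        norm_num
      have h7 : (N : ℝ≥0∞) ^ R ≤ (N : ℝ≥0∞) ^ R * (m J * (3 / 4) ^ R) := by
        calc (N : ℝ≥0∞) ^ R = ((N : ℝ≥0∞) ^ R) ^ (1 / p J) *
              ((N : ℝ≥0∞) ^ (1 - 1 / p J)) ^ R := h6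
          _ ≤ (m J * ((N : ℝ≥0∞) / 2) ^ R) * (3 / 2) ^ R := by gcongr
          _ = (N : ℝ≥0∞) ^ R * (m J * (3 / 4) ^ R) := by
              have e2 : ((N : ℝ≥0∞) / 2) ^ R * (3 / 2) ^ R = (N : ℝ≥0∞) ^ R * (3 / 4) ^ R := by
                rw [← mul_pow, ← mul_pow]
                congr 1
                have e3 : (3 / 4 : ℝ≥0∞) = 3 * (2⁻¹ * 2⁻¹) := by
                  rw [← ENNReal.mul_inv (by norm_num) (by norm_num), ENNReal.div_eq_inv_mul]
                  norm_num [mul_comm]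
                rw [e3]
                simp only [div_eq_mul_inv]
                ring
              rw [mul_assoc, e2]
              ring
      have h8 : (N : ℝ≥0∞) ^ R * 1 ≤ (N : ℝ≥0∞) ^ R * (m J * (3 / 4) ^ R) := by
        rwa [mul_one]
      exact (ENNReal.mul_le_mul_iff_right (pow_ne_zero _ hN0) (ENNReal.pow_ne_top hNt)).1 h8
    have h1 : Tendsto (fun R : ℕ => m J * (3 / 4 : ℝ≥0∞) ^ R) atTop (𝓝 (m J * 0)) := by
      refine ENNReal.Tendsto.const_mul ?_ (Or.inr (h.ne_top J))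
      refine ENNReal.tendsto_pow_atTop_nhds_zero_of_lt_one ?_
      rw [ENNReal.div_lt_iff (Or.inl (by norm_num)) (Or.inl (by norm_num))]
      norm_num
    rw [mul_zero] at h1
    obtain ⟨R, hR⟩ := (h1.eventually (gt_mem_nhds (show (0 : ℝ≥0∞) < 1 by norm_num))).exists
    exact absurd hR (not_lt.2 (key R))
  obtain ⟨r, hr, hr1⟩ : ∃ r, G r ∧ ¬ G (r + 1) := by
    by_contra hcon
    push Not at hcon
    exact hGn fun r => Nat.rec hG0 (fun r ih => hcon r ih) r
  simp only [hG] at hr1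
  push Not at hr1
  obtain ⟨i, hi⟩ := hr1
  set a := n0 + i * N ^ (r + 1) with ha
  set n1 := n0 + (i + 1) * N ^ (r + 1) with hn1
  have hpow : 0 < N ^ (r + 1) := pow_pos (by omega) _
  have han1 : a < n1 := by
    rw [ha, hn1, add_mul, one_mul]; omega
  set lam : ℝ≥0 := (N : ℝ≥0)⁻¹ * (2 / N) ^ r with hlam
  have hNnn : (N : ℝ≥0) ≠ 0 := by exact_mod_cast (by omega : N ≠ 0)
  set μ : ℝ≥0 := (2 / N) ^ r with hμ
  have hlam' : ((lam : ℝ≥0) : ℝ≥0∞) = (N : ℝ≥0∞)⁻¹ * (μ : ℝ≥0∞) := by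
    rw [hlam, ENNReal.coe_mul, ENNReal.coe_inv hNnn]
    rfl
  have hμ1 : (μ : ℝ≥0∞) * ((N : ℝ≥0∞) / 2) ^ r = 1 := by
    have : μ * ((N : ℝ≥0) / 2) ^ r = 1 := by
      rw [hμ, ← mul_pow]
      have : (2 / (N : ℝ≥0)) * ((N : ℝ≥0) / 2) = 1 := by field_simp
      rw [this, one_pow]
    have e : ((N : ℝ≥0∞) / 2) ^ r = ((((N : ℝ≥0) / 2) ^ r : ℝ≥0) : ℝ≥0∞) := by
      rw [ENNReal.coe_pow, ENNReal.coe_div (by norm_num)]
      rfl
    rw [e, ← ENNReal.coe_mul, this, ENNReal.coe_one]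
  -- the sub-blocks
  set t : ℕ → ℕ := fun i' => T r (i * N + i') with ht
  have htm : StrictMono t := fun x y hxy => hTm r (by omega)
  have ht0 : t 0 = s a := by
    simp only [ht, hT, ha, add_zero]
    congr 2
    rw [pow_succ]; ring
  have htN : t N = s n1 := by
    simp only [ht, hT, hn1]
    congr 2
    rw [pow_succ]; ring
  set y : ℕ → ℝ≥0∞ := fun i => (μ : ℝ≥0∞) * w i with hy
  have hy1 : ∀ i' < N, MM m p (res (t i') (t (i' + 1)) y) ≤ 1 := by
    intro i' _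
    rw [hy, res_smul, hF.smul, ← hμ1]
    gcongr
    have := hr (i * N + i')
    simp only [ht, ← add_assoc]
    exact this
  set Z : ℕ → ℝ≥0∞ := fun i => (N : ℝ≥0∞)⁻¹ * res (t 0) (t N) y i with hZ
  have hZeq : (fun i' => (((if a ≤ bl s i' ∧ bl s i' < n1 then lam * c0 (bl s i') else 0 : ℝ≥0)) :
      ℝ≥0∞) * ζ i') = Z := by
    ext i'
    simp only [hZ]
    rw [res_apply, ht0, htN]
    by_cases hcase : a ≤ bl s i' ∧ bl s i' < n1
    · rw [if_pos hcase, if_pos ((bl_mem hs hs0 a n1 i').1 hcase), ENNReal.coe_mul, hlam', hy, hw]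
      ring
    · rw [if_neg hcase, if_neg (fun hc => hcase ((bl_mem hs hs0 a n1 i').2 hc))]
      simp
  refine ⟨n1, fun n => if a ≤ n ∧ n < n1 then lam * c0 n else 0, by omega, ?_, ?_⟩
  · intro n hn
    by_cases hcase : a ≤ n ∧ n < n1
    · exact ⟨by omega, hcase.2⟩
    · simp only [if_neg hcase] at hn
      exact absurd rfl hn
  rw [hZeq]
  refine ⟨?_, ?_, ?_⟩
  · rw [hZ, hF.smul, ht0, htN, hy, res_smul, hF.smul]
    have e1 : MM m p (res (T (r + 1) i) (T (r + 1) (i + 1)) w) = MM m p (res (s a) (s n1) w) := rfl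
    rw [e1] at hi
    calc (1 / 2 : ℝ≥0∞) = (N : ℝ≥0∞)⁻¹ * ((μ : ℝ≥0∞) * ((N : ℝ≥0∞) / 2) ^ (r + 1)) := by
          rw [pow_succ, ← mul_assoc (μ : ℝ≥0∞), hμ1, one_mul, one_div, div_eq_mul_inv, ← mul_assoc,
            ENNReal.inv_mul_cancel hN0 hNt, one_mul]
      _ ≤ _ := by gcongr
  · rw [hZ, hF.smul]
    calc (N : ℝ≥0∞)⁻¹ * MM m p (res (t 0) (t N) y) ≤ (N : ℝ≥0∞)⁻¹ * N := by
          gcongr
          refine (split_sum' hF htm y N).trans ?_
          refine (Finset.sum_le_card_nsmul _ _ 1 fun i' hi' => hy1 i' (Finset.mem_range.1 hi')).trans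
            (by simp)
      _ = 1 := ENNReal.inv_mul_cancel hN0 hNt
  · intro k hk
    rw [hZ, PS_smul (h.pos k) hF]
    calc (N : ℝ≥0∞)⁻¹ * PS (p k) (MM m p) (res (t 0) (t N) y) ≤ (N : ℝ≥0∞)⁻¹ * (2 * N) := by
          gcongr
          exact avg hE2 h htm N y hy1 k (hNk k hk)
      _ = 2 * ((N : ℝ≥0∞)⁻¹ * N) := by ring
      _ = 2 := by rw [ENNReal.inv_mul_cancel hN0 hNt, mul_one]
      _ ≤ 3 := by norm_num

theorem st_E6 : St_E6 := E6_main st_E2

end Run7.h157.G
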