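import Mathlib
import Pool.Agent.Run7.h157.G.E1
import Pool.Agent.Run7.h157.G.Iface

/-!
Piece E7 (helper714) of project G of helper157: zones on unit vectors.
-/

set_option autoImplicit false

noncomputable section

namespace Run7.h157.G

open Set Filter Topology
open scoped ENNReal NNReal

namespace E7

/-- `l_p`-norm over the window `[a, b)` -/
def W (a b : ℕ) (p : ℝ) (x : ℕ → ℝ≥0∞) : ℝ≥0∞ := (∑ i ∈ Finset.Ico a b, x i ^ p) ^ (1 / p)

/-- supported in `[a, b)` -/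
def Sup (a b : ℕ) (x : ℕ → ℝ≥0∞) : Prop := ∀ i, ¬ (a ≤ i ∧ i < b) → x i = 0

theorem Sup.res {a b : ℕ} {x : ℕ → ℝ≥0∞} (h : Sup a b x) (c d : ℕ) : Sup a b (res c d x) := by
  intro i hi
  rw [res_apply, h i hi]
  split_ifs <;> rfl

theorem sup_le_W {a b : ℕ} {x : ℕ → ℝ≥0∞} (h : Sup a b x) {p : ℝ} (hp : 0 < p) :
    (⨆ i, x i) ≤ W a b p x := by
  refine iSup_le fun i => ?_
  by_cases hi : a ≤ i ∧ i < b
  · have h1 : x i ^ p ≤ ∑ i ∈ Finset.Ico a b, x i ^ p :=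
      Finset.single_le_sum (f := fun i => x i ^ p) (fun _ _ => bot_le) (Finset.mem_Ico.2 hi)
    have h2 := ENNReal.rpow_le_rpow h1 (by positivity : 0 ≤ 1 / p)
    rwa [← ENNReal.rpow_mul, mul_one_div_cancel hp.ne', ENNReal.rpow_one] at h2
  · rw [h i hi]
    exact bot_le

theorem W_rpow {a b : ℕ} {x : ℕ → ℝ≥0∞} {p : ℝ} (hp : 0 < p) :
    W a b p x ^ p = ∑ i ∈ Finset.Ico a b, x i ^ p := by
  unfold W
  rw [← ENNReal.rpow_mul, one_div_mul_cancel hp.ne', ENNReal.rpow_one]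

/-- disjoint pieces -/
theorem sum_res {a b : ℕ} (S : Finset (ℕ × ℕ)) (hS : Adm S) (x : ℕ → ℝ≥0∞) {p : ℝ} (hp : 0 < p) :
    ∑ I ∈ S, ∑ i ∈ Finset.Ico a b, res I.1 I.2 x i ^ p ≤ ∑ i ∈ Finset.Ico a b, x i ^ p := by
  rw [Finset.sum_comm]
  refine Finset.sum_le_sum fun i _ => ?_
  by_cases h : ∃ I ∈ S, I.1 ≤ i ∧ i < I.2
  · obtain ⟨I, hI, h1, h2⟩ := h
    rw [Finset.sum_eq_single I]
    · exact ENNReal.rpow_le_rpow (res_le _ _ _ _) hp.le
    · intro J hJ hJI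
      rw [res_apply, if_neg, ENNReal.zero_rpow_of_pos hp]
      rintro ⟨h3, h4⟩
      exact hS.disj hJ hI hJI i h3 h4 h1 h2
    · intro h; exact absurd hI h
  · push Not at h
    rw [Finset.sum_eq_zero]
    · exact bot_le
    · intro I hI
      rw [res_apply, if_neg, ENNReal.zero_rpow_of_pos hp]
      rintro ⟨h3, h4⟩
      have := h I hI h3
      omega

theorem pieces_sup {a b : ℕ} {x : ℕ → ℝ≥0∞} (h : Sup a b x) (S : Finset (ℕ × ℕ)) (hS : Adm S)
    {p : ℝ} (hp : 0 < p) :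
    (∑ I ∈ S, (⨆ i, res I.1 I.2 x i) ^ p) ^ (1 / p) ≤ W a b p x := by
  unfold W
  refine ENNReal.rpow_le_rpow ?_ (by positivity)
  refine le_trans (Finset.sum_le_sum fun I _ => ?_) (sum_res S hS x hp)
  rw [← W_rpow hp]
  exact ENNReal.rpow_le_rpow (sup_le_W (h.res _ _) hp) hp.le

theorem W_anti {a b : ℕ} {x : ℕ → ℝ≥0∞} {p q : ℝ} (hp : 0 < p) (hpq : p ≤ q) :
    W a b q x ≤ W a b p x := lp_anti _ _ hp hpq

theorem pieces_W {a b : ℕ} {x : ℕ → ℝ≥0∞} (S : Finset (ℕ × ℕ)) (hS : Adm S)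
    {p r : ℝ} (hp : 0 < p) (hr : 0 < r) :
    (∑ I ∈ S, (W a b r (res I.1 I.2 x)) ^ p) ^ (1 / p) ≤ W a b (min r p) x := by
  have same : ∀ r : ℝ, 0 < r →
      (∑ I ∈ S, (W a b r (res I.1 I.2 x)) ^ r) ^ (1 / r) ≤ W a b r x := by
    intro r hr
    have h1 : ∑ I ∈ S, (W a b r (res I.1 I.2 x)) ^ r ≤ ∑ i ∈ Finset.Ico a b, x i ^ r := by
      simp only [W_rpow hr]
      exact sum_res S hS x hr
    unfold W
    exact ENNReal.rpow_le_rpow h1 (by positivity)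
  rcases le_total r p with h | h
  · rw [min_eq_left h]
    exact (lp_anti S _ hr h).trans (same r hr)
  · rw [min_eq_right h]
    have h1 : (∑ I ∈ S, (W a b r (res I.1 I.2 x)) ^ p) ^ (1 / p) ≤
        (∑ I ∈ S, (W a b p (res I.1 I.2 x)) ^ p) ^ (1 / p) := by
      refine ENNReal.rpow_le_rpow (Finset.sum_le_sum fun I _ => ?_) (by positivity)
      exact ENNReal.rpow_le_rpow (W_anti hp h) hp.le
    exact h1.trans (same p hp)

/-- Minkowski for finite sums -/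
theorem mink {ι κ : Type*} (S : Finset ι) (J : Finset κ) (f : κ → ι → ℝ≥0∞) {p : ℝ} (hp : 1 ≤ p) :
    (∑ I ∈ S, (∑ j ∈ J, f j I) ^ p) ^ (1 / p) ≤ ∑ j ∈ J, (∑ I ∈ S, f j I ^ p) ^ (1 / p) := by
  classical
  have hp0 : 0 < p := by linarith
  induction J using Finset.induction_on with
  | empty =>
    simp only [Finset.sum_empty, ENNReal.zero_rpow_of_pos hp0, Finset.sum_const_zero]
    rw [ENNReal.zero_rpow_of_pos (by positivity)]
  | insert a J ha ih =>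
    simp only [Finset.sum_insert ha]
    exact (ENNReal.Lp_add_le _ _ _ hp).trans (add_le_add le_rfl ih)

theorem mink_smul {ι : Type*} (S : Finset ι) (c : ℝ≥0∞) (f : ι → ℝ≥0∞) {p : ℝ} (hp : 0 < p) :
    (∑ I ∈ S, (c * f I) ^ p) ^ (1 / p) = c * (∑ I ∈ S, f I ^ p) ^ (1 / p) := by
  simp only [ENNReal.mul_rpow_of_nonneg _ _ hp.le]
  rw [← Finset.mul_sum, ENNReal.mul_rpow_of_nonneg _ _ (by positivity), ← ENNReal.rpow_mul,
    mul_one_div_cancel hp.ne', ENNReal.rpow_one]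

/-- one operation applied to a bound of the form `sup + Σ c_j ‖·‖_{r_j}` -/
theorem step {a b : ℕ} (F : (ℕ → ℝ≥0∞) → ℝ≥0∞) (J : Finset ℕ) (c : ℕ → ℝ≥0∞) (r : ℕ → ℝ)
    (hr : ∀ j, 0 < r j)
    (hF : ∀ x, Sup a b x → F x ≤ (⨆ i, x i) + ∑ j ∈ J, c j * W a b (r j) x)
    {p : ℝ} (hp : 1 ≤ p) (x : ℕ → ℝ≥0∞) (hx : Sup a b x) :
    PS p F x ≤ W a b p x + ∑ j ∈ J, c j * W a b (min (r j) p) x := by
  have hp0 : 0 < p := by linarith
  refine PS_le fun S hS => ?_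
  calc sS p F S x ≤ (∑ I ∈ S, ((⨆ i, res I.1 I.2 x i) +
          ∑ j ∈ J, c j * W a b (r j) (res I.1 I.2 x)) ^ p) ^ (1 / p) := by
        unfold sS
        refine ENNReal.rpow_le_rpow (Finset.sum_le_sum fun I _ => ?_) (by positivity)
        exact ENNReal.rpow_le_rpow (hF _ (hx.res _ _)) hp0.le
    _ ≤ (∑ I ∈ S, (⨆ i, res I.1 I.2 x i) ^ p) ^ (1 / p) +
        (∑ I ∈ S, (∑ j ∈ J, c j * W a b (r j) (res I.1 I.2 x)) ^ p) ^ (1 / p) :=
        ENNReal.Lp_add_le _ _ _ hp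
    _ ≤ W a b p x + ∑ j ∈ J, c j * W a b (min (r j) p) x := by
        refine add_le_add (pieces_sup hx S hS hp0) ?_
        refine (mink S J (fun j I => c j * W a b (r j) (res I.1 I.2 x)) hp).trans ?_
        refine Finset.sum_le_sum fun j _ => ?_
        rw [mink_smul S (c j) _ hp0]
        gcongr
        exact pieces_W S hS hp0 (hr j)

/-- Hoelder -/
theorem hoelder {a b : ℕ} {p : ℝ} (hp : 1 ≤ p) (x : ℕ → ℝ≥0∞) :
    ∑ i ∈ Finset.Ico a b, x i ≤ ((b - a : ℕ) : ℝ≥0∞) ^ (1 - 1 / p) * W a b p x := by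
  have hp0 : 0 < p := by linarith
  have h := ENNReal.rpow_sum_le_const_mul_sum_rpow (Finset.Ico a b) x hp
  have h2 := ENNReal.rpow_le_rpow h (by positivity : 0 ≤ 1 / p)
  rw [← ENNReal.rpow_mul, mul_one_div_cancel hp0.ne', ENNReal.rpow_one,
    ENNReal.mul_rpow_of_nonneg _ _ (by positivity), ← ENNReal.rpow_mul, Nat.card_Ico] at h2
  have e : (p - 1) * (1 / p) = 1 - 1 / p := by
    field_simp
  rw [e] at h2
  exact h2

theorem tsum_eq {a b : ℕ} {x : ℕ → ℝ≥0∞} (h : Sup a b x) :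
    ∑' i, x i = ∑ i ∈ Finset.Ico a b, x i := by
  refine tsum_eq_sum fun i hi => ?_
  refine h i fun h' => hi (Finset.mem_Ico.2 h')

variable {m : ℕ → ℝ≥0∞} {p : ℕ → ℝ}

/-- the coefficients -/
def cf (m : ℕ → ℝ≥0∞) (n j : ℕ) : ℝ≥0∞ := if j = n then 2 * (m n)⁻¹ else 1

theorem inv_le_one (h : Par m p) (j : ℕ) : (m j)⁻¹ ≤ 1 := ENNReal.inv_le_one.2 (h.one_le j)

/-- level `n` -/
theorem base (h : Par m p) {a b n : ℕ}
    (hL : (m (n + 1))⁻¹ * ((b - a : ℕ) : ℝ≥0∞) ^ (1 - 1 / p n) ≤ (m n)⁻¹)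
    (x : ℕ → ℝ≥0∞) (hx : Sup a b x) :
    Mk m p n x ≤ (⨆ i, x i) + ∑ j ∈ Finset.Icc n n, cf m n j * W a b (p j) x := by
  have h1 : ∀ x, Sup a b x → Mk m p (n + 1) x ≤ (⨆ i, x i) +
      ∑ j ∈ Finset.Icc n n, (m n)⁻¹ * W a b (p j) x := by
    intro x hx
    refine (Mk_le_sup_add h (n + 1) x).trans ?_
    refine add_le_add le_rfl ?_
    rw [Finset.Icc_self, Finset.sum_singleton, tsum_eq hx]
    calc (m (n + 1))⁻¹ * ∑ i ∈ Finset.Ico a b, x i ≤
        (m (n + 1))⁻¹ * (((b - a : ℕ) : ℝ≥0∞) ^ (1 - 1 / p n) * W a b (p n) x) := by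
          gcongr
          exact hoelder (h.one_lt n).le x
      _ = ((m (n + 1))⁻¹ * ((b - a : ℕ) : ℝ≥0∞) ^ (1 - 1 / p n)) * W a b (p n) x := by
          rw [mul_assoc]
      _ ≤ _ := by gcongr
  have h2 := step (Mk m p (n + 1)) (Finset.Icc n n) (fun _ => (m n)⁻¹) p h.pos h1
    (h.one_lt n).le x hx
  have h1' := h1 x hx
  rw [Finset.Icc_self, Finset.sum_singleton] at h1' h2 ⊢
  rw [min_self] at h2
  rw [cf, if_pos rfl, Mk_eq h n]
  refine max_le (h1'.trans ?_) ?_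
  · refine add_le_add le_rfl ?_
    gcongr
    calc (m n)⁻¹ = 1 * (m n)⁻¹ := (one_mul _).symm
      _ ≤ 2 * (m n)⁻¹ := by gcongr; exact one_le_two
  · refine le_trans ?_ le_add_self
    calc (m n)⁻¹ * PS (p n) (Mk m p (n + 1)) x ≤
        (m n)⁻¹ * (W a b (p n) x + (m n)⁻¹ * W a b (p n) x) := by gcongr
      _ ≤ (m n)⁻¹ * (W a b (p n) x + 1 * W a b (p n) x) := by
          gcongr
          exact inv_le_one h n
      _ = _ := by ring

/-- all levels -/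
theorem levels (h : Par m p) {a b n : ℕ}
    (hL : (m (n + 1))⁻¹ * ((b - a : ℕ) : ℝ≥0∞) ^ (1 - 1 / p n) ≤ (m n)⁻¹) (d : ℕ) :
    ∀ l, l + d = n → ∀ (x : ℕ → ℝ≥0∞), Sup a b x →
    Mk m p l x ≤ (⨆ i, x i) + ∑ j ∈ Finset.Icc l n, cf m n j * W a b (p j) x := by
  induction d with
  | zero =>
    intro l hl x hx
    obtain rfl : l = n := by omega
    exact base h hL x hx
  | succ d ih =>
    intro l hl x hx
    have h1 := ih (l + 1) (by omega)
    have h2 := step (Mk m p (l + 1)) (Finset.Icc (l + 1) n) (cf m n) p h.pos h1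
      (h.one_lt l).le x hx
    have e : Finset.Icc l n = insert l (Finset.Icc (l + 1) n) := by
      ext i
      rw [Finset.mem_insert, Finset.mem_Icc, Finset.mem_Icc]
      omega
    have e2 : ∑ j ∈ Finset.Icc l n, cf m n j * W a b (p j) x =
        W a b (p l) x + ∑ j ∈ Finset.Icc (l + 1) n, cf m n j * W a b (p j) x := by
      rw [e, Finset.sum_insert (by simp)]
      congr 1
      rw [cf, if_neg (by omega), one_mul]
    rw [e2, Mk_eq h l]
    refine max_le ((h1 x hx).trans ?_) ?_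
    · exact add_le_add le_rfl le_add_self
    · refine le_trans ?_ le_add_self
      refine le_trans (mul_le_of_le_one_left bot_le (inv_le_one h l)) (h2.trans ?_)
      refine add_le_add le_rfl (Finset.sum_le_sum fun j hj => ?_)
      rw [Finset.mem_Icc] at hj
      rw [min_eq_left (h.anti (by omega : l ≤ j))]

theorem top (h : Par m p) {a b n : ℕ}
    (hL : (m (n + 1))⁻¹ * ((b - a : ℕ) : ℝ≥0∞) ^ (1 - 1 / p n) ≤ (m n)⁻¹)
    (x : ℕ → ℝ≥0∞) (hx : Sup a b x) :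
    MM m p x ≤ (⨆ i, x i) + ∑ j ∈ Finset.Icc 0 n, cf m n j * W a b (p j) x :=
  levels h hL n 0 (by omega) x hx

theorem topPS (h : Par m p) {a b n : ℕ}
    (hL : (m (n + 1))⁻¹ * ((b - a : ℕ) : ℝ≥0∞) ^ (1 - 1 / p n) ≤ (m n)⁻¹)
    (x : ℕ → ℝ≥0∞) (hx : Sup a b x) (k : ℕ) :
    PS (p k) (MM m p) x ≤ W a b (p k) x +
      ∑ j ∈ Finset.Icc 0 n, cf m n j * W a b (min (p j) (p k)) x :=
  step (MM m p) (Finset.Icc 0 n) (cf m n) p h.pos (top h hL) (h.one_lt k).le x hx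

/-- numerical consequence: `y` bounds everything -/
theorem fin_bounds (h : Par m p) {a b n : ℕ}
    (hL : (m (n + 1))⁻¹ * ((b - a : ℕ) : ℝ≥0∞) ^ (1 - 1 / p n) ≤ (m n)⁻¹)
    (x : ℕ → ℝ≥0∞) (hx : Sup a b x) (y : ℝ≥0∞) (h0 : (⨆ i, x i) ≤ y)
    (h1 : ∀ l, l < n → W a b (p l) x ≤ ((n : ℝ≥0∞) + 1)⁻¹ * y)
    (h2 : W a b (p n) x ≤ m n * y) :
    MM m p x ≤ 4 * y ∧ ∀ k, k < n → PS (p k) (MM m p) x ≤ 4 * y := by
  have hn1 : ((n : ℝ≥0∞) + 1) ≠ 0 := by simp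
  have hn2 : ((n : ℝ≥0∞) + 1) ≠ ∞ := by finiteness
  have hle : ((n : ℝ≥0∞) + 1)⁻¹ * y ≤ y := by
    refine mul_le_of_le_one_left bot_le (ENNReal.inv_le_one.2 ?_)
    exact le_add_self
  have hsum : (n : ℝ≥0∞) * (((n : ℝ≥0∞) + 1)⁻¹ * y) + ((n : ℝ≥0∞) + 1)⁻¹ * y = y := by
    rw [← add_one_mul, ← mul_assoc, ENNReal.mul_inv_cancel hn1 hn2, one_mul]
  have hlast : 2 * (m n)⁻¹ * (m n * y) = 2 * y := by
    rw [mul_assoc, ← mul_assoc (m n)⁻¹, ENNReal.inv_mul_cancel (h.ne_zero n) (h.ne_top n), one_mul]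
  have e : Finset.Icc 0 n = insert n (Finset.range n) := by
    ext i
    rw [Finset.mem_insert, Finset.mem_Icc, Finset.mem_range]
    omega
  constructor
  · refine (top h hL x hx).trans ?_
    rw [e, Finset.sum_insert (by simp)]
    calc (⨆ i, x i) + (cf m n n * W a b (p n) x + ∑ j ∈ Finset.range n, cf m n j * W a b (p j) x) ≤
        y + (2 * (m n)⁻¹ * (m n * y) + ∑ j ∈ Finset.range n, (((n : ℝ≥0∞) + 1)⁻¹ * y)) := by
          refine add_le_add h0 (add_le_add ?_ (Finset.sum_le_sum fun j hj => ?_))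
          · rw [cf, if_pos rfl]
            gcongr
          · rw [Finset.mem_range] at hj
            rw [cf, if_neg (by omega), one_mul]
            exact h1 j hj
      _ ≤ y + (2 * y + y) := by
          rw [hlast, Finset.sum_const, Finset.card_range, nsmul_eq_mul]
          gcongr
          conv_rhs => rw [← hsum]
          exact le_self_add
      _ = 4 * y := by ring
  · intro k hk
    refine (topPS h hL x hx k).trans ?_
    rw [e, Finset.sum_insert (by simp)]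
    calc W a b (p k) x + (cf m n n * W a b (min (p n) (p k)) x +
          ∑ j ∈ Finset.range n, cf m n j * W a b (min (p j) (p k)) x) ≤
        y + (2 * (m n)⁻¹ * (m n * y) + ∑ j ∈ Finset.range n, (((n : ℝ≥0∞) + 1)⁻¹ * y)) := by
          refine add_le_add ((h1 k hk).trans hle)
            (add_le_add ?_ (Finset.sum_le_sum fun j hj => ?_))
          · rw [cf, if_pos rfl, min_eq_left (h.anti hk.le)]
            gcongr
          · rw [Finset.mem_range] at hj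
            rw [cf, if_neg (by omega), one_mul]
            rcases le_total j k with hjk | hjk
            · rw [min_eq_right (h.anti hjk)]
              exact h1 k hk
            · rw [min_eq_left (h.anti hjk)]
              exact h1 j hj
      _ ≤ y + (2 * y + y) := by
          rw [hlast, Finset.sum_const, Finset.card_range, nsmul_eq_mul]
          gcongr
          conv_rhs => rw [← hsum]
          exact le_self_add
      _ = 4 * y := by ring

/-! ### the blocks -/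

/-- the start of the block of the coordinate `r` -/
def lam (κ N : ℕ → ℕ) : ℕ → ℕ
  | 0 => 0
  | r + 1 => lam κ N r + N (bl κ r)

/-- the coefficient -/
def cn (m : ℕ → ℝ≥0∞) (p : ℕ → ℝ) (N : ℕ → ℕ) (n : ℕ) : ℝ≥0 :=
  (m n).toNNReal / (N n : ℝ≥0) ^ (1 / p n)

variable {κ N : ℕ → ℕ}

theorem lam_mono (hN : ParH m p κ N) : StrictMono (lam κ N) := by
  refine strictMono_nat_of_lt_succ fun r => ?_
  have := hN.pos (bl κ r)
  rw [lam]
  omega

theorem cn_coe (h : Par m p) (hN : ParH m p κ N) (n : ℕ) :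
    ((cn m p N n : ℝ≥0) : ℝ≥0∞) = m n * ((N n : ℝ≥0∞) ^ (1 / p n))⁻¹ := by
  have h1 : (N n : ℝ≥0) ≠ 0 := by
    have := hN.pos n
    exact_mod_cast (by omega : N n ≠ 0)
  have hp : 0 < 1 / p n := one_div_pos.2 (h.pos n)
  unfold cn
  rw [ENNReal.coe_div (by
    intro h0
    rw [NNReal.rpow_eq_zero_iff] at h0
    exact h1 h0.1), ENNReal.coe_toNNReal (h.ne_top n), ENNReal.coe_rpow_of_nonneg _ hp.le,
    ENNReal.coe_natCast, div_eq_mul_inv]

theorem sum_blocks (lm : ℕ → ℕ) (hlm : StrictMono lm) (f : ℕ → ℝ≥0∞) (a b : ℕ) (hab : a ≤ b) :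
    ∑ l ∈ Finset.Ico (lm a) (lm b), f (bl lm l) =
      ∑ r ∈ Finset.Ico a b, ((lm (r + 1) - lm r : ℕ) : ℝ≥0∞) * f r := by
  induction b, hab using Nat.le_induction with
  | base => simp
  | succ b hab ih =>
    rw [← Finset.sum_Ico_consecutive _ (hlm.monotone hab) (hlm.monotone (Nat.le_succ b)), ih,
      Finset.sum_Ico_succ_top hab]
    congr 1
    have : ∀ l ∈ Finset.Ico (lm b) (lm (b + 1)), f (bl lm l) = f b := by
      intro l hl
      rw [Finset.mem_Ico] at hl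
      rw [bl_eq hlm hl.1 hl.2]
    rw [Finset.sum_congr rfl this, Finset.sum_const, Nat.card_Ico, nsmul_eq_mul]

end E7

open E7 in
/-- piece E7 -/
theorem st_E7 (he2 : St_E2) (he4 : St_E4) (he5 : St_E5) : St_E7 := by
  intro m p κ N h hκ hκ0 hN
  have hlam := lam_mono hN (κ := κ) (p := p) (m := m)
  set lm := lam κ N with hlm
  have hlm0 : lm 0 = 0 := rfl
  have hNpos : ∀ n, (N n : ℝ≥0∞) ≠ 0 := by
    intro n
    have := hN.pos n
    exact_mod_cast (by omega : N n ≠ 0)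
  have hNtop : ∀ n, (N n : ℝ≥0∞) ≠ ∞ := fun n => ENNReal.natCast_ne_top _
  refine ⟨lm, fun r => cn m p N (bl κ r), hlam, rfl, ?_, ?_⟩
  · intro r h0
    change cn m p N (bl κ r) = 0 at h0
    have h1 := cn_coe h hN (bl κ r)
    rw [h0, ENNReal.coe_zero] at h1
    have h2 : m (bl κ r) * ((N (bl κ r) : ℝ≥0∞) ^ (1 / p (bl κ r)))⁻¹ ≠ 0 := by
      refine mul_ne_zero (h.ne_zero _) (ENNReal.inv_ne_zero.2 ?_)
      exact ENNReal.rpow_ne_top_of_nonneg (one_div_pos.2 (h.pos _)).le (hNtop _)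
    exact h2 h1.symm
  intro t
  set ζ : ℕ → ℝ≥0∞ := fun l => (cn m p N (bl κ (bl lm l)) : ℝ≥0∞) * t (bl lm l) with hζ
  set s : ℕ → ℕ := fun n => lm (κ n) with hs
  have hsm : StrictMono s := hlam.comp hκ
  have hs0 : s 0 = 0 := by rw [hs]; simp only [hκ0, hlm0]
  set x : ℕ → ℝ≥0∞ := HH p κ t with hx
  -- lengths
  have hlen : ∀ n r, κ n ≤ r → r < κ (n + 1) → lm (r + 1) - lm r = N n := by
    intro n r h1 h2
    rw [hlm, lam, bl_eq hκ h1 h2]
    omega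
  have hsum : ∀ n (f : ℕ → ℝ≥0∞), ∑ l ∈ Finset.Ico (s n) (s (n + 1)), f (bl lm l) =
      (N n : ℝ≥0∞) * ∑ r ∈ Finset.Ico (κ n) (κ (n + 1)), f r := by
    intro n f
    rw [hs]
    simp only
    rw [sum_blocks lm hlam f _ _ (hκ.monotone (Nat.le_succ n)), Finset.mul_sum]
    refine Finset.sum_congr rfl fun r hr => ?_
    rw [Finset.mem_Ico] at hr
    rw [hlen n r hr.1 hr.2]
  have hlenL : ∀ n, s (n + 1) - s n = (κ (n + 1) - κ n) * N n := by
    intro n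
    have h1 := hsum n (fun _ => 1)
    simp only [Finset.sum_const, Nat.card_Ico, nsmul_eq_mul, mul_one] at h1
    rw [← Nat.cast_mul] at h1
    have h2 : s (n + 1) - s n = N n * (κ (n + 1) - κ n) := by exact_mod_cast h1
    rw [h2, mul_comm]
  -- window
  have hSup : ∀ n, Sup (s n) (s (n + 1)) (res (s n) (s (n + 1)) ζ) := by
    intro n i hi
    rw [res_apply, if_neg hi]
  -- norms in the window
  have hW : ∀ n (r : ℝ), 0 < r → W (s n) (s (n + 1)) r (res (s n) (s (n + 1)) ζ) =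
      (N n : ℝ≥0∞) ^ (1 / r) * ((m n * ((N n : ℝ≥0∞) ^ (1 / p n))⁻¹) *
        (∑ i ∈ Finset.Ico (κ n) (κ (n + 1)), (t i : ℝ≥0∞) ^ r) ^ (1 / r)) := by
    intro n r hr
    unfold W
    have h1 : ∑ i ∈ Finset.Ico (s n) (s (n + 1)), res (s n) (s (n + 1)) ζ i ^ r =
        ∑ i ∈ Finset.Ico (s n) (s (n + 1)),
          (fun q => ((cn m p N n : ℝ≥0∞) * t q) ^ r) (bl lm i) := by
      refine Finset.sum_congr rfl fun i hi => ?_
      rw [Finset.mem_Ico] at hi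
      rw [res_apply, if_pos hi, hζ]
      simp only
      have h2 : bl κ (bl lm i) = n := by
        have h3 := bl_comp hlam hlm0 hκ hκ0 i
        rw [← h3]
        exact bl_eq hsm hi.1 hi.2
      rw [h2]
    rw [h1, hsum n (fun q => ((cn m p N n : ℝ≥0∞) * t q) ^ r), ENNReal.mul_rpow_of_nonneg _ _ (by positivity), ← cn_coe h hN n]
    congr 1
    exact mink_smul _ _ _ hr
  have hWn : ∀ n, W (s n) (s (n + 1)) (p n) (res (s n) (s (n + 1)) ζ) = m n * x n := by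
    intro n
    rw [hW n (p n) (h.pos n), hx]
    unfold HH
    have h1 : (N n : ℝ≥0∞) ^ (1 / p n) ≠ 0 :=
      (ENNReal.rpow_pos (pos_iff_ne_zero.2 (hNpos n)) (hNtop n)).ne'
    have h2 : (N n : ℝ≥0∞) ^ (1 / p n) ≠ ∞ :=
      ENNReal.rpow_ne_top_of_nonneg (one_div_pos.2 (h.pos _)).le (hNtop _)
    set T := (∑ i ∈ Finset.Ico (κ n) (κ (n + 1)), (t i : ℝ≥0∞) ^ p n) ^ (1 / p n)
    calc (N n : ℝ≥0∞) ^ (1 / p n) * ((m n * ((N n : ℝ≥0∞) ^ (1 / p n))⁻¹) * T) =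
        ((N n : ℝ≥0∞) ^ (1 / p n) * ((N n : ℝ≥0∞) ^ (1 / p n))⁻¹) * (m n * T) := by ring
      _ = m n * T := by rw [ENNReal.mul_inv_cancel h1 h2, one_mul]
  have hWl : ∀ n l, l < n → W (s n) (s (n + 1)) (p l) (res (s n) (s (n + 1)) ζ) ≤
      ((n : ℝ≥0∞) + 1)⁻¹ * x n := by
    intro n l hl
    rw [hW n (p l) (h.pos l), hx]
    unfold HH
    have hpl : p n ≤ p l := h.anti hl.le
    have hT : (∑ i ∈ Finset.Ico (κ n) (κ (n + 1)), (t i : ℝ≥0∞) ^ p l) ^ (1 / p l) ≤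
        (∑ i ∈ Finset.Ico (κ n) (κ (n + 1)), (t i : ℝ≥0∞) ^ p n) ^ (1 / p n) :=
      lp_anti _ _ (h.pos n) hpl
    set T := (∑ i ∈ Finset.Ico (κ n) (κ (n + 1)), (t i : ℝ≥0∞) ^ p n) ^ (1 / p n)
    have hsplit : (N n : ℝ≥0∞) ^ (1 / p n) =
        (N n : ℝ≥0∞) ^ (1 / p n - 1 / p l) * (N n : ℝ≥0∞) ^ (1 / p l) := by
      rw [← ENNReal.rpow_add _ _ (hNpos n) (hNtop n), sub_add_cancel]
    have h2 := hN.h2 n l hl
    have a1 : (N n : ℝ≥0∞) ^ (1 / p l) ≠ 0 :=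
      (ENNReal.rpow_pos (pos_iff_ne_zero.2 (hNpos n)) (hNtop n)).ne'
    have a2 : (N n : ℝ≥0∞) ^ (1 / p l) ≠ ∞ :=
      ENNReal.rpow_ne_top_of_nonneg (one_div_pos.2 (h.pos _)).le (hNtop _)
    set A := (N n : ℝ≥0∞) ^ (1 / p l)
    set E := (N n : ℝ≥0∞) ^ (1 / p n - 1 / p l)
    have e1 : E ≠ 0 := by
      intro h0
      rw [h0] at h2
      have : ((n : ℝ≥0∞) + 1) * m n = 0 := le_antisymm h2 bot_le
      rcases mul_eq_zero.1 this with h3 | h3
      · simp at h3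
      · exact h.ne_zero n h3
    have e2 : E ≠ ∞ := by
      refine ENNReal.rpow_ne_top_of_nonneg ?_ (hNtop _)
      have := one_div_le_one_div_of_le (h.pos n) hpl
      linarith
    have key : A * (m n * (E * A)⁻¹) ≤ ((n : ℝ≥0∞) + 1)⁻¹ := by
      rw [ENNReal.mul_inv (Or.inl e1) (Or.inl e2)]
      have : A * (m n * (E⁻¹ * A⁻¹)) = (A * A⁻¹) * (m n * E⁻¹) := by ring
      rw [this, ENNReal.mul_inv_cancel a1 a2, one_mul]
      rw [ENNReal.le_inv_iff_mul_le]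
      calc m n * E⁻¹ * ((n : ℝ≥0∞) + 1) = (((n : ℝ≥0∞) + 1) * m n) * E⁻¹ := by ring
        _ ≤ E * E⁻¹ := by gcongr
        _ = 1 := ENNReal.mul_inv_cancel e1 e2
    rw [hsplit]
    calc A * ((m n * (E * A)⁻¹) *
          (∑ i ∈ Finset.Ico (κ n) (κ (n + 1)), (t i : ℝ≥0∞) ^ p l) ^ (1 / p l)) ≤
        A * ((m n * (E * A)⁻¹) * T) := by gcongr
      _ = (A * (m n * (E * A)⁻¹)) * T := by ring
      _ ≤ _ := by gcongr
  -- the sup
  have hsup : ∀ n, (⨆ i, res (s n) (s (n + 1)) ζ i) ≤ x n := by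
    intro n
    refine iSup_le fun i => ?_
    rw [res_apply]
    split_ifs with hi
    · have h2 : bl κ (bl lm i) = n := by
        have h3 := bl_comp hlam hlm0 hκ hκ0 i
        rw [← h3]
        exact bl_eq hsm hi.1 hi.2
      rw [hζ]
      simp only
      rw [h2]
      have hc : ((cn m p N n : ℝ≥0) : ℝ≥0∞) ≤ 1 := by
        rw [cn_coe h hN n]
        have h1 := hN.h1 n
        have b1 : (N n : ℝ≥0∞) ^ (1 / p n) ≠ 0 :=
          (ENNReal.rpow_pos (pos_iff_ne_zero.2 (hNpos n)) (hNtop n)).ne'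
        have b2 : (N n : ℝ≥0∞) ^ (1 / p n) ≠ ∞ :=
          ENNReal.rpow_ne_top_of_nonneg (one_div_pos.2 (h.pos _)).le (hNtop _)
        calc m n * ((N n : ℝ≥0∞) ^ (1 / p n))⁻¹ ≤
            (N n : ℝ≥0∞) ^ (1 / p n) * ((N n : ℝ≥0∞) ^ (1 / p n))⁻¹ := by gcongr
          _ = 1 := ENNReal.mul_inv_cancel b1 b2
      have hb := bl_spec hκ hκ0 (bl lm i)
      rw [h2] at hb
      have ht : (t (bl lm i) : ℝ≥0∞) ≤ x n := by
        rw [hx]
        unfold HH
        have h1 : (t (bl lm i) : ℝ≥0∞) ^ p n ≤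
            ∑ i ∈ Finset.Ico (κ n) (κ (n + 1)), (t i : ℝ≥0∞) ^ (p n) :=
          Finset.single_le_sum (f := fun i => (t i : ℝ≥0∞) ^ p n) (fun _ _ => bot_le)
            (Finset.mem_Ico.2 hb)
        have h2 := ENNReal.rpow_le_rpow h1 (one_div_pos.2 (h.pos n)).le
        rwa [← ENNReal.rpow_mul, mul_one_div_cancel (h.pos n).ne', ENNReal.rpow_one] at h2
      calc (cn m p N n : ℝ≥0∞) * t (bl lm i) ≤ 1 * x n := by gcongr
        _ = x n := one_mul _
    · exact bot_le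
  -- the condition on the lengths
  have hL : ∀ n, (m (n + 1))⁻¹ * ((s (n + 1) - s n : ℕ) : ℝ≥0∞) ^ (1 - 1 / p n) ≤
      (2 ^ (n + 4))⁻¹ * (m n)⁻¹ := by
    intro n
    rw [hlenL n]
    have h3 := hN.h3 n
    set P := (((κ (n + 1) - κ n) * N n : ℕ) : ℝ≥0∞) ^ (1 - 1 / p n)
    have t0 : (2 : ℝ≥0∞) ^ (n + 4) ≠ 0 := by positivity
    have t1 : (2 : ℝ≥0∞) ^ (n + 4) ≠ ∞ := by finiteness
    rw [← ENNReal.mul_inv (Or.inl t0) (Or.inl t1), ENNReal.le_inv_iff_mul_le]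
    calc (m (n + 1))⁻¹ * P * (2 ^ (n + 4) * m n) = (m (n + 1))⁻¹ * (2 ^ (n + 4) * m n * P) := by
          ring
      _ ≤ (m (n + 1))⁻¹ * m (n + 1) := by gcongr
      _ = 1 := ENNReal.inv_mul_cancel (h.ne_zero _) (h.ne_top _)
  have hL1 : ∀ n, (m (n + 1))⁻¹ * ((s (n + 1) - s n : ℕ) : ℝ≥0∞) ^ (1 - 1 / p n) ≤ (m n)⁻¹ := by
    intro n
    refine (hL n).trans (mul_le_of_le_one_left bot_le (ENNReal.inv_le_one.2 ?_))
    exact one_le_pow₀ one_le_two
  have hfin := fun n => fin_bounds h (hL1 n) _ (hSup n) (x n) (hsup n) (hWl n) (hWn n).le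
  constructor
  · have h4 := he4 m p h s (fun n => n) ζ (fun n => 4 * x n) 1 hsm hs0 strictMono_id le_rfl
      (fun n => (hfin n).1) (fun n k hk => by
        rw [one_mul]
        exact (hfin n).2 k hk) (fun n => ?_)
    · rw [(nrm_MM h).smul] at h4
      refine h4.trans (le_of_eq ?_)
      rw [← mul_assoc]
      congr 1
      norm_num
    · rw [tsum_eq (hSup n)]
      have h5 : ∑ i ∈ Finset.Ico (s n) (s (n + 1)), res (s n) (s (n + 1)) ζ i ≤
          ((s (n + 1) - s n : ℕ) : ℝ≥0∞) ^ (1 - 1 / p n) *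
            W (s n) (s (n + 1)) (p n) (res (s n) (s (n + 1)) ζ) := hoelder (h.one_lt n).le _
      rw [hWn n] at h5
      refine h5.trans ?_
      have h6 := hL n
      set P := ((s (n + 1) - s n : ℕ) : ℝ≥0∞) ^ (1 - 1 / p n)
      have h7 : P * m n ≤ (2 ^ (n + 4))⁻¹ * m (n + 1) := by
        calc P * m n = ((m (n + 1))⁻¹ * m (n + 1)) * (P * m n) := by
              rw [ENNReal.inv_mul_cancel (h.ne_zero _) (h.ne_top _), one_mul]
          _ = ((m (n + 1))⁻¹ * P) * (m (n + 1) * m n) := by ring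
          _ ≤ ((2 ^ (n + 4))⁻¹ * (m n)⁻¹) * (m (n + 1) * m n) := by gcongr
          _ = ((m n)⁻¹ * m n) * ((2 ^ (n + 4))⁻¹ * m (n + 1)) := by ring
          _ = _ := by rw [ENNReal.inv_mul_cancel (h.ne_zero _) (h.ne_top _), one_mul]
      calc P * (m n * x n) = (P * m n) * x n := by ring
        _ ≤ ((2 ^ (n + 4))⁻¹ * m (n + 1)) * x n := by gcongr
        _ ≤ (2⁻¹ ^ (n + 1) * m (n + 1)) * (1 * x n) := by
            rw [one_mul, ← ENNReal.inv_pow]
            gcongr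
            · exact one_le_two
            · omega
        _ ≤ (2⁻¹ ^ (n + 1) * m (n + 1)) * (4 * x n) := by
            gcongr
            norm_num
  · refine le_trans ((nrm_MM h).mono fun n => ?_) (he5 m p h s ζ hsm)
    have h2 := he2 m p h n (res (s n) (s (n + 1)) ζ)
    have h3 : W (s n) (s (n + 1)) (p n) (res (s n) (s (n + 1)) ζ) ≤
        PS (p n) (MM m p) (res (s n) (s (n + 1)) ζ) := by
      refine le_trans ?_ (sum_rpow_le_PS (h.pos n) (nrm_MM h).zero (Finset.Ico (s n) (s (n + 1)))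
        (fun i => i) (fun i => i + 1) ?_ _)
      · unfold W
        refine ENNReal.rpow_le_rpow (Finset.sum_le_sum fun i _ => ?_)
          (one_div_pos.2 (h.pos n)).le
        refine ENNReal.rpow_le_rpow ?_ (h.pos n).le
        refine le_trans ?_ ((nrm_MM h).sup _ i)
        rw [res_apply i, if_pos ⟨le_rfl, Nat.lt_succ_self i⟩]
      · intro i _ j _ hij k h1 h2 h3 h4
        omega
    rw [hWn n] at h3
    have h4 := h3.trans h2
    exact (ENNReal.mul_le_mul_iff_right (h.ne_zero n) (h.ne_top n)).1 h4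

end Run7.h157.G
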