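import Pool.Agent.Run7.h157.G.E6
import Pool.Agent.Run7.h157.G.E4

/-!
MP_e76fc4_an: piece E8 (assembly of E4, E5, E6, E7).
-/

noncomputable section

namespace Run7.h157.G

open Set Filter Topology
open scoped ENNReal NNReal

theorem tsum_res_ne_top (a b : ℕ) {ζ : ℕ → ℝ≥0∞} (hζ : ∀ i, ζ i ≠ ∞) :
    ∑' i, res a b ζ i ≠ ∞ := by
  rw [tsum_eq_sum (s := Finset.range b)]
  · rw [ENNReal.sum_ne_top]
    intro i _
    rw [res_apply]
    split_ifs
    · exact hζ i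
    · exact ENNReal.zero_ne_top
  · intro i hi
    rw [Finset.mem_range] at hi
    rw [res_apply, if_neg (by omega)]

/-- the sequence of averages -/
theorem exists_seq (hE6 : St_E6) {m : ℕ → ℝ≥0∞} {p : ℕ → ℝ} (h : Par m p)
    {s : ℕ → ℕ} {ζ : ℕ → ℝ≥0∞} (hs : StrictMono s) (hs0 : s 0 = 0) (hζ : ∀ i, ζ i ≠ ∞)
    (hne : ∀ n, ∃ i, s n ≤ i ∧ i < s (n + 1) ∧ ζ i ≠ 0) :
    ∃ (ν j : ℕ → ℕ) (c : ℕ → ℝ≥0), StrictMono ν ∧ ν 0 = 0 ∧ StrictMono j ∧
      ∀ r, 1 / 2 ≤ MM m p (res (s (ν r)) (s (ν (r + 1))) (fun i => (c (bl s i) : ℝ≥0∞) * ζ i)) ∧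
        MM m p (res (s (ν r)) (s (ν (r + 1))) (fun i => (c (bl s i) : ℝ≥0∞) * ζ i)) ≤ 1 ∧
        (∀ k, k < j r → PS (p k) (MM m p)
          (res (s (ν r)) (s (ν (r + 1))) (fun i => (c (bl s i) : ℝ≥0∞) * ζ i)) ≤ 3) ∧
        ∑' i, res (s (ν r)) (s (ν (r + 1))) (fun i => (c (bl s i) : ℝ≥0∞) * ζ i) i ≤
          2⁻¹ ^ (r + 1) * m (j (r + 1)) := by
  have hF := nrm_MM h
  choose n1 cf h1 h2 h3 h4 h5 using hE6 m p h s ζ hs hs0 hζ hne
  have hjn : ∀ j n0 r : ℕ, ∃ j' : ℕ, j < j' ∧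
      ∑' i, res (s n0) (s (n1 j n0)) (fun i => (cf j n0 (bl s i) : ℝ≥0∞) * ζ i) i ≤
        2⁻¹ ^ (r + 1) * m j' := by
    intro j n0 r
    set σ := ∑' i, res (s n0) (s (n1 j n0)) (fun i => (cf j n0 (bl s i) : ℝ≥0∞) * ζ i) i with hσ
    have hσt : σ ≠ ∞ := tsum_res_ne_top _ _ fun i => ENNReal.mul_ne_top ENNReal.coe_ne_top (hζ i)
    have hlt : 2 ^ (r + 1) * σ < ∞ := (ENNReal.mul_ne_top (by simp) hσt).lt_top
    obtain ⟨j', hj1, hj2⟩ := ((h.tend_m.eventually (lt_mem_nhds hlt)).and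
      (eventually_gt_atTop j)).exists
    refine ⟨j', hj2, ?_⟩
    calc σ = 2⁻¹ ^ (r + 1) * (2 ^ (r + 1) * σ) := by
          rw [← mul_assoc, ← mul_pow, ENNReal.inv_mul_cancel (by norm_num) (by norm_num), one_pow,
            one_mul]
      _ ≤ _ := by gcongr
  choose jn hjn1 hjn2 using hjn
  let st : ℕ → ℕ × ℕ := fun r => Nat.rec (0, 0) (fun r x => (jn x.1 x.2 r, n1 x.1 x.2)) r
  have st0 : st 0 = (0, 0) := rfl
  have stS : ∀ r, st (r + 1) = (jn (st r).1 (st r).2 r, n1 (st r).1 (st r).2) := fun r => rfl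
  set ν : ℕ → ℕ := fun r => (st r).2 with hν
  set j : ℕ → ℕ := fun r => (st r).1 with hj
  have hνS : ∀ r, ν (r + 1) = n1 (j r) (ν r) := fun r => by
    simp only [hν, hj]; rw [stS]
  have hjS : ∀ r, j (r + 1) = jn (j r) (ν r) r := fun r => by
    simp only [hν, hj]; rw [stS]
  have hνm : StrictMono ν := strictMono_nat_of_lt_succ fun r => by
    rw [hνS]; exact h1 _ _
  have hν0 : ν 0 = 0 := rfl
  have hjm : StrictMono j := strictMono_nat_of_lt_succ fun r => by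
    rw [hjS]; exact hjn1 _ _ _
  refine ⟨ν, j, fun n => cf (j (bl ν n)) (ν (bl ν n)) n, hνm, hν0, hjm, ?_⟩
  intro r
  have e1 : res (s (ν r)) (s (ν (r + 1)))
      (fun i => (cf (j (bl ν (bl s i))) (ν (bl ν (bl s i))) (bl s i) : ℝ≥0∞) * ζ i) =
      fun i => (cf (j r) (ν r) (bl s i) : ℝ≥0∞) * ζ i := by
    ext i
    rw [res_apply]
    by_cases hi : s (ν r) ≤ i ∧ i < s (ν (r + 1))
    · rw [if_pos hi]
      have := (bl_mem hs hs0 (ν r) (ν (r + 1)) i).2 hi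
      rw [(bl_eq_iff hνm hν0 r (bl s i)).2 this]
    · rw [if_neg hi]
      have hc : cf (j r) (ν r) (bl s i) = 0 := by
        by_contra hc
        have := h2 (j r) (ν r) (bl s i) hc
        rw [← hνS] at this
        exact hi ((bl_mem hs hs0 (ν r) (ν (r + 1)) i).1 this)
      rw [hc]; simp
  have e2 : res (s (ν r)) (s (n1 (j r) (ν r))) (fun i => (cf (j r) (ν r) (bl s i) : ℝ≥0∞) * ζ i) =
      fun i => (cf (j r) (ν r) (bl s i) : ℝ≥0∞) * ζ i := by
    ext i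
    rw [res_apply]
    by_cases hi : s (ν r) ≤ i ∧ i < s (n1 (j r) (ν r))
    · rw [if_pos hi]
    · rw [if_neg hi]
      have hc : cf (j r) (ν r) (bl s i) = 0 := by
        by_contra hc
        have := h2 (j r) (ν r) (bl s i) hc
        exact hi ((bl_mem hs hs0 (ν r) (n1 (j r) (ν r)) i).1 this)
      rw [hc]; simp
  simp only
  rw [e1]
  refine ⟨h3 _ _, h4 _ _, h5 _ _, ?_⟩
  have := hjn2 (j r) (ν r) r
  rw [e2] at this
  rw [hjS]
  exact this

theorem E8_main (hE4 : St_E4) (hE5 : St_E5) (hE6 : St_E6) (hE7 : St_E7) : St_E8 := by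
  intro m p κ N h hκ hκ0 hN
  obtain ⟨lam, cc, hlam, hlam0, hcc, hE⟩ := hE7 m p κ N h hκ hκ0 hN
  have hF := nrm_MM h
  refine ⟨880, ?_⟩
  intro s ζ hs hs0 hζ hne
  obtain ⟨ν, j, c, hν, hν0, hj, hc⟩ := exists_seq hE6 h hs hs0 hζ hne
  set Z : ℕ → ℝ≥0∞ := fun i => (c (bl s i) : ℝ≥0∞) * ζ i with hZ
  have hsν : StrictMono (fun r => s (ν r)) := hs.comp hν
  have hsν0 : s (ν 0) = 0 := by rw [hν0, hs0]
  have key : ∀ T : ℕ → ℝ≥0,
      MM m p (fun r => (T r : ℝ≥0∞)) ≤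
        2 * MM m p (fun i => (T (bl ν (bl s i)) : ℝ≥0∞) * Z i) ∧
      MM m p (fun i => (T (bl ν (bl s i)) : ℝ≥0∞) * Z i) ≤ 22 * MM m p (fun r => (T r : ℝ≥0∞)) := by
    intro T
    set ζ' : ℕ → ℝ≥0∞ := fun i => (T (bl ν (bl s i)) : ℝ≥0∞) * Z i with hζ'
    have hres : ∀ r, res (s (ν r)) (s (ν (r + 1))) ζ' =
        fun i => (T r : ℝ≥0∞) * res (s (ν r)) (s (ν (r + 1))) Z i := by
      intro r
      ext i
      simp only [res_apply, hζ']
      split_ifs with hi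
      · rw [(bl_eq_iff hν hν0 r (bl s i)).2 ((bl_mem hs hs0 (ν r) (ν (r + 1)) i).2 hi)]
      · simp
    constructor
    · have h1 := hE5 m p h (fun r => s (ν r)) ζ' hsν
      have h2 : MM m p (fun r => (2 : ℝ≥0∞)⁻¹ * (T r : ℝ≥0∞)) ≤ MM m p ζ' := by
        refine le_trans (hF.mono fun r => ?_) h1
        rw [hres r, hF.smul, mul_comm]
        gcongr
        have := (hc r).1
        rwa [one_div] at this
      rw [hF.smul] at h2
      calc MM m p (fun r => (T r : ℝ≥0∞)) = 2 * (2⁻¹ * MM m p (fun r => (T r : ℝ≥0∞))) := by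
            rw [← mul_assoc, ENNReal.mul_inv_cancel (by norm_num) (by norm_num), one_mul]
        _ ≤ _ := by gcongr
    · have h1 := hE4 m p h (fun r => s (ν r)) j ζ' (fun r => (T r : ℝ≥0∞)) 3 hsν hsν0 hj
        (by norm_num) (fun r => ?_) (fun r k hk => ?_) (fun r => ?_)
      · refine h1.trans (le_of_eq ?_)
        norm_num
      · rw [hres r, hF.smul]
        calc (T r : ℝ≥0∞) * MM m p (res (s (ν r)) (s (ν (r + 1))) Z) ≤ (T r : ℝ≥0∞) * 1 := by
              gcongr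
              exact (hc r).2.1
          _ = _ := mul_one _
      · rw [hres r, PS_smul (h.pos k) hF, mul_comm]
        gcongr
        exact (hc r).2.2.1 k hk
      · rw [hres r, ENNReal.tsum_mul_left, mul_comm]
        gcongr
        exact (hc r).2.2.2
  refine ⟨fun r => ν (lam r), fun k => c k * cc (bl lam (bl ν k)), hν.comp hlam, ?_, ?_, ?_⟩
  · show ν (lam 0) = 0
    rw [hlam0, hν0]
  · intro r
    have h1 : ∃ k, ν (lam r) ≤ k ∧ k < ν (lam r + 1) ∧ c k ≠ 0 := by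
      by_contra hcon
      push Not at hcon
      have h2 := (hc (lam r)).1
      have h3 : res (s (ν (lam r))) (s (ν (lam r + 1))) Z = fun _ => 0 := by
        ext i
        rw [res_apply]
        split_ifs with hi
        · have h4 := (bl_mem hs hs0 (ν (lam r)) (ν (lam r + 1)) i).2 hi
          rw [hZ]
          simp only
          rw [hcon (bl s i) h4.1 h4.2]
          simp
        · rfl
      rw [h3, hF.zero] at h2
      simp at h2
    obtain ⟨k, h2, h3, h4⟩ := h1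
    refine ⟨k, h2, h3.trans_le (hν.monotone (hlam (Nat.lt_succ_self r))), ?_⟩
    exact mul_ne_zero h4 (hcc _)
  · intro t
    have e : (fun i => ((t (bl (fun r => ν (lam r)) (bl s i)) *
        (c (bl s i) * cc (bl lam (bl ν (bl s i)))) : ℝ≥0) : ℝ≥0∞) * ζ i) =
        fun i => (((fun r => cc (bl lam r) * t (bl lam r)) (bl ν (bl s i)) : ℝ≥0) : ℝ≥0∞) * Z i := by
      ext i
      rw [bl_comp hν hν0 hlam hlam0]
      simp only [hZ]
      push_cast
      ring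
    rw [e]
    obtain ⟨k1, k2⟩ := key (fun r => cc (bl lam r) * t (bl lam r))
    obtain ⟨k3, k4⟩ := hE t
    have e2 : (fun r => (((cc (bl lam r) * t (bl lam r) : ℝ≥0)) : ℝ≥0∞)) =
        fun l => (cc (bl lam l) : ℝ≥0∞) * t (bl lam l) := by
      ext l; push_cast; rfl
    rw [e2] at k1 k2
    constructor
    · refine k2.trans ?_
      calc 22 * MM m p (fun l => (cc (bl lam l) : ℝ≥0∞) * t (bl lam l))
          ≤ 22 * (40 * MM m p (HH p κ t)) := by gcongr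
        _ = _ := by rw [← mul_assoc]; norm_num
    · refine k4.trans (k1.trans ?_)
      gcongr
      norm_num

/-- E8 from E7 -/
theorem st_E8 (hE7 : St_E7) : St_E8 := E8_main st_E4 st_E5 st_E6 hE7

end Run7.h157.G
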