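import Mathlib
import Pool.Agent.Run7.h157.G.Iface

/-!
The final assembly.
-/

noncomputable section

namespace Run7.h157.G

open Set Filter Topology
open scoped ENNReal NNReal

theorem st_FIN (hLH : St_LH) (hWAL : St_WAL) (hTR : St_TR) (hPAR : St_PAR) (hE8 : St_E8)
    (hX1 : St_X1) (hZS : St_ZS) (hZL : St_ZL) (hX2 : St_X2) (hNA : St_NA) (hCAT : St_CAT)
    (hQEX : St_QEX) : St_FIN := by
  choose q0 hq0 hLHq using hLH
  obtain ⟨c, hc, hTR⟩ := hTR
  obtain ⟨C, hC, hNA⟩ := hNA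
  obtain ⟨D, N, κ, p, m, hκ0, hκ, hpar, hparH, hp0, hpq, hD, hG⟩ := hPAR q0 hq0 c hc
  choose U hU1 hU2 hU3 using fun n => hWAL (2 * D n)
  have hκm : StrictMono κ := strictMono_nat_of_lt_succ (fun n => by
    rw [hκ]; have := Nat.one_le_two_pow (n := 2 * D n); omega)
  have hp1 : ∀ n, 1 < p n := hpar.one_lt
  have hq2 : ∀ n, 2 ≤ 2 * p n := fun n => by linarith [hp1 n]
  have hbasis : ∀ n a (j : ℕ), lq (2 * p n)
      ((U n).mulVec (fun u => if (u : ℕ) < j then a u else 0)) ≤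
      2 * lq (2 * p n) ((U n).mulVec a) := by
    intro n a j
    have h1 := hU3 n (2 * p n) (hq2 n) a j
    have h2 : 0 ≤ lq (2 * p n) ((U n).mulVec a) := by
      unfold lq; positivity
    refine h1.trans ?_
    gcongr
    have h3 := hD n
    have h4 : 1 - 2 / (2 * p n) = 1 - 1 / p n := by
      have := (hpar.one_lt n)
      field_simp
    rw [h4]
    push_cast
    exact h3
  obtain ⟨hZ, hh, hal⟩ := hZS D κ (fun n => 2 * p n) U hκ0 hκ hq2 hU1 hbasis
  set nu : ℕ → (ℕ →₀ ℝ) → ℝ := fun n => zn (2 * p n) (κ n) (U n) with hnu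
  obtain ⟨X, i1, i2, i3, b, hb⟩ := hX1 m p κ nu 2 hpar hZ
  obtain ⟨C8, hC8⟩ := hE8 m p κ N hpar hκm hκ0 hparH
  refine ⟨X, i1, i2, i3, b, ?_, hQEX X b, ?_⟩
  · exact hX2 m p κ nu 2 C8 hpar hZ hC8 X b hb hh
  · refine hCAT X b κ (fun n => 2 ^ (2 * D n)) hκ0 (fun n => Nat.one_le_two_pow) hκ ?_
    intro K
    obtain ⟨n0, hn0⟩ := exists_nat_gt (C * K ^ 2)
    refine ⟨n0, ?_⟩
    intro n hn y z hy hz hty haz T hT1 hT2
    have h1 := hNA m p κ nu hpar hZ n (2 ^ (2 * D n)) (nA (2 * p n) (U n))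
      (c * (2 : ℝ) ^ ((D n : ℝ) * (1 - 1 / p n) / 2)) Nat.one_le_two_pow (hκ n) (hal n) ?_ ?_ X b hb
      y z hy hz hty haz K T hT1 hT2
    · have h2 := hG n
      have h3 : C * K ^ 2 * ((κ n : ℝ) + 1) < ((n : ℝ) + 1) * (κ n + 1) := by
        apply mul_lt_mul_of_pos_right _ (by positivity)
        have : (n0 : ℝ) ≤ n := by exact_mod_cast hn
        linarith
      linarith
    · intro n' hn'
      exact hZL (2 ^ (2 * D n)) (q0 (2 ^ (2 * D n))) (hLHq (2 ^ (2 * D n))) D κ (fun n => 2 * p n) U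
        hZ hκ n' (hq2 n') (hpq n n' hn')
    · intro J _ ξ b' g hg hmul
      have hs : (Fintype.card (Fin (2 ^ (2 * D n)))) = (2 ^ D n) ^ 2 := by
        rw [Fintype.card_fin, ← pow_mul, mul_comm]
      have hp2 : p n ≤ 2 := (hpar.anti (Nat.zero_le n)).trans hp0
      have h1 := hTR (2 ^ D n) (2 * p n) Nat.one_le_two_pow (hq2 n) (by linarith) (Fin (2 ^ (2 * D n)))
        (U n) hs ?_ ?_ J ξ b' g hg hmul
      · have h4 : ((2 ^ D n : ℕ) : ℝ) ^ (1 / 2 - 1 / (2 * p n)) =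
            (2 : ℝ) ^ ((D n : ℝ) * (1 - 1 / p n) / 2) := by
          push_cast
          rw [← Real.rpow_natCast, ← Real.rpow_mul (by norm_num)]
          congr 1
          have := hpar.one_lt n
          field_simp
        have h5 : ((2 ^ D n : ℕ) : ℝ) ^ 2 = ((2 ^ (2 * D n) : ℕ) : ℝ) := by
          push_cast
          rw [← pow_mul, mul_comm]
        rw [h4, h5] at h1
        exact h1
      · intro x
        have h6 : (U n).mulVec x ⬝ᵥ (U n).mulVec x = x ⬝ᵥ x := by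
          rw [Matrix.dotProduct_mulVec, ← Matrix.mulVec_transpose, Matrix.mulVec_mulVec, hU1,
            Matrix.one_mulVec]
        simpa [dotProduct, sq] using h6
      · intro i j
        rw [hU2 n i j, one_div]
        congr 1
        push_cast
        rw [mul_comm, pow_mul, Real.sqrt_sq (by positivity)]

end Run7.h157.G
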