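import Mathlib
import Pool.Agent.Run7.h157.G.Iface
import Pool.Agent.Run7.h157.G.E1

/-!
Piece NA: non-absorption.
-/

noncomputable section

namespace Run7.h157.G

open Set Filter Topology
open scoped ENNReal NNReal

section Zone

variable {κ : ℕ → ℕ} {nu : ℕ → (ℕ →₀ ℝ) → ℝ} {B : ℝ}

theorem ZoneSys.zero' (h : ZoneSys κ nu B) (n : ℕ) : nu n 0 = 0 := by
  have := h.smul n 0 0
  simpa using this

theorem ZoneSys.sum_le (h : ZoneSys κ nu B) (n : ℕ) {ι : Type*} (s : Finset ι)
    (f : ι → ℕ →₀ ℝ) : nu n (∑ i ∈ s, f i) ≤ ∑ i ∈ s, nu n (f i) := by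
  classical
  induction s using Finset.induction_on with
  | empty => simp [h.zero']
  | insert a s ha ih =>
    rw [Finset.sum_insert ha, Finset.sum_insert ha]
    exact (h.add n _ _).trans (by gcongr)

theorem ZoneSys.neg (h : ZoneSys κ nu B) (n : ℕ) (a : ℕ →₀ ℝ) : nu n (-a) = nu n a := by
  have := h.smul n (-1) a
  simpa using this

theorem ZoneSys.sub_le (h : ZoneSys κ nu B) (n : ℕ) (a b : ℕ →₀ ℝ) :
    nu n (a - b) ≤ nu n a + nu n b := by
  rw [sub_eq_add_neg]
  exact (h.add n _ _).trans (by rw [h.neg])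

theorem ZoneSys.eq_zero (h : ZoneSys κ nu B) (n : ℕ) (a : ℕ →₀ ℝ)
    (ha : ∀ i, κ n ≤ i → i < κ (n + 1) → a i = 0) : nu n a = 0 := by
  rw [h.loc n a 0 (by simpa using ha), h.zero']

/-- the block coordinate projections in the zones -/
theorem ZoneSys.coord_le (h : ZoneSys κ nu B) {z : ℕ → ℕ →₀ ℝ} (hz : IsBlock z) (n : ℕ)
    (a : ℕ →₀ ℝ) (j : ℕ) : nu n (a j • z j) ≤ 2 * B * nu n (lc z a) := by
  have h1 : a.filter (· < j + 1) = a.filter (· < j) + Finsupp.single j (a j) := by
    ext i
    rw [Finsupp.add_apply]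
    simp only [Finsupp.filter_apply, Finsupp.single_apply]
    rcases lt_trichotomy i j with hj | hj | hj
    · rw [if_pos (show i < j + 1 by omega), if_pos hj, if_neg (by omega), add_zero]
    · subst hj
      rw [if_pos (show i < i + 1 by omega), if_neg (lt_irrefl i), if_pos rfl, zero_add]
    · rw [if_neg (show ¬ i < j + 1 by omega), if_neg (show ¬ i < j by omega),
        if_neg (by omega), add_zero]
  have h2 : a j • z j = (lc z a).filter (· < prevTop z (j + 1)) -
      (lc z a).filter (· < prevTop z j) := by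
    rw [filter_lc_lt hz, filter_lc_lt hz, h1, map_add, add_sub_cancel_left]
    simp [lc]
  rw [h2]
  calc _ ≤ nu n ((lc z a).filter (· < prevTop z (j + 1))) +
        nu n ((lc z a).filter (· < prevTop z j)) := h.sub_le _ _ _
    _ ≤ B * nu n (lc z a) + B * nu n (lc z a) := add_le_add (h.basis _ _ _) (h.basis _ _ _)
    _ = _ := by ring

theorem ZoneSys.zone_unique (h : ZoneSys κ nu B) {n n' i : ℕ} (h1 : κ n ≤ i)
    (h2 : i < κ (n + 1)) (h3 : κ n' ≤ i) (h4 : i < κ (n' + 1)) : n = n' := by
  rcases lt_trichotomy n n' with hlt | hlt | hlt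
  · have := h.mono.monotone (show n + 1 ≤ n' from hlt)
    omega
  · exact hlt
  · have := h.mono.monotone (show n' + 1 ≤ n from hlt)
    omega

/-! ### the norm -/

variable {m : ℕ → ℝ≥0∞} {p : ℕ → ℝ}

theorem ZoneSys.exists_zero (h : ZoneSys κ nu B) (a : ℕ →₀ ℝ) : ∀ n, top a ≤ n → nu n a = 0 := by
  intro n hn
  apply h.eq_zero
  intro i hi _
  by_contra h2
  have h3 := lt_top (Finsupp.mem_support_iff.mpr h2)
  have h4 := h.mono.id_le n
  simp only [id] at h4
  omega

theorem MM_ne_top (hpar : Par m p) (h : ZoneSys κ nu B) (a : ℕ →₀ ℝ) :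
    MM m p (fun n => ENNReal.ofReal (nu n a ^ 2)) ≠ ∞ := by
  have h1 := (nrm_MM hpar).sum (fun n => ENNReal.ofReal (nu n a ^ 2))
  refine ne_top_of_le_ne_top ?_ h1
  rw [tsum_eq_sum (s := Finset.range (top a))]
  · exact ENNReal.sum_ne_top.mpr (fun _ _ => ENNReal.ofReal_ne_top)
  · intro n hn
    rw [Finset.mem_range, not_lt] at hn
    rw [h.exists_zero a n hn]
    simp

theorem ZNorm_mono (hpar : Par m p) (h : ZoneSys κ nu B) {a a' : ℕ →₀ ℝ} {c : ℝ} (hc : 0 ≤ c)
    (ha : ∀ n, nu n a ≤ c * nu n a') : ZNorm m p nu a ≤ c * ZNorm m p nu a' := by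
  have h1 : MM m p (fun n => ENNReal.ofReal (nu n a ^ 2)) ≤
      ENNReal.ofReal (c ^ 2) * MM m p (fun n => ENNReal.ofReal (nu n a' ^ 2)) := by
    rw [← (nrm_MM hpar).smul]
    apply (nrm_MM hpar).mono
    intro n
    rw [← ENNReal.ofReal_mul (by positivity)]
    apply ENNReal.ofReal_le_ofReal
    rw [← mul_pow]
    exact pow_le_pow_left₀ (h.nonneg n a) (ha n) 2
  have h2 : (MM m p (fun n => ENNReal.ofReal (nu n a ^ 2))).toReal ≤
      c ^ 2 * (MM m p (fun n => ENNReal.ofReal (nu n a' ^ 2))).toReal := by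
    have h3 := ENNReal.toReal_mono (ENNReal.mul_ne_top ENNReal.ofReal_ne_top
      (MM_ne_top hpar h a')) h1
    rwa [ENNReal.toReal_mul, ENNReal.toReal_ofReal (by positivity)] at h3
  unfold ZNorm
  calc _ ≤ Real.sqrt (c ^ 2 * (MM m p (fun n => ENNReal.ofReal (nu n a' ^ 2))).toReal) :=
        Real.sqrt_le_sqrt h2
    _ = _ := by rw [Real.sqrt_mul (by positivity), Real.sqrt_sq hc]

theorem nu_le_ZNorm (hpar : Par m p) (h : ZoneSys κ nu B) (n : ℕ) (a : ℕ →₀ ℝ) :
    nu n a ≤ ZNorm m p nu a := by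
  unfold ZNorm
  apply Real.le_sqrt_of_sq_le
  have h1 := (nrm_MM hpar).sup (fun n => ENNReal.ofReal (nu n a ^ 2)) n
  have h3 := ENNReal.toReal_mono (MM_ne_top hpar h a) h1
  rwa [ENNReal.toReal_ofReal (by positivity)] at h3

theorem ZNorm_le_nu (hpar : Par m p) (h : ZoneSys κ nu B) (n : ℕ) (a : ℕ →₀ ℝ)
    (ha : ∀ n', n' ≠ n → nu n' a = 0) : ZNorm m p nu a ≤ nu n a := by
  unfold ZNorm
  rw [Real.sqrt_le_left (h.nonneg n a)]
  have h1 := (nrm_MM hpar).sum (fun n => ENNReal.ofReal (nu n a ^ 2))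
  rw [tsum_eq_single n] at h1
  · have h3 := ENNReal.toReal_mono ENNReal.ofReal_ne_top h1
    rwa [ENNReal.toReal_ofReal (by positivity)] at h3
  · intro n' hn'
    rw [ha n' hn']
    simp

/-! ### the decomposition -/

theorem lc_apply_zero {z : ℕ → ℕ →₀ ℝ} {a : ℕ →₀ ℝ} {i : ℕ}
    (h : ∀ j, a j ≠ 0 → z j i = 0) : (lc z a) i = 0 := by
  simp only [lc, Finsupp.linearCombination_apply, Finsupp.sum, Finsupp.finsetSum_apply,
    Finsupp.smul_apply, smul_eq_mul]
  apply Finset.sum_eq_zero
  intro j hj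
  rw [h j (Finsupp.mem_support_iff.mp hj), mul_zero]

theorem decomp (h : ZoneSys κ nu 2) {n k : ℕ} (hZLH : ∀ n', n < n' → ZLH k n' κ nu)
    {z : ℕ → ℕ →₀ ℝ} (hz : IsBlock z) (hav : Avoids κ n z)
    (τ : (Fin k → ℝ) →ₗ[ℝ] (ℕ →₀ ℝ)) :
    ∃ (J : Type) (_ : Fintype J) (ξ : J → (Fin k → ℝ) →ₗ[ℝ] ℝ) (c : J → ℕ →₀ ℝ),
      (∀ x, lc z (τ x) = ∑ j, ξ j x • lc z (c j)) ∧
      ∀ θ : J → ℝ, (∀ j, |θ j| ≤ 1) → ∀ x n',
        nu n' (∑ j, (θ j * ξ j x) • lc z (c j)) ≤ (12 * κ n + 26) * nu n' (lc z (τ x)) := by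
  classical
  obtain ⟨l, hl1, hl2⟩ := hav
  have hlκ : l ≤ κ n := by
    rcases Nat.eq_zero_or_pos l with rfl | hl
    · exact Nat.zero_le _
    · obtain ⟨l', rfl⟩ : ∃ l', l = l' + 1 := ⟨l - 1, by omega⟩
      have h1 : top (z l') ≤ κ n := top_le (hl1 l' (Nat.lt_succ_self _))
      have h2 : l' + 1 ≤ prevTop z (l' + 1) := hz.strictMono.id_le _
      rw [prevTop_succ] at h2
      omega
  -- a bound for the supports
  obtain ⟨R, hR⟩ : ∃ R, ∀ x j, R ≤ j → τ x j = 0 := by
    refine ⟨Finset.univ.sup (fun u : Fin k => top (τ (Pi.single u 1))), fun x j hj => ?_⟩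
    have h1 : x = ∑ u, x u • (Pi.single u (1 : ℝ) : Fin k → ℝ) := by
      ext v
      simp [Finset.sum_apply, Pi.single_apply]
    rw [h1, map_sum, Finsupp.finsetSum_apply]
    apply Finset.sum_eq_zero
    intro u _
    rw [map_smul, Finsupp.smul_apply]
    have h2 : τ (Pi.single u 1) j = 0 := by
      by_contra h3
      have h4 := lt_top (Finsupp.mem_support_iff.mpr h3)
      have h5 : top (τ (Pi.single u 1)) ≤
        Finset.univ.sup (fun u : Fin k => top (τ (Pi.single u 1))) :=
        Finset.le_sup (f := fun u : Fin k => top (τ (Pi.single u 1))) (Finset.mem_univ u)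
      omega
    rw [h2, smul_zero]
  -- the blocks inside the later zones
  set P : ℕ → ℕ → Prop := fun n' j => n < n' ∧ ∀ i ∈ (z j).support, κ n' ≤ i ∧ i < κ (n' + 1)
    with hP
  set Q : ℕ → Prop := fun j => ∀ n', ¬ P n' j with hQ
  have hPu : ∀ {n1 n2 j}, P n1 j → P n2 j → n1 = n2 := by
    intro n1 n2 j h1 h2
    obtain ⟨i, hi⟩ := Finsupp.support_nonempty_iff.mpr (hz j).1
    exact h.zone_unique (h1.2 i hi).1 (h1.2 i hi).2 (h2.2 i hi).1 (h2.2 i hi).2
  set R' := prevTop z R with hR'
  have hPR : ∀ {n1 j}, j < R → P n1 j → n1 < R' := by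
    intro n1 j hj h1
    obtain ⟨i, hi⟩ := Finsupp.support_nonempty_iff.mpr (hz j).1
    have h2 := (h1.2 i hi).1
    have h3 : i < prevTop z (j + 1) := lt_top hi
    have h4 : prevTop z (j + 1) ≤ R' := hz.strictMono.monotone hj
    have h5 := h.mono.id_le n1
    simp only [id] at h5
    omega
  set δ : ℕ → (Fin k → ℝ) →ₗ[ℝ] (ℕ →₀ ℝ) := fun n' =>
    { toFun := fun x => lc z ((τ x).filter (P n'))
      map_add' := by intro x y; rw [map_add, Finsupp.filter_add, map_add]
      map_smul' := by intro c x; rw [map_smul, Finsupp.filter_smul, map_smul]; rfl } with hδ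
  have hδa : ∀ n' x, δ n' x = lc z ((τ x).filter (P n')) := fun _ _ => rfl
  have hδs : ∀ n' x, ∀ i ∈ (δ n' x).support, κ n' ≤ i ∧ i < κ (n' + 1) := by
    intro n' x i hi
    by_contra h1
    rw [Finsupp.mem_support_iff] at hi
    apply hi
    rw [hδa]
    apply lc_apply_zero
    intro j hj
    by_contra h2
    have h3 : P n' j := by
      by_contra h3
      exact hj (Finsupp.filter_apply_neg _ _ h3)
    exact h1 (h3.2 i (Finsupp.mem_support_iff.mpr h2))
  -- local decompositions
  have hloc : ∀ n', ∃ (r : ℕ) (η : Fin r → (Fin k → ℝ) →ₗ[ℝ] ℝ) (w : Fin r → (Fin k → ℝ)),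
      (∀ t, δ n' t = ∑ i, η i t • δ n' (w i)) ∧
      ∀ θ : Fin r → ℝ, (∀ i, |θ i| ≤ 1) → ∀ t,
        nu n' (∑ i, (θ i * η i t) • δ n' (w i)) ≤ 2 * nu n' (δ n' t) := by
    intro n'
    by_cases hn : n < n'
    · exact hZLH n' hn (δ n') (hδs n')
    · have h1 : ∀ t, δ n' t = 0 := by
        intro t
        rw [hδa]
        have : (τ t).filter (P n') = 0 := by
          rw [Finsupp.filter_eq_zero_iff]
          intro j hj
          exact absurd hj.1 hn
        rw [this, map_zero]
      refine ⟨0, fun _ => 0, fun _ => 0, fun t => by rw [h1]; simp, fun θ _ t => ?_⟩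
      rw [h1]
      simp [h.zero']
  choose r η w hw1 hw2 using hloc
  -- the other blocks
  set ξ : Fin R → (Fin k → ℝ) →ₗ[ℝ] ℝ :=
    fun j => if Q j then (Finsupp.lapply (R := ℝ) (j : ℕ)) ∘ₗ τ else 0 with hξ
  have hξa : ∀ (j : Fin R) x, ξ j x = if Q j then τ x j else 0 := by
    intro j x
    rw [hξ]
    dsimp only
    split_ifs <;> simp
  have hQpart : ∀ x, lc z ((τ x).filter Q) = ∑ j : Fin R, ξ j x • z j := by
    intro x
    have h1 : ∀ j ∈ ((τ x).filter Q).support, j ∈ Finset.range R := by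
      intro j hj
      rw [Finset.mem_range]
      by_contra h2
      rw [Finsupp.mem_support_iff, Finsupp.filter_apply, hR x j (not_lt.mp h2)] at hj
      simp at hj
    simp only [lc]
    rw [Finsupp.linearCombination_apply, Finsupp.sum_of_support_subset _ h1 _ (by simp),
      Finset.sum_range (fun j => ((τ x).filter Q) j • z j)]
    apply Finset.sum_congr rfl
    intro j _
    rw [hξa, Finsupp.filter_apply]
  have hQb : ∀ θ : Fin R → ℝ, (∀ j, |θ j| ≤ 1) → ∀ x n',
      nu n' (∑ j : Fin R, (θ j * ξ j x) • z j) ≤ 4 * (κ n + 2) * nu n' (lc z (τ x)) := by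
    intro θ hθ x n'
    set ν := nu n' (lc z (τ x)) with hν
    have hν0 : 0 ≤ ν := h.nonneg _ _
    set F : Finset (Fin R) := Finset.univ.filter
      (fun j => Q j ∧ ∃ i ∈ (z j).support, κ n' ≤ i ∧ i < κ (n' + 1)) with hF
    have hterm : ∀ j : Fin R, nu n' ((θ j * ξ j x) • z j) ≤ if j ∈ F then 4 * ν else 0 := by
      intro j
      by_cases hj : j ∈ F
      · rw [if_pos hj, h.smul, abs_mul, hξa, if_pos (Finset.mem_filter.mp hj).2.1, mul_assoc,
          ← h.smul]
        have h1 := h.coord_le hz n' (τ x) j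
        have h2 := h.nonneg n' (τ x j • z j)
        have h3 := hθ j
        have h4 : 0 ≤ |θ j| := abs_nonneg _
        nlinarith
      · rw [if_neg hj]
        apply le_of_eq
        by_cases hQj : Q j
        · apply h.eq_zero
          intro i hi1 hi2
          rw [Finsupp.smul_apply]
          by_contra h1
          apply hj
          rw [hF, Finset.mem_filter]
          refine ⟨Finset.mem_univ _, hQj, i, ?_, hi1, hi2⟩
          rw [Finsupp.mem_support_iff]
          intro h2
          rw [h2, smul_zero] at h1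
          exact h1 rfl
        · rw [hξa, if_neg hQj, mul_zero, zero_smul, h.zero']
    have hcard : (F.card : ℝ) ≤ κ n + 2 := by
      have h1 : F ⊆ Finset.univ.filter (fun j : Fin R => (j : ℕ) < l) ∪
          (Finset.univ.filter (fun j : Fin R =>
            (∃ i ∈ (z j).support, κ n' ≤ i) ∧ ∃ i ∈ (z j).support, i < κ n') ∪
          Finset.univ.filter (fun j : Fin R =>
            (∃ i ∈ (z j).support, i < κ (n' + 1)) ∧ ∃ i ∈ (z j).support, κ (n' + 1) ≤ i)) := by
        intro j hj
        obtain ⟨hQj, i, hi, hi1, hi2⟩ := (Finset.mem_filter.mp hj).2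
        rw [Finset.mem_union, Finset.mem_union, Finset.mem_filter, Finset.mem_filter,
          Finset.mem_filter]
        by_contra h2
        push Not at h2
        obtain ⟨h3, h4, h5⟩ := h2
        have h3 := h3 (Finset.mem_univ _)
        have h4 := h4 (Finset.mem_univ _) ⟨i, hi, hi1⟩
        have h5 := h5 (Finset.mem_univ _) ⟨i, hi, hi2⟩
        apply hQj n'
        refine ⟨?_, fun i' hi' => ⟨h4 i' hi', h5 i' hi'⟩⟩
        by_contra h6
        have h7 := hl2 j h3 i hi
        have h8 := h.mono.monotone (show n' + 1 ≤ n + 1 by omega)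
        omega
      have h2 : (Finset.univ.filter (fun j : Fin R => (j : ℕ) < l)).card ≤ l := by
        have := Finset.card_le_card_of_injOn (s := Finset.univ.filter (fun j : Fin R => (j : ℕ) < l))
          (t := Finset.range l) (fun j => (j : ℕ)) (by
            intro j hj
            simpa using hj) (fun a _ b _ hab => Fin.ext hab)
        simpa using this
      have h3 : (Finset.univ.filter (fun j : Fin R =>
            (∃ i ∈ (z j).support, κ n' ≤ i) ∧ ∃ i ∈ (z j).support, i < κ n')).card ≤ 1 := by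
        rw [Finset.card_le_one]
        intro j1 hj1 j2 hj2
        obtain ⟨⟨a1, ha1, hb1⟩, a2, ha2, hb2⟩ := (Finset.mem_filter.mp hj1).2
        obtain ⟨⟨c1, hc1, hd1⟩, c2, hc2, hd2⟩ := (Finset.mem_filter.mp hj2).2
        rcases lt_trichotomy j1 j2 with hlt | hlt | hlt
        · have := hz.lt (show (j1 : ℕ) < j2 from hlt) ha1 hc2
          omega
        · exact hlt
        · have := hz.lt (show (j2 : ℕ) < j1 from hlt) hc1 ha2
          omega
      have h4 : (Finset.univ.filter (fun j : Fin R =>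
            (∃ i ∈ (z j).support, i < κ (n' + 1)) ∧
              ∃ i ∈ (z j).support, κ (n' + 1) ≤ i)).card ≤ 1 := by
        rw [Finset.card_le_one]
        intro j1 hj1 j2 hj2
        obtain ⟨⟨a1, ha1, hb1⟩, a2, ha2, hb2⟩ := (Finset.mem_filter.mp hj1).2
        obtain ⟨⟨c1, hc1, hd1⟩, c2, hc2, hd2⟩ := (Finset.mem_filter.mp hj2).2
        rcases lt_trichotomy j1 j2 with hlt | hlt | hlt
        · have := hz.lt (show (j1 : ℕ) < j2 from hlt) ha2 hc1
          omega
        · exact hlt
        · have := hz.lt (show (j2 : ℕ) < j1 from hlt) hc2 ha1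
          omega
      have h5 : F.card ≤ κ n + 2 := by
        refine (Finset.card_le_card h1).trans ((Finset.card_union_le _ _).trans ?_)
        have h6 := Finset.card_union_le (Finset.univ.filter (fun j : Fin R =>
            (∃ i ∈ (z j).support, κ n' ≤ i) ∧ ∃ i ∈ (z j).support, i < κ n'))
          (Finset.univ.filter (fun j : Fin R =>
            (∃ i ∈ (z j).support, i < κ (n' + 1)) ∧ ∃ i ∈ (z j).support, κ (n' + 1) ≤ i))
        omega
      exact_mod_cast h5
    calc _ ≤ ∑ j : Fin R, nu n' ((θ j * ξ j x) • z j) := h.sum_le _ _ _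
      _ ≤ ∑ j : Fin R, (if j ∈ F then 4 * ν else 0) := Finset.sum_le_sum (fun j _ => hterm j)
      _ = F.card * (4 * ν) := by
          rw [Finset.sum_ite_mem, Finset.univ_inter, Finset.sum_const, nsmul_eq_mul]
      _ ≤ (κ n + 2) * (4 * ν) := by gcongr
      _ = _ := by ring
  have hδb : ∀ x n', nu n' (δ n' x) ≤ (4 * (κ n + 2) + 1) * nu n' (lc z (τ x)) := by
    intro x n'
    have h1 : nu n' (δ n' x) = nu n' (lc z (τ x) - lc z ((τ x).filter Q)) := by
      apply h.loc
      intro i hi1 hi2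
      have h2 : (lc z ((τ x).filter (P n') - (τ x - (τ x).filter Q))) i = 0 := by
        apply lc_apply_zero
        intro j hj
        rw [Finsupp.sub_apply, Finsupp.sub_apply, Finsupp.filter_apply, Finsupp.filter_apply] at hj
        by_contra h3
        by_cases hQj : Q j
        · rw [if_neg (hQj n'), if_pos hQj] at hj
          simp at hj
        · have h4 : ∃ n'', P n'' j := by
            by_contra h5
            exact hQj (fun n'' h6 => h5 ⟨n'', h6⟩)
          obtain ⟨n'', h5⟩ := h4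
          have h6 := h5.2 i (Finsupp.mem_support_iff.mpr h3)
          have h7 := h.zone_unique hi1 hi2 h6.1 h6.2
          subst h7
          rw [if_pos h5, if_neg hQj] at hj
          simp at hj
      rw [map_sub, map_sub, Finsupp.sub_apply, sub_eq_zero] at h2
      exact h2
    rw [h1]
    have h2 := hQb (fun _ => 1) (fun _ => by simp) x n'
    simp only [one_mul] at h2
    rw [← hQpart] at h2
    calc _ ≤ nu n' (lc z (τ x)) + nu n' (lc z ((τ x).filter Q)) := h.sub_le _ _ _
      _ ≤ nu n' (lc z (τ x)) + 4 * (κ n + 2) * nu n' (lc z (τ x)) := by gcongr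
      _ = _ := by ring
  refine ⟨Fin R ⊕ (Σ i : Fin R', Fin (r i)), inferInstance,
    Sum.elim ξ (fun s => η s.1 s.2),
    Sum.elim (fun j => Finsupp.single (j : ℕ) 1) (fun s => (τ (w s.1 s.2)).filter (P s.1)),
    ?_, ?_⟩
  · intro x
    rw [Fintype.sum_sum_type]
    simp only [Sum.elim_inl, Sum.elim_inr]
    rw [Fintype.sum_sigma]
    have h1 : ∀ i : Fin R', ∑ t : Fin (r i), η i t x • lc z ((τ (w i t)).filter (P i)) =
        lc z ((τ x).filter (P i)) := by
      intro i
      exact (hw1 i x).symm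
    have h2 : ∀ j : Fin R, lc z (Finsupp.single (j : ℕ) (1 : ℝ)) = z j := by
      intro j
      simp [lc]
    simp only [h1, h2]
    rw [← hQpart, ← map_sum, ← map_add]
    congr 1
    ext j
    rw [Finsupp.add_apply, Finsupp.finsetSum_apply]
    simp only [Finsupp.filter_apply]
    by_cases hj : τ x j = 0
    · simp [hj]
    · have hjR : j < R := by
        by_contra h3
        exact hj (hR x j (not_lt.mp h3))
      by_cases hQj : Q j
      · rw [if_pos hQj, Finset.sum_eq_zero, add_zero]
        intro i _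
        rw [if_neg (hQj i)]
      · rw [if_neg hQj, zero_add]
        have h4 : ∃ n'', P n'' j := by
          by_contra h5
          exact hQj (fun n'' h6 => h5 ⟨n'', h6⟩)
        obtain ⟨n'', h5⟩ := h4
        rw [Finset.sum_eq_single (⟨n'', hPR hjR h5⟩ : Fin R')]
        · rw [if_pos h5]
        · intro i _ hi
          rw [if_neg]
          intro h6
          exact hi (Fin.ext (hPu h6 h5))
        · intro h6
          exact absurd (Finset.mem_univ _) h6
  · intro θ hθ x n'
    rw [Fintype.sum_sum_type]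
    simp only [Sum.elim_inl, Sum.elim_inr]
    rw [Fintype.sum_sigma]
    have h2 : ∀ j : Fin R, lc z (Finsupp.single (j : ℕ) (1 : ℝ)) = z j := by
      intro j
      simp [lc]
    simp only [h2, ← hδa]
    have hY : nu n' (∑ i : Fin R', ∑ t : Fin (r i),
        (θ (Sum.inr ⟨i, t⟩) * η i t x) • δ i (w i t)) ≤ 2 * nu n' (δ n' x) := by
      have h3 : ∀ (i : Fin R') (i' : ℕ), κ n' ≤ i' → i' < κ (n' + 1) → (i : ℕ) ≠ n' →
          (∑ t : Fin (r i), (θ (Sum.inr ⟨i, t⟩) * η i t x) • δ i (w i t)) i' = 0 := by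
        intro i i' h4 h5 h6
        rw [Finsupp.finsetSum_apply]
        apply Finset.sum_eq_zero
        intro t _
        rw [Finsupp.smul_apply]
        by_contra h7
        have h8 : i' ∈ (δ i (w i t)).support := by
          rw [Finsupp.mem_support_iff]
          intro h9
          rw [h9, smul_zero] at h7
          exact h7 rfl
        have h9 := hδs _ _ _ h8
        exact h6 (h.zone_unique h9.1 h9.2 h4 h5)
      by_cases hn : n' < R'
      · rw [h.loc n' _ (∑ t : Fin (r n'), (θ (Sum.inr ⟨⟨n', hn⟩, t⟩) * η n' t x) • δ n' (w n' t))]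
        · exact hw2 n' (fun t => θ (Sum.inr ⟨⟨n', hn⟩, t⟩)) (fun t => hθ _) x
        · intro i' h4 h5
          rw [Finsupp.finsetSum_apply, Finset.sum_eq_single (⟨n', hn⟩ : Fin R')]
          · intro i _ hi
            exact h3 i i' h4 h5 (fun h6 => hi (Fin.ext h6))
          · intro h6
            exact absurd (Finset.mem_univ _) h6
      · rw [h.eq_zero]
        · have := h.nonneg n' (δ n' x)
          positivity
        · intro i' h4 h5
          rw [Finsupp.finsetSum_apply]
          apply Finset.sum_eq_zero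
          intro i _
          exact h3 i i' h4 h5 (fun h6 => hn (h6 ▸ i.2))
    have h5 := hQb (fun j => θ (Sum.inl j)) (fun j => hθ _) x n'
    have h6 := hδb x n'
    calc _ ≤ _ := h.add n' _ _
      _ ≤ 4 * (κ n + 2) * nu n' (lc z (τ x)) +
          2 * ((4 * (κ n + 2) + 1) * nu n' (lc z (τ x))) := by
          refine add_le_add h5 (hY.trans ?_)
          gcongr
      _ = _ := by ring

end Zone

theorem ZoneSys.single_ne {κ : ℕ → ℕ} {nu : ℕ → (ℕ →₀ ℝ) → ℝ} {B : ℝ} (h : ZoneSys κ nu B)
    {n k : ℕ} (hk : κ (n + 1) = κ n + 2 * k) (x : Fin k → ℝ) {n' : ℕ} (hn : n' ≠ n) :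
    nu n' (∑ u : Fin k, x u • (Finsupp.single (κ n + 2 * (u : ℕ)) (1 : ℝ) +
      Finsupp.single (κ n + 2 * u + 1) 1)) = 0 := by
  apply h.eq_zero
  intro i h1 h2
  rw [Finsupp.finsetSum_apply]
  apply Finset.sum_eq_zero
  intro u _
  have hu := u.2
  rw [Finsupp.smul_apply, Finsupp.add_apply, Finsupp.single_apply, Finsupp.single_apply,
    if_neg, if_neg]
  · simp
  · intro h3
    exact hn (h.zone_unique h1 h2 (by omega) (by omega))
  · intro h3
    exact hn (h.zone_unique h1 h2 (by omega) (by omega))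

theorem st_NA : St_NA := by
  refine ⟨104, by norm_num, ?_⟩
  intro m p κ nu hpar h n k nrm G hk hκ hnrm hZLH htr X _ _ _ b hb y z hy hz hth hav K T hT1 hT2
  classical
  obtain ⟨i0, r, hr, hyr⟩ := hth
  set α : Fin k → ℕ →₀ ℝ := fun u => Finsupp.single (κ n + 2 * (u : ℕ)) (1 : ℝ) +
    Finsupp.single (κ n + 2 * u + 1) 1 with hα
  -- the coordinates
  have hco : ∀ (a : ℕ →₀ ℝ) i, b.coord i (lc b a) = a i := by
    intro a i
    simp only [lc, Finsupp.linearCombination_apply, Finsupp.sum, map_sum, map_smul,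
      smul_eq_mul, b.ortho, Pi.single_apply]
    simp only [mul_ite, mul_one, mul_zero, Finset.sum_ite_eq, Finsupp.mem_support_iff]
    by_cases h : a i = 0
    · simp [h]
    · simp [h]
  have hαi : ∀ (x : Fin k → ℝ) (u : Fin k), (∑ v, x v • α v) (κ n + 2 * u) = x u := by
    intro x u
    rw [Finsupp.finsetSum_apply, Finset.sum_eq_single u]
    · rw [hα]
      simp [Finsupp.single_apply]
    · intro v _ hv
      have hv' : (v : ℕ) ≠ u := fun h' => hv (Fin.ext h')
      rw [hα]
      dsimp only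
      rw [Finsupp.smul_apply, Finsupp.add_apply, Finsupp.single_apply, Finsupp.single_apply,
        if_neg (by omega), if_neg (by omega)]
      simp
    · intro h'
      exact absurd (Finset.mem_univ _) h'
  -- the norm in the zone
  have hnrm' : ∀ x : Fin k → ℝ, ‖lc b (∑ u, x u • α u)‖ = nrm x := by
    intro x
    rw [hb]
    have h1 : nu n (∑ u, x u • α u) = nrm x := hnrm x
    apply le_antisymm
    · rw [← h1]
      exact ZNorm_le_nu hpar h n _ (fun n' hn' => h.single_ne hκ x hn')
    · rw [← h1]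
      exact nu_le_ZNorm hpar h n _
  -- the coordinate map
  set π : X →ₗ[ℝ] (Fin k → ℝ) :=
    LinearMap.pi (fun u : Fin k => (b.coord (κ n + 2 * (u : ℕ))).toLinearMap) with hπ
  have hπa : ∀ v u, π v u = b.coord (κ n + 2 * (u : ℕ)) v := fun _ _ => rfl
  set D : ℝ := ∑ u : Fin k, ‖b.coord (κ n + 2 * (u : ℕ))‖ with hD
  have hD0 : 0 ≤ D := Finset.sum_nonneg (fun _ _ => norm_nonneg _)
  have hπb : ∀ v u, |π v u| ≤ ‖b.coord (κ n + 2 * (u : ℕ))‖ * ‖v‖ := by
    intro v u
    rw [hπa]
    exact (b.coord (κ n + 2 * (u : ℕ))).le_opNorm v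
  -- it is bounded by one on the span of `y`
  have hP1 : ∀ v ∈ closedSpan ℝ (fun i => lc b (y i)), nrm (π v) ≤ ‖v‖ := by
    set Ψ : X →L[ℝ] X := ∑ u : Fin k, (b.coord (κ n + 2 * (u : ℕ))).smulRight (lc b (α u)) with hΨ
    have hΨa : ∀ v, Ψ v = lc b (∑ u, π v u • α u) := by
      intro v
      rw [hΨ, map_sum]
      simp only [map_smul, hπa]
      simp [ContinuousLinearMap.smulRight_apply]
    have hcl : IsClosed {v : X | ‖Ψ v‖ ≤ ‖v‖} := isClosed_le (by fun_prop) (by fun_prop)
    have hsub : ((Submodule.span ℝ (range (fun i => lc b (y i))) : Submodule ℝ X) : Set X) ⊆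
        {v : X | ‖Ψ v‖ ≤ ‖v‖} := by
      intro v hv
      rw [SetLike.mem_coe, ← Finsupp.range_linearCombination] at hv
      obtain ⟨c, rfl⟩ := hv
      have h1 : Finsupp.linearCombination ℝ (fun i => lc b (y i)) c = lc b (lc y c) :=
        (lc_lc (b : ℕ → X) y c).symm
      rw [Set.mem_ofPred_eq, h1, hΨa, hnrm', ← hnrm, hb]
      have h2 : nu n (∑ u : Fin k, π (lc b (lc y c)) u • α u) = nu n (lc y c) := by
        apply h.loc
        intro i h3 h4
        obtain ⟨u, hu⟩ : ∃ u : Fin k, i = κ n + 2 * u ∨ i = κ n + 2 * u + 1 :=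
          ⟨⟨(i - κ n) / 2, by omega⟩, by dsimp only; omega⟩
        have hyi : ∀ i', i' = κ n + 2 * u ∨ i' = κ n + 2 * u + 1 →
            (lc y c) i' = c (i0 + u) * r u := by
          intro i' hi'
          have h5 : y (i0 + u) i' = r u := by
            rw [hyr u u.2, Finsupp.smul_apply, Finsupp.add_apply, Finsupp.single_apply,
              Finsupp.single_apply]
            rcases hi' with rfl | rfl
            · simp
            · simp
          have h6 : ∀ j, j ≠ i0 + u → y j i' = 0 := by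
            intro j hj
            have h7 : i' ∈ (y (i0 + u)).support := by
              rw [Finsupp.mem_support_iff, h5]
              exact hr u u.2
            have h8 := hy.disjoint (Ne.symm hj) h7
            rwa [Finsupp.notMem_support_iff] at h8
          simp only [lc, Finsupp.linearCombination_apply, Finsupp.sum, Finsupp.finsetSum_apply,
            Finsupp.smul_apply, smul_eq_mul]
          rw [Finset.sum_eq_single (i0 + (u : ℕ)), h5]
          · intro j _ hj
            rw [h6 j hj, mul_zero]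
          · intro h7
            rw [Finsupp.notMem_support_iff.mp h7, zero_mul]
        rw [hyi i hu, Finsupp.finsetSum_apply, Finset.sum_eq_single u]
        · rw [hπa, hco, hyi _ (Or.inl rfl), Finsupp.smul_apply, hα]
          dsimp only
          rw [Finsupp.add_apply, Finsupp.single_apply, Finsupp.single_apply]
          rcases hu with rfl | rfl
          · simp
          · simp
        · intro v _ hv
          have hv' : (v : ℕ) ≠ u := fun h' => hv (Fin.ext h')
          rw [hα]
          dsimp only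
          rw [Finsupp.smul_apply, Finsupp.add_apply, Finsupp.single_apply, Finsupp.single_apply,
            if_neg (by omega), if_neg (by omega)]
          simp
        · intro h'
          exact absurd (Finset.mem_univ _) h'
      have h3 := nu_le_ZNorm hpar h n (lc y c)
      rw [← h2] at h3
      exact h3
    intro v hv
    rw [← hnrm', ← hΨa]
    exact closure_minimal hsub hcl hv
  -- the vectors of the zone `n` in the span of `y`
  have hmem : ∀ u, lc b (α u) ∈ closedSpan ℝ (fun i => lc b (y i)) := by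
    intro u
    have h1 := Submodule.smul_mem (closedSpan ℝ (fun i => lc b (y i))) (r u)⁻¹
      (self_mem_closedSpan (𝕜 := ℝ) (fun i => lc b (y i)) (i0 + u))
    rwa [hyr u u.2, map_smul, smul_smul, inv_mul_cancel₀ (hr u u.2), one_smul] at h1
  set e : Fin k → closedSpan ℝ (fun i => lc b (y i)) := fun u => ⟨lc b (α u), hmem u⟩ with he
  have hsum : ∀ x : Fin k → ℝ, ((∑ u, x u • e u : closedSpan ℝ (fun i => lc b (y i))) : X) =
      lc b (∑ u, x u • α u) := by
    intro x
    rw [map_sum]
    simp [he]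
  have hsumn : ∀ x : Fin k → ℝ, ‖∑ u, x u • e u‖ = nrm x := by
    intro x
    rw [← hnrm', ← hsum]
    rfl
  have hπe : ∀ x : Fin k → ℝ, π (∑ u, x u • e u : closedSpan ℝ (fun i => lc b (y i))) = x := by
    intro x
    ext u
    rw [hπa, hsum, hco, hαi]
  have hxu : ∀ (x : Fin k → ℝ) u, |x u| ≤ ‖b.coord (κ n + 2 * (u : ℕ))‖ * nrm x := by
    intro x u
    have h1 := hπb (∑ u, x u • e u : closedSpan ℝ (fun i => lc b (y i))) u
    rw [hπe] at h1
    rw [← hsumn]
    exact h1
  have hnrm0 : ∀ x, 0 ≤ nrm x := fun x => by rw [← hsumn]; exact norm_nonneg _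
  have hK : 0 < K := by
    have h0 : 0 < ‖e ⟨0, hk⟩‖ := by
      rw [norm_pos_iff]
      intro h1
      have h2 := hπe (Pi.single ⟨0, hk⟩ 1)
      have h3 : (∑ u, (Pi.single (⟨0, hk⟩ : Fin k) (1 : ℝ) : Fin k → ℝ) u • e u) = 0 := by
        rw [Finset.sum_eq_single ⟨0, hk⟩]
        · simp [h1]
        · intro v _ hv
          rw [Pi.single_eq_of_ne hv, zero_smul]
        · intro h'
          exact absurd (Finset.mem_univ _) h'
      rw [h3] at h2
      have h4 := congrFun h2 ⟨0, hk⟩
      rw [Pi.single_eq_same] at h4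
      simp at h4
    have h1 := hT2 (T (e ⟨0, hk⟩))
    rw [T.symm_apply_apply] at h1
    by_contra h2
    push Not at h2
    have h3 := norm_nonneg (T (e ⟨0, hk⟩))
    nlinarith
  -- approximation
  set ε : ℝ := min (K / (D + 1)) (1 / (2 * K * (D + 1))) with hε
  have hε0 : 0 < ε := lt_min (by positivity) (by positivity)
  have hε1 : ε * D ≤ K := by
    have h1 : ε ≤ K / (D + 1) := min_le_left _ _
    rw [le_div_iff₀ (by positivity)] at h1
    nlinarith
  have hε2 : D * (K * ε) ≤ 1 / 2 := by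
    have h1 : ε ≤ 1 / (2 * K * (D + 1)) := min_le_right _ _
    rw [le_div_iff₀ (by positivity)] at h1
    nlinarith [mul_pos hε0 hK]
  have happ : ∀ u, ∃ a : ℕ →₀ ℝ, ‖(T (e u) : X) - lc b (lc z a)‖ < ε := by
    intro u
    obtain ⟨a, ha⟩ := (mem_closedSpan_iff _ _).mp (T (e u)).2 ε hε0
    refine ⟨a, ?_⟩
    rw [lc_lc]
    exact ha
  choose a ha using happ
  set τ : (Fin k → ℝ) →ₗ[ℝ] (ℕ →₀ ℝ) := Fintype.linearCombination ℝ a with hτ
  have hτa : ∀ x, τ x = ∑ u, x u • a u := by
    intro x
    rw [hτ, Fintype.linearCombination_apply]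
  have hmemz : ∀ c : ℕ →₀ ℝ, lc b (lc z c) ∈ closedSpan ℝ (fun i => lc b (z i)) := by
    intro c
    rw [lc_lc]
    exact lc_mem_closedSpan _ _
  have hZ : ∀ x, ‖lc b (lc z (τ x))‖ ≤ 2 * K * nrm x := by
    intro x
    have h1 : lc b (lc z (τ x)) = (T (∑ u, x u • e u) : X) -
        ∑ u, x u • ((T (e u) : X) - lc b (lc z (a u))) := by
      rw [hτa, map_sum, map_sum, map_sum]
      simp only [map_smul, smul_sub, Finset.sum_sub_distrib]
      simp
    rw [h1]
    have h2 : ‖(T (∑ u, x u • e u) : X)‖ ≤ K * nrm x := by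
      rw [← hsumn]
      exact hT1 _
    have h3 : ‖∑ u, x u • ((T (e u) : X) - lc b (lc z (a u)))‖ ≤ K * nrm x := by
      calc _ ≤ ∑ u, ‖x u • ((T (e u) : X) - lc b (lc z (a u)))‖ := norm_sum_le _ _
        _ ≤ ∑ u : Fin k, ‖b.coord (κ n + 2 * (u : ℕ))‖ * nrm x * ε := by
            apply Finset.sum_le_sum
            intro u _
            rw [norm_smul, Real.norm_eq_abs]
            exact mul_le_mul (hxu x u) (ha u).le (norm_nonneg _)
              (mul_nonneg (norm_nonneg _) (hnrm0 x))
        _ = (ε * D) * nrm x := by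
            rw [hD, Finset.mul_sum, Finset.sum_mul]
            exact Finset.sum_congr rfl (fun u _ => by ring)
        _ ≤ K * nrm x := by gcongr; exact hnrm0 x
    calc _ ≤ _ := norm_sub_le _ _
      _ ≤ K * nrm x + K * nrm x := add_le_add h2 h3
      _ = _ := by ring
  -- the decomposition
  obtain ⟨J, hJ, ξ, c, hdec, hmul⟩ := decomp h hZLH hz hav τ
  set M : ℝ := 12 * κ n + 26 with hM
  have hM0 : 0 ≤ M := by positivity
  set V : J → closedSpan ℝ (fun i => lc b (z i)) := fun j => ⟨lc b (lc z (c j)), hmemz _⟩ with hV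
  have hVs : ∀ f : J → ℝ, ((∑ j, f j • V j : closedSpan ℝ (fun i => lc b (z i))) : X) =
      lc b (∑ j, f j • lc z (c j)) := by
    intro f
    rw [map_sum]
    simp [hV]
  have hξx : ∀ j x, ξ j x = ∑ i, ξ j (Pi.single i 1) * x i := by
    intro j x
    have h1 : x = ∑ u, x u • (Pi.single u (1 : ℝ) : Fin k → ℝ) := by
      ext v
      simp [Finset.sum_apply, Pi.single_apply]
    conv_lhs => rw [h1]
    rw [map_sum]
    exact Finset.sum_congr rfl (fun i _ => by rw [map_smul, smul_eq_mul, mul_comm])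
  have hback : ∀ f : J → ℝ, ∑ j, f j • π (T.symm (V j) : X) = π (T.symm (∑ j, f j • V j) : X) := by
    intro f
    rw [map_sum]
    simp
  have key := htr J (fun j i => ξ j (Pi.single i 1)) (fun j => π (T.symm (V j) : X))
    (2 * K ^ 2 * M) (by positivity) (by
      intro θ hθ x
      have h1 : ∀ j, (θ j * ∑ i, ξ j (Pi.single i 1) * x i) = θ j * ξ j x := by
        intro j
        rw [hξx j x]
      simp only [h1]
      rw [hback (fun j => θ j * ξ j x)]
      refine (hP1 _ (T.symm _).2).trans ?_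
      have h2 := hT2 (∑ j, (θ j * ξ j x) • V j)
      have h3 : ‖∑ j, (θ j * ξ j x) • V j‖ ≤ M * ‖lc b (lc z (τ x))‖ := by
        have h4 : ‖∑ j, (θ j * ξ j x) • V j‖ = ‖lc b (∑ j, (θ j * ξ j x) • lc z (c j))‖ := by
          rw [← hVs]; rfl
        rw [h4, hb, hb]
        exact ZNorm_mono hpar h hM0 (fun n' => hmul θ hθ x n')
      have h5 := hZ x
      calc _ ≤ K * ‖∑ j, (θ j * ξ j x) • V j‖ := h2
        _ ≤ K * (M * (2 * K * nrm x)) := by
            gcongr
            exact h3.trans (by gcongr)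
        _ = _ := by ring)
  -- the trace
  have htrace : (k : ℝ) / 2 ≤ |∑ j, ∑ i, ξ j (Pi.single i 1) * (π (T.symm (V j) : X)) i| := by
    have h1 : ∑ j, ∑ i, ξ j (Pi.single i 1) * (π (T.symm (V j) : X)) i =
        ∑ i, (π (T.symm (∑ j, ξ j (Pi.single i 1) • V j) : X)) i := by
      rw [Finset.sum_comm]
      apply Finset.sum_congr rfl
      intro i _
      rw [← hback (fun j => ξ j (Pi.single i 1)), Finset.sum_apply]
      simp
    have h2 : ∀ i : Fin k, 1 - ‖b.coord (κ n + 2 * (i : ℕ))‖ * (K * ε) ≤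
        (π (T.symm (∑ j, ξ j (Pi.single i 1) • V j) : X)) i := by
      intro i
      set w : closedSpan ℝ (fun i => lc b (z i)) := T (e i) - ∑ j, ξ j (Pi.single i 1) • V j with hw
      have h3 : (w : X) = (T (e i) : X) - lc b (lc z (a i)) := by
        rw [hw, Submodule.coe_sub, hVs, ← hdec, hτa]
        congr 3
        rw [Finset.sum_eq_single i]
        · simp
        · intro v _ hv
          rw [Pi.single_eq_of_ne hv, zero_smul]
        · intro h'
          exact absurd (Finset.mem_univ _) h'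
      have h4 : ‖w‖ ≤ ε := by
        have : ‖w‖ = ‖(w : X)‖ := rfl
        rw [this, h3]
        exact (ha i).le
      have h5 : T.symm (∑ j, ξ j (Pi.single i 1) • V j) = e i - T.symm w := by
        rw [hw, map_sub, T.symm_apply_apply]
        abel
      have h6 : π (e i : X) i = 1 := by
        rw [hπa]
        change b.coord (κ n + 2 * (i : ℕ)) (lc b (α i)) = 1
        rw [hco, hα]
        simp [Finsupp.single_apply]
      rw [h5, Submodule.coe_sub, map_sub, Pi.sub_apply, h6]
      have h7 := hπb (T.symm w : X) i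
      have h8 : ‖(T.symm w : X)‖ ≤ K * ε := (hT2 w).trans (by gcongr)
      have h9 := le_abs_self (π (T.symm w : X) i)
      have h10 : ‖b.coord (κ n + 2 * (i : ℕ))‖ * ‖(T.symm w : X)‖ ≤
        ‖b.coord (κ n + 2 * (i : ℕ))‖ * (K * ε) := by gcongr
      linarith
    rw [h1]
    refine le_trans ?_ (le_abs_self _)
    have h3 := Finset.sum_le_sum (fun i (_ : i ∈ Finset.univ) => h2 i)
    refine le_trans ?_ h3
    rw [Finset.sum_sub_distrib, ← Finset.sum_mul, ← hD]
    simp only [Finset.sum_const, Finset.card_univ, Fintype.card_fin, nsmul_eq_mul, mul_one]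
    have h4 : (1 : ℝ) ≤ k := by exact_mod_cast hk
    linarith
  have hk0 : (0 : ℝ) < k := by exact_mod_cast hk
  have hκ0 : (0 : ℝ) ≤ κ n := Nat.cast_nonneg _
  rcases le_or_gt G 0 with hG | hG
  · refine hG.trans ?_
    positivity
  · have h1 : G * (k / 2) ≤ 2 * K ^ 2 * M * k := (by gcongr : _ ≤ _).trans key
    have h2 : G ≤ 4 * K ^ 2 * M := by
      have h3 : k * G ≤ k * (4 * K ^ 2 * M) := by linarith
      exact le_of_mul_le_mul_left h3 hk0
    refine h2.trans ?_
    rw [hM]
    nlinarith [mul_nonneg (sq_nonneg K) hκ0]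

end Run7.h157.G
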