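import Mathlib
import Pool.Agent.Run7.h157.G.Iface

/-!
Piece TR: the trace inequality (helper376). Averages over independent symmetric variables are
defined recursively along a list of coordinates.
-/

noncomputable section

namespace Run7.h157.G

open Set Filter Topology
open scoped ENNReal NNReal

namespace TR

variable {ι : Type*} [DecidableEq ι]

/-- the unit vector -/
def sg (i : ι) : ι → ℝ := Pi.single i 1

theorem sg_self (i : ι) : sg i i = 1 := by simp [sg]

theorem sg_ne {i k : ι} (h : k ≠ i) : sg i k = 0 := by simp [sg, h]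

/-- the average over independent variables `z_i`, `i` in the list, with values `1`, `-1` with
probability `a / 2` each and `0` with probability `1 - a` -/
def Ex (a : ℝ) : List ι → ((ι → ℝ) → ℝ) → ℝ
  | [], f => f 0
  | i :: l, f => (1 - a) * Ex a l f + a / 2 *
      (Ex a l (fun z => f (z + sg i)) + Ex a l (fun z => f (z - sg i)))

theorem Ex_add (a : ℝ) (l : List ι) : ∀ f g : (ι → ℝ) → ℝ,
    Ex a l (fun z => f z + g z) = Ex a l f + Ex a l g := by
  induction l with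
  | nil => intro f g; rfl
  | cons i l ih =>
    intro f g
    simp only [Ex]
    rw [ih f g, ih (fun z => f (z + sg i)) (fun z => g (z + sg i)),
      ih (fun z => f (z - sg i)) (fun z => g (z - sg i))]
    ring

theorem Ex_mul (a : ℝ) (l : List ι) : ∀ (c : ℝ) (f : (ι → ℝ) → ℝ),
    Ex a l (fun z => c * f z) = c * Ex a l f := by
  induction l with
  | nil => intro c f; rfl
  | cons i l ih =>
    intro c f
    simp only [Ex]
    rw [ih c f, ih c (fun z => f (z + sg i)), ih c (fun z => f (z - sg i))]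
    ring

theorem Ex_const (a : ℝ) (l : List ι) (c : ℝ) : Ex a l (fun _ => c) = c := by
  induction l with
  | nil => rfl
  | cons i l ih =>
    simp only [Ex]
    rw [ih]
    ring

theorem Ex_sub (a : ℝ) (l : List ι) (f g : (ι → ℝ) → ℝ) :
    Ex a l (fun z => f z - g z) = Ex a l f - Ex a l g := by
  have h := Ex_add a l f (fun z => (-1) * g z)
  rw [Ex_mul] at h
  have h2 : (fun z => f z - g z) = (fun z => f z + (-1) * g z) := by
    funext z; ring
  rw [h2, h]
  ring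

theorem Ex_sum {J : Type*} (a : ℝ) (l : List ι) (S : Finset J) (f : J → (ι → ℝ) → ℝ) :
    Ex a l (fun z => ∑ j ∈ S, f j z) = ∑ j ∈ S, Ex a l (f j) := by
  classical
  induction S using Finset.induction_on with
  | empty => simp [Ex_const]
  | insert j S hj ih =>
    have h : (fun z => ∑ j ∈ insert j S, f j z) = fun z => f j z + ∑ j ∈ S, f j z := by
      funext z; rw [Finset.sum_insert hj]
    rw [h, Ex_add, ih, Finset.sum_insert hj]

/-- the possible values -/
def Val (l : List ι) (z : ι → ℝ) : Prop :=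
  (∀ i, z i = 0 ∨ z i = 1 ∨ z i = -1) ∧ ∀ i, i ∉ l → z i = 0

theorem Val.add {i : ι} {l : List ι} (hi : i ∉ l) {z : ι → ℝ} (hz : Val l z) :
    Val (i :: l) (z + sg i) := by
  constructor
  · intro k
    by_cases hk : k = i
    · subst hk
      simp [hz.2 k hi, sg_self]
    · simp [sg_ne hk, hz.1 k]
  · intro k hk
    rw [List.mem_cons, not_or] at hk
    simp [sg_ne hk.1, hz.2 k hk.2]

theorem Val.sub {i : ι} {l : List ι} (hi : i ∉ l) {z : ι → ℝ} (hz : Val l z) :
    Val (i :: l) (z - sg i) := by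
  constructor
  · intro k
    by_cases hk : k = i
    · subst hk
      simp [hz.2 k hi, sg_self]
    · simp [sg_ne hk, hz.1 k]
  · intro k hk
    rw [List.mem_cons, not_or] at hk
    simp [sg_ne hk.1, hz.2 k hk.2]

omit [DecidableEq ι] in
theorem Val.cons {i : ι} {l : List ι} {z : ι → ℝ} (hz : Val l z) : Val (i :: l) z := by
  refine ⟨hz.1, fun k hk => hz.2 k ?_⟩
  rw [List.mem_cons, not_or] at hk
  exact hk.2

theorem Ex_mono {a : ℝ} (ha : 0 ≤ a) (ha1 : a ≤ 1) (l : List ι) (hl : l.Nodup) :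
    ∀ f g : (ι → ℝ) → ℝ, (∀ z, Val l z → f z ≤ g z) → Ex a l f ≤ Ex a l g := by
  induction l with
  | nil =>
    intro f g h
    exact h 0 ⟨fun i => Or.inl rfl, fun i _ => rfl⟩
  | cons i l ih =>
    intro f g h
    rw [List.nodup_cons] at hl
    simp only [Ex]
    have h1 := ih hl.2 f g (fun z hz => h z hz.cons)
    have h2 := ih hl.2 (fun z => f (z + sg i)) (fun z => g (z + sg i))
      (fun z hz => h _ (hz.add hl.1))
    have h3 := ih hl.2 (fun z => f (z - sg i)) (fun z => g (z - sg i))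
      (fun z hz => h _ (hz.sub hl.1))
    have h4 : (1 - a) * Ex a l f ≤ (1 - a) * Ex a l g :=
      mul_le_mul_of_nonneg_left h1 (by linarith)
    have h5 := mul_le_mul_of_nonneg_left (add_le_add h2 h3) (by linarith : 0 ≤ a / 2)
    linarith

/-- flipping signs -/
theorem Ex_flip (a : ℝ) (l : List ι) (σ : ι → ℝ) (hσ : ∀ i, σ i = 1 ∨ σ i = -1) :
    ∀ f : (ι → ℝ) → ℝ, Ex a l (fun z => f (σ * z)) = Ex a l f := by
  induction l with
  | nil => intro f; simp [Ex]
  | cons i l ih =>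
    intro f
    simp only [Ex]
    have h0 : σ * sg i = sg i ∨ σ * sg i = - sg i := by
      rcases hσ i with h | h
      · left
        funext k
        by_cases hk : k = i
        · subst hk; simp [h]
        · simp [sg_ne hk]
      · right
        funext k
        by_cases hk : k = i
        · subst hk; simp [h]
        · simp [sg_ne hk]
    simp only [mul_add, mul_sub]
    rw [ih f, ih (fun z => f (z + σ * sg i)), ih (fun z => f (z - σ * sg i))]
    rcases h0 with h | h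
    · rw [h]
    · rw [h]
      simp only [sub_neg_eq_add, ← sub_eq_add_neg]
      ring

/-- the pairing -/
def pr [Fintype ι] (v z : ι → ℝ) : ℝ := ∑ i, v i * z i

theorem pr_sg [Fintype ι] (v : ι → ℝ) (i : ι) : pr v (sg i) = v i := by
  rw [pr, Finset.sum_eq_single i]
  · simp [sg_self]
  · intro k _ hk
    simp [sg_ne hk]
  · intro h; exact absurd (Finset.mem_univ i) h

omit [DecidableEq ι] in
theorem pr_add [Fintype ι] (v z w : ι → ℝ) : pr v (z + w) = pr v z + pr v w := by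
  simp only [pr, Pi.add_apply, mul_add, Finset.sum_add_distrib]

omit [DecidableEq ι] in
theorem pr_sub [Fintype ι] (v z w : ι → ℝ) : pr v (z - w) = pr v z - pr v w := by
  simp only [pr, Pi.sub_apply, mul_sub, Finset.sum_sub_distrib]

theorem pr_add_single [Fintype ι] (v z : ι → ℝ) (i : ι) :
    pr v (z + sg i) = pr v z + v i := by rw [pr_add, pr_sg]

theorem pr_sub_single [Fintype ι] (v z : ι → ℝ) (i : ι) :
    pr v (z - sg i) = pr v z - v i := by rw [pr_sub, pr_sg]

theorem Ex_sq [Fintype ι] (a : ℝ) (l : List ι) (v : ι → ℝ) :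
    Ex a l (fun z => pr v z ^ 2) = a * (l.map (fun i => v i ^ 2)).sum := by
  induction l with
  | nil => simp [Ex, pr]
  | cons i l ih =>
    simp only [Ex, pr_add_single, pr_sub_single]
    have h1 : (1 - a) * Ex a l (fun z => pr v z ^ 2) + a / 2 *
        (Ex a l (fun z => (pr v z + v i) ^ 2) + Ex a l (fun z => (pr v z - v i) ^ 2)) =
        Ex a l (fun z => pr v z ^ 2) + a * v i ^ 2 := by
      rw [← Ex_add, ← Ex_mul, ← Ex_mul, ← Ex_add]
      have : (fun z => (1 - a) * pr v z ^ 2 + a / 2 * ((pr v z + v i) ^ 2 + (pr v z - v i) ^ 2)) =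
          fun z : ι → ℝ => pr v z ^ 2 + a * v i ^ 2 := by
        funext z; ring
      rw [this, Ex_add, Ex_const]
    rw [h1, ih, List.map_cons, List.sum_cons]
    ring

theorem Ex_four [Fintype ι] {a : ℝ} (ha : 0 ≤ a) (l : List ι) (v : ι → ℝ) :
    Ex a l (fun z => pr v z ^ 4) ≤ 3 * (a * (l.map (fun i => v i ^ 2)).sum) ^ 2 +
      a * (l.map (fun i => v i ^ 4)).sum := by
  induction l with
  | nil => simp [Ex, pr]
  | cons i l ih =>
    simp only [Ex, pr_add_single, pr_sub_single]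
    have h1 : (1 - a) * Ex a l (fun z => pr v z ^ 4) + a / 2 *
        (Ex a l (fun z => (pr v z + v i) ^ 4) + Ex a l (fun z => (pr v z - v i) ^ 4)) =
        Ex a l (fun z => pr v z ^ 4) + 6 * a * v i ^ 2 * Ex a l (fun z => pr v z ^ 2) +
          a * v i ^ 4 := by
      rw [← Ex_add, ← Ex_mul, ← Ex_mul, ← Ex_add]
      have : (fun z => (1 - a) * pr v z ^ 4 + a / 2 * ((pr v z + v i) ^ 4 + (pr v z - v i) ^ 4)) =
          fun z : ι → ℝ => pr v z ^ 4 + (6 * a * v i ^ 2) * pr v z ^ 2 + a * v i ^ 4 := by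
        funext z; ring
      rw [this, Ex_add, Ex_add, Ex_const, Ex_mul]
    rw [h1, Ex_sq, List.map_cons, List.sum_cons, List.map_cons, List.sum_cons]
    nlinarith [mul_nonneg (mul_nonneg ha ha) (sq_nonneg (v i ^ 2))]

omit [DecidableEq ι] in
theorem toList_sum [Fintype ι] (f : ι → ℝ) :
    ((Finset.univ : Finset ι).toList.map f).sum = ∑ i, f i := by
  rw [Finset.sum_map_toList]

/-- the average over all coordinates -/
def E [Fintype ι] (a : ℝ) (f : (ι → ℝ) → ℝ) : ℝ := Ex a (Finset.univ : Finset ι).toList f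

variable [Fintype ι]

theorem E_sq (a : ℝ) (v : ι → ℝ) : E a (fun z => pr v z ^ 2) = a * ∑ i, v i ^ 2 := by
  rw [E, Ex_sq, toList_sum]

theorem E_four {a : ℝ} (ha : 0 ≤ a) (v : ι → ℝ) :
    E a (fun z => pr v z ^ 4) ≤ 3 * (a * ∑ i, v i ^ 2) ^ 2 + a * ∑ i, v i ^ 4 := by
  have h := Ex_four ha (Finset.univ : Finset ι).toList v
  rw [toList_sum, toList_sum] at h
  exact h

theorem E_mono {a : ℝ} (ha : 0 ≤ a) (ha1 : a ≤ 1) (f g : (ι → ℝ) → ℝ)
    (h : ∀ z, (∀ i, z i = 0 ∨ z i = 1 ∨ z i = -1) → f z ≤ g z) : E a f ≤ E a g :=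
  Ex_mono ha ha1 _ (Finset.nodup_toList _) f g (fun z hz => h z hz.1)

theorem E_add (a : ℝ) (f g : (ι → ℝ) → ℝ) : E a (fun z => f z + g z) = E a f + E a g :=
  Ex_add a _ f g

theorem E_sub (a : ℝ) (f g : (ι → ℝ) → ℝ) : E a (fun z => f z - g z) = E a f - E a g :=
  Ex_sub a _ f g

theorem E_mul (a c : ℝ) (f : (ι → ℝ) → ℝ) : E a (fun z => c * f z) = c * E a f :=
  Ex_mul a _ c f

theorem E_const (a c : ℝ) : E (ι := ι) a (fun _ => c) = c := Ex_const a _ c

theorem E_sum {J : Type*} (a : ℝ) (S : Finset J) (f : J → (ι → ℝ) → ℝ) :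
    E a (fun z => ∑ j ∈ S, f j z) = ∑ j ∈ S, E a (f j) := Ex_sum a _ S f

theorem E_flip (a : ℝ) (σ : ι → ℝ) (hσ : ∀ i, σ i = 1 ∨ σ i = -1) (f : (ι → ℝ) → ℝ) :
    E a (fun z => f (σ * z)) = E a f := Ex_flip a _ σ hσ f

theorem abs_lower (r : ℝ) : r ^ 2 / 2 - r ^ 4 / 54 ≤ |r| := by
  have h : ∀ t : ℝ, 0 ≤ t → t ^ 2 / 2 - t ^ 4 / 54 ≤ t := by
    intro t ht
    nlinarith [mul_nonneg ht (mul_nonneg (sq_nonneg (t - 3)) (by linarith : 0 ≤ t + 6))]
  have h1 := h |r| (abs_nonneg r)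
  have h2 : |r| ^ 4 = r ^ 4 := by
    have : |r| ^ 4 = (|r| ^ 2) ^ 2 := by ring
    rw [this, sq_abs]; ring
  rw [sq_abs, h2] at h1
  exact h1

theorem E_abs_lower {a : ℝ} (ha : 0 ≤ a) (ha1 : a ≤ 1) (v : ι → ℝ) {lam : ℝ} (hl : 0 < lam) :
    lam / 2 * E a (fun z => pr v z ^ 2) - lam ^ 3 / 54 * E a (fun z => pr v z ^ 4) ≤
      E a (fun z => |pr v z|) := by
  rw [← E_mul, ← E_mul, ← E_sub]
  apply E_mono ha ha1
  intro z _
  have h := abs_lower (lam * pr v z)
  rw [abs_mul, abs_of_pos hl] at h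
  have h2 : lam * (lam / 2 * pr v z ^ 2 - lam ^ 3 / 54 * pr v z ^ 4) ≤ lam * |pr v z| := by
    nlinarith [h]
  exact le_of_mul_le_mul_left h2 hl

omit [DecidableEq ι] in
theorem sum_four_le (v : ι → ℝ) {M : ℝ} (h : ∀ i, v i ^ 2 ≤ M) :
    ∑ i, v i ^ 4 ≤ M * ∑ i, v i ^ 2 := by
  rw [Finset.mul_sum]
  apply Finset.sum_le_sum
  intro i _
  nlinarith [h i, sq_nonneg (v i)]

/-- Khintchine for signs -/
theorem E_one_lower (v : ι → ℝ) :
    1 / 3 * Real.sqrt (∑ i, v i ^ 2) ≤ E 1 (fun z => |pr v z|) := by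
  set V := ∑ i, v i ^ 2 with hV
  have hV0 : 0 ≤ V := Finset.sum_nonneg (fun i _ => sq_nonneg _)
  rcases hV0.eq_or_lt with h0 | h0
  · rw [← h0]
    simp only [Real.sqrt_zero, mul_zero]
    rw [← E_const (ι := ι) 1 0]
    exact E_mono zero_le_one le_rfl _ _ (fun z _ => abs_nonneg _)
  · set r := Real.sqrt V with hr
    have hr0 : 0 < r := Real.sqrt_pos.mpr h0
    have hrV : r ^ 2 = V := Real.sq_sqrt hV0
    have h1 := E_abs_lower zero_le_one le_rfl v (lam := 1 / r) (by positivity)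
    have h2 := E_sq 1 v
    have h3 := E_four zero_le_one v
    have h4 : ∑ i, v i ^ 4 ≤ V * V := sum_four_le v (fun i =>
      Finset.single_le_sum (f := fun i => v i ^ 2) (fun i _ => sq_nonneg _) (Finset.mem_univ i))
    rw [h2, ← hV, one_mul] at h1
    rw [← hV, one_mul, one_mul] at h3
    have h5 : (1 / r) ^ 3 / 54 * E 1 (fun z => pr v z ^ 4) ≤ (1 / r) ^ 3 / 54 * (4 * V ^ 2) := by
      apply mul_le_mul_of_nonneg_left _ (by positivity)
      nlinarith
    have h6 : (1 / r) ^ 3 / 54 * (4 * V ^ 2) = 4 / 54 * r := by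
      rw [← hrV]; field_simp
    have h7 : 1 / r / 2 * V = r / 2 := by
      rw [← hrV]; field_simp
    rw [h7] at h1
    rw [h6] at h5
    linarith

/-- lower bound for flat vectors -/
theorem E_flat_lower {s : ℕ} (hs : 1 ≤ s) (v : ι → ℝ) (hv : ∀ i, v i ^ 2 ≤ 4 / s)
    (hV : ∑ i, v i ^ 2 ≤ 1) :
    (∑ i, v i ^ 2) / (3 * Real.sqrt s) ≤ E (1 / (s : ℝ)) (fun z => |pr v z|) := by
  have hs0 : (0 : ℝ) < s := by exact_mod_cast hs
  have hs1 : (1 : ℝ) ≤ s := by exact_mod_cast hs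
  set V := ∑ i, v i ^ 2 with hVd
  have hV0 : 0 ≤ V := Finset.sum_nonneg (fun i _ => sq_nonneg _)
  set r := Real.sqrt s with hr
  have hr0 : 0 < r := Real.sqrt_pos.mpr hs0
  have hrs : r ^ 2 = s := Real.sq_sqrt hs0.le
  have ha : (0 : ℝ) ≤ 1 / s := by positivity
  have ha1 : 1 / (s : ℝ) ≤ 1 := by rw [div_le_one hs0]; exact hs1
  have h1 := E_abs_lower ha ha1 v hr0
  have h2 := E_sq (1 / (s : ℝ)) v
  have h3 := E_four ha v
  have h4 : ∑ i, v i ^ 4 ≤ 4 / s * V := sum_four_le v hv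
  rw [h2, ← hVd] at h1
  rw [← hVd] at h3
  have h5 : E (1 / (s : ℝ)) (fun z => pr v z ^ 4) ≤ 7 * V / (s : ℝ) ^ 2 := by
    have h6 : 1 / (s : ℝ) * ∑ i, v i ^ 4 ≤ 1 / (s : ℝ) * (4 / s * V) :=
      mul_le_mul_of_nonneg_left h4 ha
    have h7 : 3 * (1 / (s : ℝ) * V) ^ 2 ≤ 3 * V / (s : ℝ) ^ 2 := by
      have : 3 * (1 / (s : ℝ) * V) ^ 2 = 3 * V ^ 2 / (s : ℝ) ^ 2 := by field_simp
      rw [this]
      apply div_le_div_of_nonneg_right _ (by positivity)
      nlinarith
    have h8 : 1 / (s : ℝ) * (4 / s * V) = 4 * V / (s : ℝ) ^ 2 := by field_simp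
    rw [h8] at h6
    have h9 : 7 * V / (s : ℝ) ^ 2 = 3 * V / (s : ℝ) ^ 2 + 4 * V / (s : ℝ) ^ 2 := by ring
    linarith
  have h6 : r ^ 3 / 54 * E (1 / (s : ℝ)) (fun z => pr v z ^ 4) ≤
      r ^ 3 / 54 * (7 * V / (s : ℝ) ^ 2) := mul_le_mul_of_nonneg_left h5 (by positivity)
  have h7 : r ^ 3 / 54 * (7 * V / (s : ℝ) ^ 2) = 7 / 54 * (V / r) := by
    rw [← hrs]; field_simp
  have h8 : r / 2 * (1 / (s : ℝ) * V) = 1 / 2 * (V / r) := by
    rw [← hrs]; field_simp
  rw [h7] at h6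
  rw [h8] at h1
  have h9 : V / (3 * r) = 1 / 3 * (V / r) := by field_simp
  have h10 : 0 ≤ V / r := by positivity
  rw [h9]
  linarith

/-- upper bound -/
theorem E_upper {s : ℕ} (hs : 1 ≤ s) (v : ι → ℝ) {η : ℝ} (hη : 0 < η)
    (hV : ∑ i, v i ^ 2 ≤ η ^ 2) :
    E (1 / (s : ℝ)) (fun z => |pr v z|) ≤ η / Real.sqrt s := by
  have hs0 : (0 : ℝ) < s := by exact_mod_cast hs
  have hs1 : (1 : ℝ) ≤ s := by exact_mod_cast hs
  have ha : (0 : ℝ) ≤ 1 / s := by positivity
  have ha1 : 1 / (s : ℝ) ≤ 1 := by rw [div_le_one hs0]; exact hs1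
  set r := Real.sqrt s with hr
  have hr0 : 0 < r := Real.sqrt_pos.mpr hs0
  have hrs : r ^ 2 = s := Real.sq_sqrt hs0.le
  have h1 : E (1 / (s : ℝ)) (fun z => |pr v z|) ≤
      E (1 / (s : ℝ)) (fun z => r / (2 * η) * pr v z ^ 2 + η / (2 * r)) := by
    apply E_mono ha ha1
    intro z _
    have h2 : 0 ≤ (r * |pr v z| - η) ^ 2 := sq_nonneg _
    have h3 : r / (2 * η) * pr v z ^ 2 + η / (2 * r) - |pr v z| =
        (r * |pr v z| - η) ^ 2 / (2 * η * r) := by
      rw [← sq_abs (pr v z)]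
      field_simp
      ring
    have h4 : 0 ≤ (r * |pr v z| - η) ^ 2 / (2 * η * r) := by positivity
    linarith
  rw [E_add, E_const, E_mul, E_sq] at h1
  have h2 : r / (2 * η) * (1 / (s : ℝ) * ∑ i, v i ^ 2) ≤ r / (2 * η) * (1 / (s : ℝ) * η ^ 2) := by
    apply mul_le_mul_of_nonneg_left _ (by positivity)
    exact mul_le_mul_of_nonneg_left hV ha
  have h3 : r / (2 * η) * (1 / (s : ℝ) * η ^ 2) = η / (2 * r) := by
    rw [← hrs]; field_simp
  have h4 : η / (2 * r) + η / (2 * r) = η / r := by field_simp; ring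
  linarith

/-- dropping coordinates decreases the average -/
theorem E_drop {a : ℝ} (ha : 0 ≤ a) (ha1 : a ≤ 1) (v : ι → ℝ) (S : ι → Prop) [DecidablePred S] :
    E a (fun z => |pr (fun i => if S i then v i else 0) z|) ≤ E a (fun z => |pr v z|) := by
  set σ : ι → ℝ := fun i => if S i then 1 else -1 with hσ
  have h1 := E_flip a σ (fun i => by simp only [hσ]; split_ifs <;> simp) (fun z => |pr v z|)
  have h2 : E a (fun z => 2 * |pr (fun i => if S i then v i else 0) z|) ≤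
      E a (fun z => |pr v (σ * z)| + |pr v z|) := by
    apply E_mono ha ha1
    intro z _
    have h3 : 2 * pr (fun i => if S i then v i else 0) z = pr v (σ * z) + pr v z := by
      simp only [pr, hσ, Pi.mul_apply, Finset.mul_sum, ← Finset.sum_add_distrib]
      apply Finset.sum_congr rfl
      intro i _
      split_ifs <;> ring
    have h4 : 2 * |pr (fun i => if S i then v i else 0) z| = |pr v (σ * z) + pr v z| := by
      rw [← h3, abs_mul, abs_of_pos (by norm_num : (0 : ℝ) < 2)]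
    rw [h4]
    exact abs_add_le _ _
  rw [E_mul, E_add, h1] at h2
  linarith

theorem E_nonneg {a : ℝ} (ha : 0 ≤ a) (ha1 : a ≤ 1) (f : (ι → ℝ) → ℝ) (hf : ∀ z, 0 ≤ f z) :
    0 ≤ E a f := by
  rw [← E_const (ι := ι) a 0]
  exact E_mono ha ha1 _ _ (fun z _ => hf z)

theorem two_lower_unit {s : ℕ} (hs : 1 ≤ s) (U : Matrix ι ι ℝ)
    (hU : ∀ x, ∑ i, U.mulVec x i ^ 2 = ∑ i, x i ^ 2) (hUe : ∀ i j, |U i j| = 1 / s)
    (b : ι → ℝ) (hb : ∑ i, b i ^ 2 = 1) :
    1 / 48 * (1 / Real.sqrt s) ≤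
      E (1 / (s : ℝ)) (fun z => |pr b z|) + E (1 / (s : ℝ)) (fun z => |pr (U.mulVec b) z|) := by
  classical
  have hs0 : (0 : ℝ) < s := by exact_mod_cast hs
  have hs1 : (1 : ℝ) ≤ s := by exact_mod_cast hs
  have ha : (0 : ℝ) ≤ 1 / s := by positivity
  have ha1 : 1 / (s : ℝ) ≤ 1 := by rw [div_le_one hs0]; exact hs1
  set r := Real.sqrt s with hr
  have hr0 : 0 < r := Real.sqrt_pos.mpr hs0
  have hrs : r ^ 2 = s := Real.sq_sqrt hs0.le
  set b1 : ι → ℝ := fun i => if b i ^ 2 ≤ 4 / s then b i else 0 with hb1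
  set b2 : ι → ℝ := fun i => if ¬ b i ^ 2 ≤ 4 / s then b i else 0 with hb2
  have hb12 : b = b2 + b1 := by
    funext i
    simp only [hb1, hb2, Pi.add_apply]
    split_ifs <;> simp
  have hsum : ∑ i, b2 i ^ 2 + ∑ i, b1 i ^ 2 = 1 := by
    rw [← hb, ← Finset.sum_add_distrib]
    apply Finset.sum_congr rfl
    intro i _
    simp only [hb1, hb2]
    split_ifs <;> simp
  have h1n : 0 ≤ ∑ i, b1 i ^ 2 := Finset.sum_nonneg (fun i _ => sq_nonneg _)
  have h2n : 0 ≤ ∑ i, b2 i ^ 2 := Finset.sum_nonneg (fun i _ => sq_nonneg _)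
  have hrinv : (0 : ℝ) < 1 / r := by positivity
  rcases le_or_gt (1 / 16) (∑ i, b1 i ^ 2) with hc | hc
  · have h1 := E_flat_lower hs b1 (fun i => by
      simp only [hb1]
      split_ifs with h
      · exact h
      · rw [zero_pow two_ne_zero]; positivity) (by linarith)
    have h2 := E_drop ha ha1 b (fun i => b i ^ 2 ≤ 4 / s)
    have h3 := E_nonneg ha ha1 (fun z => |pr (U.mulVec b) z|) (fun z => abs_nonneg _)
    have h4 : 1 / 48 * (1 / r) ≤ (∑ i, b1 i ^ 2) / (3 * r) := by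
      rw [div_mul_div_comm, one_mul, div_le_div_iff₀ (by positivity) (by positivity)]
      nlinarith
    linarith
  · have h1 : ∑ i, |b2 i| ≤ r / 2 := by
      have h3 : ∑ i, |b2 i| ≤ ∑ i, r / 2 * b2 i ^ 2 := by
        apply Finset.sum_le_sum
        intro i _
        simp only [hb2]
        split_ifs with h
        · simp
        · rw [not_le] at h
          have h4 : 2 / r ≤ |b i| := by
            rw [← pow_le_pow_iff_left₀ (by positivity) (abs_nonneg _) two_ne_zero]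
            rw [sq_abs, div_pow, hrs]
            norm_num
            exact h.le
          rw [← sq_abs]
          have h5 : 1 ≤ r / 2 * |b i| := by
            have := mul_le_mul_of_nonneg_left h4 (by positivity : 0 ≤ r / 2)
            have h6 : r / 2 * (2 / r) = 1 := by field_simp
            linarith
          nlinarith [abs_nonneg (b i)]
      rw [← Finset.mul_sum] at h3
      have h4 : r / 2 * ∑ i, b2 i ^ 2 ≤ r / 2 * 1 :=
        mul_le_mul_of_nonneg_left (by linarith) (by positivity)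
      linarith
    have h2 : ∀ i, (U.mulVec b2 i) ^ 2 ≤ 4 / s := by
      intro i
      have h3 : |U.mulVec b2 i| ≤ 1 / s * (r / 2) := by
        rw [Matrix.mulVec, dotProduct]
        refine (Finset.abs_sum_le_sum_abs _ _).trans ?_
        calc ∑ j, |U i j * b2 j| = 1 / s * ∑ j, |b2 j| := by
              rw [Finset.mul_sum]
              apply Finset.sum_congr rfl
              intro j _
              rw [abs_mul, hUe]
          _ ≤ 1 / s * (r / 2) := mul_le_mul_of_nonneg_left h1 ha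
      rw [← sq_abs]
      calc |U.mulVec b2 i| ^ 2 ≤ (1 / s * (r / 2)) ^ 2 :=
            pow_le_pow_left₀ (abs_nonneg _) h3 2
        _ = 1 / 4 / s := by
            rw [← hrs]; field_simp; ring
        _ ≤ 4 / s := by
            apply div_le_div_of_nonneg_right _ hs0.le
            norm_num
    have h3 := E_flat_lower hs (U.mulVec b2) h2 (by rw [hU]; linarith)
    rw [hU] at h3
    have h4 := E_upper hs (U.mulVec b1) (η := 1 / 4) (by norm_num) (by rw [hU]; linarith)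
    have h5 : E (1 / (s : ℝ)) (fun z => |pr (U.mulVec b2) z|) ≤
        E (1 / (s : ℝ)) (fun z => |pr (U.mulVec b) z| + |pr (U.mulVec b1) z|) := by
      apply E_mono ha ha1
      intro z _
      have h6 : pr (U.mulVec b2) z = pr (U.mulVec b) z - pr (U.mulVec b1) z := by
        rw [hb12, Matrix.mulVec_add]
        simp only [pr, Pi.add_apply, add_mul, Finset.sum_add_distrib]
        ring
      rw [h6]
      exact abs_sub _ _
    rw [E_add] at h5
    have h6 := E_nonneg ha ha1 (fun z => |pr b z|) (fun z => abs_nonneg _)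
    have h7 : 5 / 16 * (1 / r) ≤ (∑ i, b2 i ^ 2) / (3 * r) := by
      rw [div_mul_div_comm, mul_one, div_le_div_iff₀ (by positivity) (by positivity)]
      nlinarith
    have h8 : 1 / 4 / r = 1 / 4 * (1 / r) := by ring
    rw [h8] at h4
    nlinarith

omit [DecidableEq ι] in
theorem pr_smul (c : ℝ) (b z : ι → ℝ) : pr (c • b) z = c * pr b z := by
  simp only [pr, Pi.smul_apply, smul_eq_mul, mul_assoc, Finset.mul_sum]

theorem two_lower {s : ℕ} (hs : 1 ≤ s) (U : Matrix ι ι ℝ)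
    (hU : ∀ x, ∑ i, U.mulVec x i ^ 2 = ∑ i, x i ^ 2) (hUe : ∀ i j, |U i j| = 1 / s)
    (b : ι → ℝ) :
    1 / 48 * (1 / Real.sqrt s) * Real.sqrt (∑ i, b i ^ 2) ≤
      E (1 / (s : ℝ)) (fun z => |pr b z|) + E (1 / (s : ℝ)) (fun z => |pr (U.mulVec b) z|) := by
  have hs0 : (0 : ℝ) < s := by exact_mod_cast hs
  have hs1 : (1 : ℝ) ≤ s := by exact_mod_cast hs
  have ha : (0 : ℝ) ≤ 1 / s := by positivity
  have ha1 : 1 / (s : ℝ) ≤ 1 := by rw [div_le_one hs0]; exact hs1
  set V := ∑ i, b i ^ 2 with hV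
  have hV0 : 0 ≤ V := Finset.sum_nonneg (fun i _ => sq_nonneg _)
  rcases hV0.eq_or_lt with h0 | h0
  · rw [← h0, Real.sqrt_zero, mul_zero]
    exact add_nonneg (E_nonneg ha ha1 _ (fun z => abs_nonneg _))
      (E_nonneg ha ha1 _ (fun z => abs_nonneg _))
  · set β := Real.sqrt V with hβ
    have hβ0 : 0 < β := Real.sqrt_pos.mpr h0
    have hβV : β ^ 2 = V := Real.sq_sqrt hV0
    have h1 := two_lower_unit hs U hU hUe ((1 / β) • b) (by
      have : ∀ i, ((1 / β) • b) i ^ 2 = 1 / V * b i ^ 2 := by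
        intro i
        rw [Pi.smul_apply, smul_eq_mul, mul_pow, div_pow, hβV, one_pow]
      simp only [this, ← Finset.mul_sum]
      rw [← hV]
      field_simp)
    rw [Matrix.mulVec_smul] at h1
    simp only [pr_smul, abs_mul, abs_of_pos (by positivity : 0 < 1 / β)] at h1
    rw [E_mul, E_mul, ← mul_add] at h1
    have h2 := mul_le_mul_of_nonneg_right h1 hβ0.le
    have h3 : ∀ x : ℝ, 1 / β * x * β = x := by intro x; field_simp
    rw [h3] at h2
    exact h2

/-- Jensen -/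
theorem E_rpow {a : ℝ} (ha : 0 ≤ a) (ha1 : a ≤ 1) (f : (ι → ℝ) → ℝ) {B t : ℝ} (ht : 0 ≤ t)
    (ht1 : t ≤ 1) (hB : 0 < B) (hf : ∀ z, 0 ≤ f z) (hE : E a f ≤ B) :
    E a (fun z => f z ^ t) ≤ B ^ t := by
  have h1 : E a (fun z => f z ^ t) ≤ E a (fun z => B ^ t * (t / B) * f z + B ^ t * (1 - t)) := by
    apply E_mono ha ha1
    intro z _
    have h2 := Real.geom_mean_le_arith_mean2_weighted ht (by linarith : 0 ≤ 1 - t)
      (div_nonneg (hf z) hB.le) zero_le_one (by ring)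
    rw [Real.one_rpow, mul_one, mul_one, Real.div_rpow (hf z) hB.le] at h2
    have hBt : 0 < B ^ t := Real.rpow_pos_of_pos hB t
    rw [div_le_iff₀ hBt] at h2
    calc f z ^ t ≤ _ := h2
      _ = _ := by ring
  rw [E_add, E_const, E_mul] at h1
  have hBt : 0 < B ^ t := Real.rpow_pos_of_pos hB t
  have h3 : B ^ t * (t / B) * E a f ≤ B ^ t * (t / B) * B :=
    mul_le_mul_of_nonneg_left hE (by positivity)
  have h4 : B ^ t * (t / B) * B = B ^ t * t := by field_simp
  linarith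

theorem E_nA {s : ℕ} (hs : 1 ≤ s) {q : ℝ} (hq : 2 ≤ q) (hq4 : q ≤ 4) (U : Matrix ι ι ℝ)
    (hcard : Fintype.card ι = s ^ 2) (hUe : ∀ i j, |U i j| = 1 / s) :
    E 1 (fun x => nA q U x) ≤ (6 * (s : ℝ) ^ 2) ^ (1 / q) := by
  have hs0 : (0 : ℝ) < s := by exact_mod_cast hs
  have hcard' : (Fintype.card ι : ℝ) = (s : ℝ) ^ 2 := by exact_mod_cast hcard
  have h1 : E 1 (fun x => nA q U x) ≤
      E 1 (fun x => (2 * (s : ℝ) ^ 2 + ∑ i, pr (U i) x ^ 4) ^ (1 / q)) := by
    apply E_mono zero_le_one le_rfl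
    intro x hx
    rw [nA]
    apply Real.rpow_le_rpow
    · exact add_nonneg (Finset.sum_nonneg (fun i _ => Real.rpow_nonneg (abs_nonneg _) _))
        (Finset.sum_nonneg (fun i _ => Real.rpow_nonneg (abs_nonneg _) _))
    · have h2 : ∑ i, |x i| ^ q ≤ (s : ℝ) ^ 2 := by
        rw [← hcard', ← Finset.card_univ]
        calc ∑ i, |x i| ^ q ≤ ∑ i : ι, (1 : ℝ) := by
              apply Finset.sum_le_sum
              intro i _
              apply Real.rpow_le_one (abs_nonneg _) _ (by linarith)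
              rcases hx i with h | h | h <;> rw [h] <;> norm_num
          _ = _ := by simp
      have h3 : ∑ i, |U.mulVec x i| ^ q ≤ (s : ℝ) ^ 2 + ∑ i, pr (U i) x ^ 4 := by
        rw [← hcard', ← Finset.card_univ]
        calc ∑ i, |U.mulVec x i| ^ q ≤ ∑ i : ι, (1 + pr (U i) x ^ 4) := by
              apply Finset.sum_le_sum
              intro i _
              have h4 : U.mulVec x i = pr (U i) x := rfl
              rw [h4]
              have h6 : |pr (U i) x| ^ 4 = pr (U i) x ^ 4 := by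
                have : |pr (U i) x| ^ 4 = (|pr (U i) x| ^ 2) ^ 2 := by ring
                rw [this, sq_abs]; ring
              rcases le_total |pr (U i) x| 1 with h5 | h5
              · have := Real.rpow_le_one (abs_nonneg _) h5 (by linarith : 0 ≤ q)
                nlinarith [sq_nonneg (pr (U i) x ^ 2)]
              · have h7 := Real.rpow_le_rpow_of_exponent_le h5 hq4
                have h8 : |pr (U i) x| ^ (4 : ℝ) = |pr (U i) x| ^ 4 := by
                  exact_mod_cast Real.rpow_natCast |pr (U i) x| 4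
                rw [h8, h6] at h7
                linarith
          _ = _ := by rw [Finset.sum_add_distrib]; simp
      linarith
    · positivity
  refine h1.trans (E_rpow zero_le_one le_rfl _ (by positivity) ?_ (by positivity) ?_ ?_)
  · rw [div_le_one (by linarith)]; linarith
  · intro x
    have : 0 ≤ ∑ i, pr (U i) x ^ 4 := Finset.sum_nonneg (fun i _ => by positivity)
    positivity
  · rw [E_add, E_const, E_sum]
    have h2 : ∀ i, E 1 (fun x => pr (U i) x ^ 4) ≤ 4 := by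
      intro i
      have h3 := E_four zero_le_one (U i)
      have h4 : ∀ j, U i j ^ 2 = 1 / (s : ℝ) ^ 2 := by
        intro j
        rw [← sq_abs, hUe]
        ring
      have h5 : ∀ j, U i j ^ 4 = 1 / (s : ℝ) ^ 4 := by
        intro j
        have : U i j ^ 4 = (U i j ^ 2) ^ 2 := by ring
        rw [this, h4]
        ring
      simp only [h4, h5, Finset.sum_const, Finset.card_univ, nsmul_eq_mul, hcard'] at h3
      have h6 : (s : ℝ) ^ 2 * (1 / (s : ℝ) ^ 2) = 1 := by field_simp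
      have h7 : (s : ℝ) ^ 2 * (1 / (s : ℝ) ^ 4) ≤ 1 := by
        have h8 : (s : ℝ) ^ 2 * (1 / (s : ℝ) ^ 4) = 1 / (s : ℝ) ^ 2 := by field_simp
        rw [h8, div_le_one (by positivity)]
        have : (1 : ℝ) ≤ s := by exact_mod_cast hs
        nlinarith
      rw [h6] at h3
      linarith
    calc 2 * (s : ℝ) ^ 2 + ∑ i, E 1 (fun x => pr (U i) x ^ 4)
        ≤ 2 * (s : ℝ) ^ 2 + ∑ i : ι, (4 : ℝ) := by
          have := Finset.sum_le_sum (fun i (_ : i ∈ Finset.univ) => h2 i)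
          linarith
      _ = 6 * (s : ℝ) ^ 2 := by
          rw [Finset.sum_const, Finset.card_univ, nsmul_eq_mul, hcard']
          ring

theorem E_dual {s : ℕ} (hs : 1 ≤ s) {q : ℝ} (hq : 2 ≤ q) (hcard : Fintype.card ι = s ^ 2) :
    E (ι := ι) (1 / (s : ℝ)) (fun z => (∑ i, z i ^ 2) ^ (1 - 1 / q)) ≤
      (s : ℝ) ^ (1 - 1 / q) := by
  have hs0 : (0 : ℝ) < s := by exact_mod_cast hs
  have hs1 : (1 : ℝ) ≤ s := by exact_mod_cast hs
  have ha : (0 : ℝ) ≤ 1 / s := by positivity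
  have ha1 : 1 / (s : ℝ) ≤ 1 := by rw [div_le_one hs0]; exact hs1
  have hcard' : (Fintype.card ι : ℝ) = (s : ℝ) ^ 2 := by exact_mod_cast hcard
  have hq1 : 1 / q ≤ 1 := by rw [div_le_one (by linarith)]; linarith
  have hq0 : 0 ≤ 1 / q := by positivity
  refine E_rpow ha ha1 _ (by linarith) (by linarith) hs0
    (fun z => Finset.sum_nonneg (fun i _ => sq_nonneg _)) ?_
  rw [E_sum]
  have h1 : ∀ i : ι, E (1 / (s : ℝ)) (fun z => z i ^ 2) = 1 / s := by
    intro i
    have h2 := E_sq (1 / (s : ℝ)) (sg i)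
    have h3 : ∀ z : ι → ℝ, pr (sg i) z = z i := by
      intro z
      rw [pr, Finset.sum_eq_single i]
      · simp [sg_self]
      · intro k _ hk
        simp [sg_ne hk]
      · intro h; exact absurd (Finset.mem_univ i) h
    have h4 : ∑ k, sg i k ^ 2 = 1 := by
      rw [Finset.sum_eq_single i]
      · simp [sg_self]
      · intro k _ hk
        simp [sg_ne hk]
      · intro h; exact absurd (Finset.mem_univ i) h
    simp only [h3, h4, mul_one] at h2
    exact h2
  simp only [h1, Finset.sum_const, Finset.card_univ, nsmul_eq_mul, hcard']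
  have : (s : ℝ) ^ 2 * (1 / (s : ℝ)) = s := by field_simp
  rw [this]

omit [DecidableEq ι] in
/-- Hoelder for vectors with values in `{0, 1, -1}` -/
theorem holder_sign {q : ℝ} (hq : 2 ≤ q) (z : ι → ℝ) (hz : ∀ i, z i = 0 ∨ z i = 1 ∨ z i = -1)
    (v : ι → ℝ) :
    |pr v z| ≤ (∑ i, |v i| ^ q) ^ (1 / q) * (∑ i, z i ^ 2) ^ (1 - 1 / q) := by
  have hpq : q.HolderConjugate (q.conjExponent) :=
    Real.HolderConjugate.conjExponent (by linarith)
  have h1 := Real.inner_le_Lp_mul_Lq Finset.univ (fun i => |v i|) (fun i => |z i|) hpq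
  have h2 : |pr v z| ≤ ∑ i, |v i| * |z i| := by
    rw [pr]
    refine (Finset.abs_sum_le_sum_abs _ _).trans (le_of_eq ?_)
    apply Finset.sum_congr rfl
    intro i _
    rw [abs_mul]
  have h3 : 1 / q.conjExponent = 1 - 1 / q := by
    have := hpq.inv_add_inv_eq_one
    simp only [one_div]
    linarith
  have h4 : ∀ i, |z i| ^ q.conjExponent = z i ^ 2 := by
    intro i
    have hne : q.conjExponent ≠ 0 := hpq.symm.ne_zero
    rcases hz i with h | h | h
    · rw [h, abs_zero, Real.zero_rpow hne]; norm_num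
    · rw [h, abs_one, Real.one_rpow]; norm_num
    · rw [h, abs_neg, abs_one, Real.one_rpow]; norm_num
  simp only [abs_abs, h4, h3] at h1
  exact h2.trans h1

omit [DecidableEq ι] in
theorem trace_one {J : Type*} [Fintype J] {q g : ℝ} (hq : 2 ≤ q) (U : Matrix ι ι ℝ)
    (ξ b : J → ι → ℝ)
    (h : ∀ θ : J → ℝ, (∀ j, |θ j| ≤ 1) → ∀ x : ι → ℝ,
      nA q U (∑ j, (θ j * ∑ i, ξ j i * x i) • b j) ≤ g * nA q U x)
    (x z : ι → ℝ) (hz : ∀ i, z i = 0 ∨ z i = 1 ∨ z i = -1) :
    ∑ j, |pr (ξ j) x| * |pr (b j) z| ≤ g * nA q U x * (∑ i, z i ^ 2) ^ (1 - 1 / q) ∧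
    ∑ j, |pr (ξ j) x| * |pr (U.mulVec (b j)) z| ≤
      g * nA q U x * (∑ i, z i ^ 2) ^ (1 - 1 / q) := by
  have hN : 0 ≤ (∑ i, z i ^ 2) ^ (1 - 1 / q) :=
    Real.rpow_nonneg (Finset.sum_nonneg (fun i _ => sq_nonneg _)) _
  have hsg : ∀ y : ℝ, |(SignType.sign y : ℝ)| ≤ 1 := by
    intro y
    rcases lt_trichotomy y 0 with hy | hy | hy
    · simp [sign_neg hy]
    · simp [hy]
    · simp [sign_pos hy]
  have hA : ∀ w : ι → ℝ, 0 ≤ ∑ i, |w i| ^ q :=
    fun w => Finset.sum_nonneg (fun i _ => Real.rpow_nonneg (abs_nonneg _) _)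
  have hlin : ∀ (θ : J → ℝ) (L : (ι → ℝ) →ₗ[ℝ] ℝ),
      L (∑ j, (θ j * ∑ i, ξ j i * x i) • b j) = ∑ j, θ j * pr (ξ j) x * L (b j) := by
    intro θ L
    rw [map_sum]
    apply Finset.sum_congr rfl
    intro j _
    rw [map_smul, smul_eq_mul]
    rfl
  have hmain : ∀ L : (ι → ℝ) →ₗ[ℝ] ℝ,
      (∀ w, |L w| ≤ nA q U w * (∑ i, z i ^ 2) ^ (1 - 1 / q)) →
      ∑ j, |pr (ξ j) x| * |L (b j)| ≤ g * nA q U x * (∑ i, z i ^ 2) ^ (1 - 1 / q) := by
    intro L hL
    set θ : J → ℝ := fun j => (SignType.sign (pr (ξ j) x * L (b j)) : ℝ) with hθ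
    have h1 := h θ (fun j => hsg _) x
    have h2 := hL (∑ j, (θ j * ∑ i, ξ j i * x i) • b j)
    rw [hlin] at h2
    have h3 : ∑ j, θ j * pr (ξ j) x * L (b j) = ∑ j, |pr (ξ j) x| * |L (b j)| := by
      apply Finset.sum_congr rfl
      intro j _
      rw [mul_assoc, hθ]
      simp only
      rw [sign_mul_self, abs_mul]
    rw [h3] at h2
    exact (le_abs_self _).trans (h2.trans (mul_le_mul_of_nonneg_right h1 hN))
  constructor
  · have h1 := hmain (LinearMap.mk (AddHom.mk (fun w => pr w z) (by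
      intro a b; simp only [pr, Pi.add_apply, add_mul, Finset.sum_add_distrib])) (by
      intro c w; simp only [pr, Pi.smul_apply, smul_eq_mul, mul_assoc, Finset.mul_sum,
        RingHom.id_apply])) (by
      intro w
      refine (holder_sign hq z hz w).trans (mul_le_mul_of_nonneg_right ?_ hN)
      exact Real.rpow_le_rpow (hA _) (le_add_of_nonneg_right (hA _)) (by positivity))
    exact h1
  · have h1 := hmain (LinearMap.mk (AddHom.mk (fun w => pr (U.mulVec w) z) (by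
      intro a b; simp only [pr, Matrix.mulVec_add, Pi.add_apply, add_mul,
        Finset.sum_add_distrib])) (by
      intro c w; simp only [pr, Matrix.mulVec_smul, Pi.smul_apply, smul_eq_mul, mul_assoc,
        Finset.mul_sum, RingHom.id_apply])) (by
      intro w
      refine (holder_sign hq z hz (U.mulVec w)).trans (mul_le_mul_of_nonneg_right ?_ hN)
      exact Real.rpow_le_rpow (hA _) (le_add_of_nonneg_left (hA _)) (by positivity))
    exact h1

end TR

theorem st_TR : St_TR := by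
  classical
  refine ⟨1 / 1728, by norm_num, ?_⟩
  intro s q hs hq hq4 ι _ U hcard hU hUe J _ ξ b g hg h
  have hs0 : (0 : ℝ) < s := by exact_mod_cast hs
  have hs1 : (1 : ℝ) ≤ s := by exact_mod_cast hs
  have ha : (0 : ℝ) ≤ 1 / s := by positivity
  have ha1 : 1 / (s : ℝ) ≤ 1 := by rw [div_le_one hs0]; exact hs1
  have hq1 : 1 / q ≤ 1 := by rw [div_le_one (by linarith)]; linarith
  have hq0 : 0 ≤ 1 / q := by positivity
  set r := Real.sqrt s with hr
  have hr0 : 0 < r := Real.sqrt_pos.mpr hs0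
  -- average over `z`
  have hnA : ∀ x, 0 ≤ nA q U x := fun x => Real.rpow_nonneg
    (add_nonneg (Finset.sum_nonneg (fun i _ => Real.rpow_nonneg (abs_nonneg _) _))
      (Finset.sum_nonneg (fun i _ => Real.rpow_nonneg (abs_nonneg _) _))) _
  have h1 : ∀ x, ∑ j, |TR.pr (ξ j) x| * (1 / 48 * (1 / r) * Real.sqrt (∑ i, b j i ^ 2)) ≤
      2 * (g * nA q U x) * (s : ℝ) ^ (1 - 1 / q) := by
    intro x
    have h2 : TR.E (1 / (s : ℝ)) (fun z => ∑ j, |TR.pr (ξ j) x| * |TR.pr (b j) z|) ≤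
        TR.E (1 / (s : ℝ)) (fun z => g * nA q U x * (∑ i, z i ^ 2) ^ (1 - 1 / q)) :=
      TR.E_mono ha ha1 _ _ (fun z hz => (TR.trace_one hq U ξ b h x z hz).1)
    have h3 : TR.E (1 / (s : ℝ)) (fun z => ∑ j, |TR.pr (ξ j) x| * |TR.pr (U.mulVec (b j)) z|) ≤
        TR.E (1 / (s : ℝ)) (fun z => g * nA q U x * (∑ i, z i ^ 2) ^ (1 - 1 / q)) :=
      TR.E_mono ha ha1 _ _ (fun z hz => (TR.trace_one hq U ξ b h x z hz).2)
    rw [TR.E_sum, TR.E_mul] at h2 h3
    simp only [TR.E_mul] at h2 h3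
    have h4 := TR.E_dual (ι := ι) hs hq hcard
    have h5 : g * nA q U x * TR.E (ι := ι) (1 / (s : ℝ)) (fun z => (∑ i, z i ^ 2) ^ (1 - 1 / q)) ≤
        g * nA q U x * (s : ℝ) ^ (1 - 1 / q) :=
      mul_le_mul_of_nonneg_left h4 (mul_nonneg hg (hnA x))
    have h6 : ∑ j, |TR.pr (ξ j) x| * (1 / 48 * (1 / r) * Real.sqrt (∑ i, b j i ^ 2)) ≤
        ∑ j, |TR.pr (ξ j) x| * (TR.E (1 / (s : ℝ)) (fun z => |TR.pr (b j) z|) +
          TR.E (1 / (s : ℝ)) (fun z => |TR.pr (U.mulVec (b j)) z|)) := by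
      apply Finset.sum_le_sum
      intro j _
      exact mul_le_mul_of_nonneg_left (TR.two_lower hs U hU hUe (b j)) (abs_nonneg _)
    simp only [mul_add, Finset.sum_add_distrib] at h6
    linarith
  -- average over `x`
  have h2 : TR.E 1 (fun x => ∑ j, (1 / 48 * (1 / r) * Real.sqrt (∑ i, b j i ^ 2)) *
      |TR.pr (ξ j) x|) ≤ TR.E 1 (fun x => (2 * g * (s : ℝ) ^ (1 - 1 / q)) * nA q U x) := by
    apply TR.E_mono zero_le_one le_rfl
    intro x _
    have h3 := h1 x
    calc _ = ∑ j, |TR.pr (ξ j) x| * (1 / 48 * (1 / r) * Real.sqrt (∑ i, b j i ^ 2)) := by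
          apply Finset.sum_congr rfl
          intro j _
          ring
      _ ≤ _ := h3
      _ = _ := by ring
  rw [TR.E_sum, TR.E_mul] at h2
  simp only [TR.E_mul] at h2
  have h3 := TR.E_nA hs hq hq4 U hcard hUe
  have h4 : ∑ j, (1 / 48 * (1 / r) * Real.sqrt (∑ i, b j i ^ 2)) *
      (1 / 3 * Real.sqrt (∑ i, ξ j i ^ 2)) ≤
      ∑ j, (1 / 48 * (1 / r) * Real.sqrt (∑ i, b j i ^ 2)) *
        TR.E 1 (fun x => |TR.pr (ξ j) x|) := by
    apply Finset.sum_le_sum
    intro j _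
    exact mul_le_mul_of_nonneg_left (TR.E_one_lower (ξ j)) (by positivity)
  have h5 : (6 * (s : ℝ) ^ 2) ^ (1 / q) ≤ 6 * (s : ℝ) ^ (2 / q) := by
    rw [Real.mul_rpow (by norm_num) (by positivity), ← Real.rpow_natCast (s : ℝ) 2,
      ← Real.rpow_mul hs0.le]
    have h6 : (6 : ℝ) ^ (1 / q) ≤ 6 := by
      calc (6 : ℝ) ^ (1 / q) ≤ (6 : ℝ) ^ (1 : ℝ) :=
            Real.rpow_le_rpow_of_exponent_le (by norm_num) hq1
        _ = 6 := Real.rpow_one 6
    have h7 : ((2 : ℕ) : ℝ) * (1 / q) = 2 / q := by push_cast; ring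
    rw [h7]
    exact mul_le_mul_of_nonneg_right h6 (Real.rpow_nonneg hs0.le _)
  have h6 : |∑ j, ∑ i, ξ j i * b j i| ≤
      ∑ j, Real.sqrt (∑ i, b j i ^ 2) * Real.sqrt (∑ i, ξ j i ^ 2) := by
    refine (Finset.abs_sum_le_sum_abs _ _).trans (Finset.sum_le_sum (fun j _ => ?_))
    rw [mul_comm, abs_le]
    constructor
    · have := Real.sum_mul_le_sqrt_mul_sqrt Finset.univ (fun i => - ξ j i) (fun i => b j i)
      simp only [neg_mul, Finset.sum_neg_distrib, neg_sq] at this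
      linarith
    · exact Real.sum_mul_le_sqrt_mul_sqrt Finset.univ (fun i => ξ j i) (fun i => b j i)
  have h7 : ∑ j, (1 / 48 * (1 / r) * Real.sqrt (∑ i, b j i ^ 2)) *
      (1 / 3 * Real.sqrt (∑ i, ξ j i ^ 2)) =
      1 / 144 * (1 / r) * ∑ j, Real.sqrt (∑ i, b j i ^ 2) * Real.sqrt (∑ i, ξ j i ^ 2) := by
    rw [Finset.mul_sum]
    apply Finset.sum_congr rfl
    intro j _
    ring
  have h8 : 1 / 144 * (1 / r) * |∑ j, ∑ i, ξ j i * b j i| ≤
      2 * g * (s : ℝ) ^ (1 - 1 / q) * (6 * (s : ℝ) ^ (2 / q)) := by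
    calc 1 / 144 * (1 / r) * |∑ j, ∑ i, ξ j i * b j i| ≤ 1 / 144 * (1 / r) *
          ∑ j, Real.sqrt (∑ i, b j i ^ 2) * Real.sqrt (∑ i, ξ j i ^ 2) :=
          mul_le_mul_of_nonneg_left h6 (by positivity)
      _ ≤ 2 * g * (s : ℝ) ^ (1 - 1 / q) * TR.E 1 (fun x => nA q U x) := by
          rw [← h7]; exact h4.trans h2
      _ ≤ 2 * g * (s : ℝ) ^ (1 - 1 / q) * (6 * (s : ℝ) ^ (2 / q)) :=
          mul_le_mul_of_nonneg_left (h3.trans h5) (by positivity)
  have h9 : (s : ℝ) ^ (1 / 2 - 1 / q) * (r * (s : ℝ) ^ (1 - 1 / q) * (s : ℝ) ^ (2 / q)) =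
      (s : ℝ) ^ 2 := by
    rw [hr, Real.sqrt_eq_rpow, ← Real.rpow_add hs0, ← Real.rpow_add hs0, ← Real.rpow_add hs0,
      ← Real.rpow_natCast]
    congr 1
    push_cast
    ring
  have hp : 0 < (s : ℝ) ^ (1 / 2 - 1 / q) := Real.rpow_pos_of_pos hs0 _
  have h10 := mul_le_mul_of_nonneg_left h8
    (by positivity : 0 ≤ 1 / 12 * r * (s : ℝ) ^ (1 / 2 - 1 / q))
  calc 1 / 1728 * (s : ℝ) ^ (1 / 2 - 1 / q) * |∑ j, ∑ i, ξ j i * b j i|
      = 1 / 12 * r * (s : ℝ) ^ (1 / 2 - 1 / q) *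
        (1 / 144 * (1 / r) * |∑ j, ∑ i, ξ j i * b j i|) := by field_simp; ring
    _ ≤ _ := h10
    _ = g * ((s : ℝ) ^ (1 / 2 - 1 / q) * (r * (s : ℝ) ^ (1 - 1 / q) * (s : ℝ) ^ (2 / q))) := by
        ring
    _ = g * (s : ℝ) ^ 2 := by rw [h9]


end Run7.h157.G
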