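import Mathlib
import Pool.Agent.R227.IT1
import Pool.Agent.Run7.h157.G.Iface

/-!
Piece WAL (helper714) of project G of helper157: the Walsh-Hadamard matrix in the natural order,
partial sums in `l_q`.
-/

set_option autoImplicit false

noncomputable section

namespace Run7.h157.G

open Finset Filter Topology

namespace WAL

/-- the entries `±1` of the Walsh-Hadamard matrix -/
def wal : ℕ → ℕ → ℕ → ℝ
  | 0, _, _ => 1
  | D + 1, u, w => (if 2 ^ D ≤ u ∧ 2 ^ D ≤ w then -1 else 1) * wal D (u % 2 ^ D) (w % 2 ^ D)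

theorem abs_wal (D u w : ℕ) : |wal D u w| = 1 := by
  induction D generalizing u w with
  | zero => simp [wal]
  | succ D ih =>
    rw [wal, abs_mul, ih, mul_one]
    split_ifs <;> simp

theorem wal_comm (D u w : ℕ) : wal D u w = wal D w u := by
  induction D generalizing u w with
  | zero => simp [wal]
  | succ D ih =>
    rw [wal, wal, ih]
    simp only [and_comm]

/-- first half -/
theorem wal_lo (D u w : ℕ) (hw : w < 2 ^ D) : wal (D + 1) u w = wal D (u % 2 ^ D) w := by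
  rw [wal, if_neg (by omega), one_mul, Nat.mod_eq_of_lt hw]

/-- second half -/
theorem wal_hi (D u w : ℕ) (hw : w < 2 ^ D) :
    wal (D + 1) u (2 ^ D + w) = (if 2 ^ D ≤ u then -1 else 1) * wal D (u % 2 ^ D) w := by
  rw [wal, Nat.add_mod_left, Nat.mod_eq_of_lt hw]
  congr 1
  simp

/-- the kernel of the partial sums (not normalised) -/
def K (D j u v : ℕ) : ℝ := ∑ w ∈ range (2 ^ D), if w < j then wal D u w * wal D v w else 0

theorem K_comm (D j u v : ℕ) : K D j u v = K D j v u := by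
  unfold K
  refine sum_congr rfl fun w _ => ?_
  rw [mul_comm]

/-- the sign of the block -/
def sg (D u : ℕ) : ℝ := if 2 ^ D ≤ u then -1 else 1

theorem abs_sg (D u : ℕ) : |sg D u| = 1 := by
  unfold sg
  split_ifs <;> simp

theorem K_succ (D j u v : ℕ) : K (D + 1) j u v =
    K D j (u % 2 ^ D) (v % 2 ^ D) + sg D u * sg D v * K D (j - 2 ^ D) (u % 2 ^ D) (v % 2 ^ D) := by
  unfold K
  rw [pow_succ, mul_two, sum_range_add, mul_sum]
  congr 1
  · refine sum_congr rfl fun w hw => ?_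
    rw [wal_lo D u w (mem_range.1 hw), wal_lo D v w (mem_range.1 hw)]
  · refine sum_congr rfl fun w hw => ?_
    rw [wal_hi D u w (mem_range.1 hw), wal_hi D v w (mem_range.1 hw)]
    have h : 2 ^ D + w < j ↔ w < j - 2 ^ D := by omega
    simp only [h, sg]
    split_ifs <;> ring

/-- orthogonality -/
theorem K_full (D j u v : ℕ) (hj : 2 ^ D ≤ j) (hu : u < 2 ^ D) (hv : v < 2 ^ D) :
    K D j u v = if u = v then (2 : ℝ) ^ D else 0 := by
  induction D generalizing u v j with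
  | zero =>
    have h1 : u = 0 := by simpa using hu
    have h2 : v = 0 := by simpa using hv
    subst h1 h2
    have : 0 < j := by
      rw [pow_zero] at hj
      omega
    simp only [K, wal, pow_zero, range_one, sum_singleton, if_pos this, mul_one, if_true]
  | succ D ih =>
    have hp : 2 ^ (D + 1) = 2 ^ D + 2 ^ D := by rw [pow_succ, mul_two]
    have hpos : 0 < 2 ^ D := by positivity
    have hu' : u % 2 ^ D < 2 ^ D := Nat.mod_lt _ hpos
    have hv' : v % 2 ^ D < 2 ^ D := Nat.mod_lt _ hpos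
    rw [K_succ, ih j _ _ (by omega) hu' hv', ih (j - 2 ^ D) _ _ (by omega) hu' hv']
    have eu : u = (if 2 ^ D ≤ u then 2 ^ D else 0) + u % 2 ^ D := by
      split_ifs with h
      · have : u % 2 ^ D = u - 2 ^ D := by
          rw [Nat.mod_eq_sub_mod h, Nat.mod_eq_of_lt (by omega)]
        omega
      · rw [Nat.mod_eq_of_lt (by omega), zero_add]
    have ev : v = (if 2 ^ D ≤ v then 2 ^ D else 0) + v % 2 ^ D := by
      split_ifs with h
      · have : v % 2 ^ D = v - 2 ^ D := by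
          rw [Nat.mod_eq_sub_mod h, Nat.mod_eq_of_lt (by omega)]
        omega
      · rw [Nat.mod_eq_of_lt (by omega), zero_add]
    unfold sg
    by_cases h1 : u = v
    · subst h1
      rw [if_pos rfl, if_pos rfl]
      split_ifs <;> ring
    · rw [if_neg h1]
      by_cases h2 : u % 2 ^ D = v % 2 ^ D
      · rw [if_pos h2]
        by_cases h3 : 2 ^ D ≤ u
        · by_cases h4 : 2 ^ D ≤ v
          · rw [if_pos h3] at eu
            rw [if_pos h4] at ev
            omega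
          · rw [if_pos h3, if_neg h4]
            ring
        · by_cases h4 : 2 ^ D ≤ v
          · rw [if_neg h3, if_pos h4]
            ring
          · rw [if_neg h3] at eu
            rw [if_neg h4] at ev
            omega
      · rw [if_neg h2]
        ring

/-- row sums -/
theorem row (D j u : ℕ) (hu : u < 2 ^ D) :
    ∑ v ∈ range (2 ^ D), |K D j u v| ≤ ((D : ℝ) + 1) * 2 ^ D := by
  induction D generalizing u j with
  | zero =>
    have h1 : u = 0 := by simpa using hu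
    subst h1
    simp only [pow_zero, range_one, sum_singleton, K, wal]
    split_ifs <;> simp
  | succ D ih =>
    have hp : 2 ^ (D + 1) = 2 ^ D + 2 ^ D := by rw [pow_succ, mul_two]
    have hpos : 0 < 2 ^ D := by positivity
    have hu' : u % 2 ^ D < 2 ^ D := Nat.mod_lt _ hpos
    have key : ∀ v, |K (D + 1) j u v| ≤
        (if u % 2 ^ D = v % 2 ^ D then (2 : ℝ) ^ D else 0) +
          |K D (if j ≤ 2 ^ D then j else j - 2 ^ D) (u % 2 ^ D) (v % 2 ^ D)| := by
      intro v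
      have hv' : v % 2 ^ D < 2 ^ D := Nat.mod_lt _ hpos
      rw [K_succ]
      split_ifs with h1 h2 h2
      · have h0 : K D (j - 2 ^ D) (u % 2 ^ D) (v % 2 ^ D) = 0 := by
          unfold K
          refine sum_eq_zero fun w _ => ?_
          rw [if_neg (by omega)]
        rw [h0, mul_zero, add_zero]
        have : (0 : ℝ) ≤ 2 ^ D := by positivity
        linarith
      · refine (abs_add_le _ _).trans ?_
        rw [abs_mul, abs_mul, abs_sg, abs_sg, one_mul, one_mul]
        refine add_le_add ?_ le_rfl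
        rw [K_full D j _ _ (by omega) hu' hv', if_pos h1, abs_of_nonneg (by positivity)]
      · have h0 : K D (j - 2 ^ D) (u % 2 ^ D) (v % 2 ^ D) = 0 := by
          unfold K
          refine sum_eq_zero fun w _ => ?_
          rw [if_neg (by omega)]
        rw [h0, mul_zero, add_zero, zero_add]
      · refine (abs_add_le _ _).trans ?_
        rw [abs_mul, abs_mul, abs_sg, abs_sg, one_mul, one_mul]
        refine add_le_add ?_ le_rfl
        rw [K_full D j _ _ (by omega) hu' hv', if_neg h1, abs_zero]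
    refine (sum_le_sum fun v _ => key v).trans ?_
    rw [hp, sum_range_add]
    have half : ∑ v ∈ range (2 ^ D), ((if u % 2 ^ D = v % 2 ^ D then (2 : ℝ) ^ D else 0) +
          |K D (if j ≤ 2 ^ D then j else j - 2 ^ D) (u % 2 ^ D) (v % 2 ^ D)|) ≤
        2 ^ D + ((D : ℝ) + 1) * 2 ^ D := by
      rw [sum_add_distrib]
      refine add_le_add ?_ ?_
      · have : ∑ v ∈ range (2 ^ D), (if u % 2 ^ D = v % 2 ^ D then (2 : ℝ) ^ D else 0) =
            ∑ v ∈ range (2 ^ D), (if u % 2 ^ D = v then (2 : ℝ) ^ D else 0) := by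
          refine sum_congr rfl fun v hv => ?_
          rw [Nat.mod_eq_of_lt (mem_range.1 hv)]
        rw [this, sum_ite_eq, if_pos (mem_range.2 hu')]
      · refine (le_of_eq ?_).trans (ih (if j ≤ 2 ^ D then j else j - 2 ^ D) _ hu')
        refine sum_congr rfl fun v hv => ?_
        rw [Nat.mod_eq_of_lt (mem_range.1 hv)]
    have e2 : ∑ x ∈ range (2 ^ D), ((if u % 2 ^ D = (2 ^ D + x) % 2 ^ D then (2 : ℝ) ^ D else 0) +
          |K D (if j ≤ 2 ^ D then j else j - 2 ^ D) (u % 2 ^ D) ((2 ^ D + x) % 2 ^ D)|) =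
        ∑ v ∈ range (2 ^ D), ((if u % 2 ^ D = v % 2 ^ D then (2 : ℝ) ^ D else 0) +
          |K D (if j ≤ 2 ^ D then j else j - 2 ^ D) (u % 2 ^ D) (v % 2 ^ D)|) := by
      refine sum_congr rfl fun v _ => ?_
      rw [Nat.add_mod_left]
    rw [e2]
    push_cast
    rw [pow_succ]
    linarith

/-- the matrix -/
def U (D : ℕ) : Matrix (Fin (2 ^ D)) (Fin (2 ^ D)) ℝ := fun i j => wal D i j / Real.sqrt (2 ^ D)

theorem sq2 (D : ℕ) : Real.sqrt (2 ^ D) * Real.sqrt (2 ^ D) = 2 ^ D :=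
  Real.mul_self_sqrt (by positivity)

theorem abs_U (D : ℕ) (i j : Fin (2 ^ D)) : |U D i j| = (Real.sqrt (2 ^ D))⁻¹ := by
  unfold U
  rw [abs_div, abs_wal, abs_of_nonneg (Real.sqrt_nonneg _), one_div]

theorem UU (D : ℕ) : (U D).transpose * U D = 1 := by
  ext i j
  rw [Matrix.mul_apply, Matrix.one_apply]
  have h1 : ∑ k : Fin (2 ^ D), (U D).transpose i k * U D k j =
      K D (2 ^ D) i j / 2 ^ D := by
    unfold K
    rw [sum_div, ← Fin.sum_univ_eq_sum_range
      (fun w => (if w < 2 ^ D then wal D i w * wal D j w else 0) / (2 : ℝ) ^ D)]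
    refine sum_congr rfl fun k _ => ?_
    rw [if_pos k.2, Matrix.transpose_apply]
    unfold U
    rw [div_mul_div_comm, sq2, wal_comm D k i, wal_comm D k j]
  rw [h1, K_full D _ _ _ le_rfl i.2 j.2]
  by_cases h : i = j
  · subst h
    simp
  · rw [if_neg h, if_neg (fun h' => h (Fin.ext h')), zero_div]

/-- the projection -/
def cut {n : ℕ} (a : Fin n → ℝ) (j : ℕ) : Fin n → ℝ := fun u => if (u : ℕ) < j then a u else 0

/-- the partial sums as an integral operator -/
theorem part (D : ℕ) (a : Fin (2 ^ D) → ℝ) (j : ℕ) (u : Fin (2 ^ D)) :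
    (U D).mulVec (cut a j) u =
      ∑ v : Fin (2 ^ D), (K D j u v / 2 ^ D) * (U D).mulVec a v := by
  have ha : a = (U D).transpose.mulVec ((U D).mulVec a) := by
    rw [Matrix.mulVec_mulVec, UU, Matrix.one_mulVec]
  set f := (U D).mulVec a with hf
  have h1 : (U D).mulVec (cut a j) u = ∑ w : Fin (2 ^ D), ∑ v : Fin (2 ^ D),
      (if (w : ℕ) < j then wal D u w * wal D v w else 0) / 2 ^ D * f v := by
    unfold Matrix.mulVec dotProduct
    refine sum_congr rfl fun w _ => ?_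
    unfold cut
    split_ifs with h
    · have h2 : a w = ∑ v : Fin (2 ^ D), U D v w * f v := by
        conv_lhs => rw [ha]
        rfl
      rw [h2, mul_sum]
      refine sum_congr rfl fun v _ => ?_
      unfold U
      rw [← mul_assoc, div_mul_div_comm, sq2]
    · simp
  rw [h1, sum_comm]
  refine sum_congr rfl fun v _ => ?_
  unfold K
  rw [← sum_mul, ← sum_div, ← Fin.sum_univ_eq_sum_range
      (fun w => (if w < j then wal D u w * wal D v w else 0))]

/-- the norm in `l_2` is preserved -/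
theorem isom (D : ℕ) (x : Fin (2 ^ D) → ℝ) : ∑ i, (U D).mulVec x i ^ 2 = ∑ i, x i ^ 2 := by
  have h : dotProduct ((U D).mulVec x) ((U D).mulVec x) = dotProduct x x := by
    rw [Matrix.dotProduct_mulVec, Matrix.vecMul_mulVec, UU]
    simp
  unfold dotProduct at h
  simpa only [pow_two] using h

theorem l2 (D : ℕ) (f : Fin (2 ^ D) → ℝ) (j : ℕ) :
    ∑ u : Fin (2 ^ D), (∑ v : Fin (2 ^ D), (K D j u v / 2 ^ D) * f v) ^ 2 ≤ ∑ v, f v ^ 2 := by
  -- f = U a with a = Uᵀ f
  have hU : (U D) * (U D).transpose = 1 := mul_eq_one_comm.1 (UU D)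
  have hf : f = (U D).mulVec ((U D).transpose.mulVec f) := by
    rw [Matrix.mulVec_mulVec, hU, Matrix.one_mulVec]
  set a := (U D).transpose.mulVec f with ha
  have h1 : ∀ u : Fin (2 ^ D), ∑ v : Fin (2 ^ D), (K D j u v / 2 ^ D) * f v =
      (U D).mulVec (cut a j) u := by
    intro u
    rw [part, ← hf]
  simp only [h1]
  rw [isom]
  conv_rhs => rw [hf]
  rw [isom]
  refine sum_le_sum fun v _ => ?_
  unfold cut
  split_ifs
  · exact le_rfl
  · rw [zero_pow two_ne_zero]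
    positivity

/-- the bound in `l_2`, complex version -/
theorem h2 (D j : ℕ) (b : ℕ → ℂ) :
    ∑ u ∈ range (2 ^ D), ‖∑ v ∈ range (2 ^ D), b v * ((K D j u v / 2 ^ D : ℝ) : ℂ)‖ ^ (2 : ℝ) ≤
      (1 : ℝ) ^ (2 : ℝ) * ∑ v ∈ range (2 ^ D), ‖b v‖ ^ (2 : ℝ) := by
  have hz : ∀ z : ℂ, ‖z‖ ^ (2 : ℝ) = z.re ^ 2 + z.im ^ 2 := by
    intro z
    rw [Real.rpow_two, ← Complex.normSq_eq_norm_sq, Complex.normSq_apply]
    ring
  rw [Real.one_rpow, one_mul]
  simp only [hz, sum_add_distrib, Complex.re_sum, Complex.im_sum, Complex.re_mul_ofReal,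
    Complex.im_mul_ofReal]
  have h := l2 D (fun v => (b v).re) j
  have h' := l2 D (fun v => (b v).im) j
  have e : ∀ g : ℕ → ℝ, ∑ u : Fin (2 ^ D), (∑ v : Fin (2 ^ D), (K D j u v / 2 ^ D) * g v) ^ 2 =
      ∑ u ∈ range (2 ^ D), (∑ v ∈ range (2 ^ D), g v * (K D j u v / 2 ^ D)) ^ 2 := by
    intro g
    rw [← Fin.sum_univ_eq_sum_range
      (fun u => (∑ v ∈ range (2 ^ D), g v * (K D j u v / 2 ^ D)) ^ 2)]
    refine sum_congr rfl fun u _ => ?_
    rw [← Fin.sum_univ_eq_sum_range (fun v => g v * (K D j u v / 2 ^ D))]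
    congr 1
    refine sum_congr rfl fun v _ => ?_
    rw [mul_comm]
  have e' : ∀ g : ℕ → ℝ, ∑ v : Fin (2 ^ D), g v ^ 2 = ∑ v ∈ range (2 ^ D), g v ^ 2 := by
    intro g
    rw [← Fin.sum_univ_eq_sum_range (fun v => g v ^ 2)]
  rw [e (fun v => (b v).re), e' (fun v => (b v).re)] at h
  rw [e (fun v => (b v).im), e' (fun v => (b v).im)] at h'
  exact add_le_add h h'

/-- the bound in `l_p` for large `p` -/
theorem hp (D j : ℕ) (p : ℝ) (hp : 1 ≤ p) (b : ℕ → ℂ) :
    ∑ u ∈ range (2 ^ D), ‖∑ v ∈ range (2 ^ D), b v * ((K D j u v / 2 ^ D : ℝ) : ℂ)‖ ^ p ≤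
      (((2 : ℝ) ^ D) ^ (1 / p) * ((D : ℝ) + 1)) ^ p * ∑ v ∈ range (2 ^ D), ‖b v‖ ^ p := by
  have hp0 : 0 < p := by linarith
  set T := ∑ v ∈ range (2 ^ D), ‖b v‖ ^ p with hT
  have hT0 : 0 ≤ T := sum_nonneg fun v _ => Real.rpow_nonneg (norm_nonneg _) _
  have hb : ∀ v ∈ range (2 ^ D), ‖b v‖ ≤ T ^ (1 / p) := by
    intro v hv
    have h1 : ‖b v‖ ^ p ≤ T :=
      single_le_sum (f := fun v => ‖b v‖ ^ p) (fun v _ => Real.rpow_nonneg (norm_nonneg _) _) hv
    have h2 := Real.rpow_le_rpow (Real.rpow_nonneg (norm_nonneg _) _) h1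
      (by positivity : 0 ≤ 1 / p)
    rwa [← Real.rpow_mul (norm_nonneg _), mul_one_div_cancel hp0.ne', Real.rpow_one] at h2
  have key : ∀ u ∈ range (2 ^ D),
      ‖∑ v ∈ range (2 ^ D), b v * ((K D j u v / 2 ^ D : ℝ) : ℂ)‖ ^ p ≤ ((D : ℝ) + 1) ^ p * T := by
    intro u hu
    have h1 : ‖∑ v ∈ range (2 ^ D), b v * ((K D j u v / 2 ^ D : ℝ) : ℂ)‖ ≤
        ((D : ℝ) + 1) * T ^ (1 / p) := by
      refine (norm_sum_le _ _).trans ?_
      have h3 : ∀ v ∈ range (2 ^ D), ‖b v * ((K D j u v / 2 ^ D : ℝ) : ℂ)‖ ≤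
          T ^ (1 / p) * (|K D j u v| / 2 ^ D) := by
        intro v hv
        rw [norm_mul, Complex.norm_real, Real.norm_eq_abs, abs_div,
          abs_of_pos (by positivity : (0 : ℝ) < 2 ^ D)]
        exact mul_le_mul_of_nonneg_right (hb v hv) (by positivity)
      refine (sum_le_sum h3).trans ?_
      rw [← mul_sum, ← sum_div, mul_comm]
      refine mul_le_mul_of_nonneg_right ?_ (by positivity)
      rw [div_le_iff₀ (by positivity)]
      exact row D j u (mem_range.1 hu)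
    refine (Real.rpow_le_rpow (norm_nonneg _) h1 hp0.le).trans ?_
    rw [Real.mul_rpow (by positivity) (by positivity), ← Real.rpow_mul hT0,
      one_div_mul_cancel hp0.ne', Real.rpow_one]
  refine (sum_le_sum key).trans ?_
  rw [sum_const, card_range, nsmul_eq_mul, Real.mul_rpow (by positivity) (by positivity),
    ← Real.rpow_mul (by positivity), one_div_mul_cancel hp0.ne', Real.rpow_one]
  push_cast
  rw [mul_assoc]

/-- Riesz-Thorin for the partial sums, before the limit -/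
theorem rt (D j : ℕ) (q p : ℝ) (hq : 2 < q) (hqp : q < p) (b : ℕ → ℂ) :
    ∑ u ∈ range (2 ^ D), ‖∑ v ∈ range (2 ^ D), b v * ((K D j u v / 2 ^ D : ℝ) : ℂ)‖ ^ q ≤
      ((((2 : ℝ) ^ D) ^ (1 / p) * ((D : ℝ) + 1)) ^ (1 - (1 / q - 1 / p) / (1 / 2 - 1 / p))) ^ q *
        ∑ v ∈ range (2 ^ D), ‖b v‖ ^ q := by
  have key := Pool.Agent.R227.IT.rt2 2 p q 1 (((2 : ℝ) ^ D) ^ (1 / p) * ((D : ℝ) + 1)) one_lt_two
    hq hqp zero_le_one (by positivity) ((range (2 ^ D)).map Nat.castEmbedding)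
    ((range (2 ^ D)).map Nat.castEmbedding)
    (fun m n => ((K D j m.toNat n.toNat / 2 ^ D : ℝ) : ℂ)) ?_ ?_ _ rfl (fun n => b n.toNat)
  · simpa only [sum_map, Nat.castEmbedding_apply, Int.toNat_natCast, Real.one_rpow, mul_one]
      using key
  · intro a
    have := h2 D j (fun n => a n)
    simpa only [sum_map, Nat.castEmbedding_apply, Int.toNat_natCast] using this
  · intro a
    have := hp D j p (by linarith) (fun n => a n)
    simpa only [sum_map, Nat.castEmbedding_apply, Int.toNat_natCast] using this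

/-- the bound in `l_q` -/
theorem bd (D j : ℕ) (q : ℝ) (hq : 2 ≤ q) (b : ℕ → ℂ) :
    ∑ u ∈ range (2 ^ D), ‖∑ v ∈ range (2 ^ D), b v * ((K D j u v / 2 ^ D : ℝ) : ℂ)‖ ^ q ≤
      (((D : ℝ) + 1) ^ (1 - 2 / q)) ^ q * ∑ v ∈ range (2 ^ D), ‖b v‖ ^ q := by
  rcases hq.eq_or_lt with rfl | hq
  · have := h2 D j b
    rwa [div_self two_ne_zero, sub_self, Real.rpow_zero]
  have hq0 : q ≠ 0 := by linarith
  have hD : (0 : ℝ) < (D : ℝ) + 1 := by positivity
  have t0 : Tendsto (fun p : ℝ => 1 / p) atTop (𝓝 0) := by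
    simpa only [one_div] using tendsto_inv_atTop_zero
  have t1 : Tendsto (fun p : ℝ => ((2 : ℝ) ^ D) ^ (1 / p) * ((D : ℝ) + 1)) atTop
      (𝓝 ((D : ℝ) + 1)) := by
    have h1 : Tendsto (fun p : ℝ => ((2 : ℝ) ^ D) ^ (1 / p)) atTop (𝓝 (((2 : ℝ) ^ D) ^ (0 : ℝ))) :=
      (Real.continuousAt_const_rpow (by positivity)).tendsto.comp t0
    rw [Real.rpow_zero] at h1
    simpa using h1.mul_const ((D : ℝ) + 1)
  have t2 : Tendsto (fun p : ℝ => 1 - (1 / q - 1 / p) / (1 / 2 - 1 / p)) atTop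
      (𝓝 (1 - 2 / q)) := by
    have h1 : Tendsto (fun p : ℝ => 1 - (1 / q - 1 / p) / (1 / 2 - 1 / p)) atTop
        (𝓝 (1 - (1 / q - 0) / (1 / 2 - 0))) :=
      tendsto_const_nhds.sub ((tendsto_const_nhds.sub t0).div (tendsto_const_nhds.sub t0)
        (by norm_num))
    have e : 1 - (1 / q - 0) / (1 / 2 - 0) = 1 - 2 / q := by
      field_simp
      ring
    rwa [e] at h1
  have t3 : Tendsto (fun p : ℝ => (((2 : ℝ) ^ D) ^ (1 / p) * ((D : ℝ) + 1)) ^
      (1 - (1 / q - 1 / p) / (1 / 2 - 1 / p))) atTop (𝓝 (((D : ℝ) + 1) ^ (1 - 2 / q))) :=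
    t1.rpow t2 (Or.inl hD.ne')
  have t4 := ((t3.rpow_const (p := q) (Or.inr (by linarith))).mul_const
    (∑ v ∈ range (2 ^ D), ‖b v‖ ^ q))
  refine ge_of_tendsto t4 ?_
  filter_upwards [eventually_gt_atTop q] with p hp
  exact rt D j q p hq hp b

end WAL

/-- piece WAL -/
theorem st_WAL : St_WAL := by
  intro D
  refine ⟨WAL.U D, WAL.UU D, WAL.abs_U D, ?_⟩
  intro q hq a j
  have hq0 : 0 < q := by linarith
  set f := (WAL.U D).mulVec a with hf
  have key := WAL.bd D j q hq (fun v => if h : v < 2 ^ D then ((f ⟨v, h⟩ : ℝ) : ℂ) else 0)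
  rw [← Fin.sum_univ_eq_sum_range (fun u => ‖∑ v ∈ range (2 ^ D),
      (if h : v < 2 ^ D then ((f ⟨v, h⟩ : ℝ) : ℂ) else 0) *
        ((WAL.K D j u v / 2 ^ D : ℝ) : ℂ)‖ ^ q),
    ← Fin.sum_univ_eq_sum_range (fun v =>
      ‖(if h : v < 2 ^ D then ((f ⟨v, h⟩ : ℝ) : ℂ) else 0)‖ ^ q)] at key
  have e1 : ∀ u : Fin (2 ^ D), ‖∑ v ∈ range (2 ^ D),
      (if h : v < 2 ^ D then ((f ⟨v, h⟩ : ℝ) : ℂ) else 0) *
        ((WAL.K D j u v / 2 ^ D : ℝ) : ℂ)‖ ^ q =
      |(WAL.U D).mulVec (fun u => if (u : ℕ) < j then a u else 0) u| ^ q := by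
    intro u
    have h1 := WAL.part D a j u
    have h2 : (WAL.U D).mulVec (fun u => if (u : ℕ) < j then a u else 0) u =
        (WAL.U D).mulVec (WAL.cut a j) u := rfl
    rw [h2, h1, ← hf, ← Fin.sum_univ_eq_sum_range (fun v =>
      (if h : v < 2 ^ D then ((f ⟨v, h⟩ : ℝ) : ℂ) else 0) *
        ((WAL.K D j u v / 2 ^ D : ℝ) : ℂ))]
    have h3 : ∑ v : Fin (2 ^ D), (if h : (v : ℕ) < 2 ^ D then ((f ⟨v, h⟩ : ℝ) : ℂ) else 0) *
        ((WAL.K D j u v / 2 ^ D : ℝ) : ℂ) =
        ((∑ v : Fin (2 ^ D), (WAL.K D j u v / 2 ^ D) * f v : ℝ) : ℂ) := by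
      rw [Complex.ofReal_sum]
      refine sum_congr rfl fun v _ => ?_
      rw [dif_pos v.2, Complex.ofReal_mul, mul_comm]
    rw [h3, Complex.norm_real, Real.norm_eq_abs]
  have e2 : ∀ v : Fin (2 ^ D), ‖(if h : (v : ℕ) < 2 ^ D then ((f ⟨v, h⟩ : ℝ) : ℂ) else 0)‖ ^ q =
      |f v| ^ q := by
    intro v
    rw [dif_pos v.2, Complex.norm_real, Real.norm_eq_abs]
  simp only [e1, e2] at key
  unfold lq
  have h0 : 0 ≤ ∑ i : Fin (2 ^ D), |f i| ^ q :=
    sum_nonneg fun i _ => Real.rpow_nonneg (abs_nonneg _) _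
  have h4 := Real.rpow_le_rpow (sum_nonneg fun i _ => Real.rpow_nonneg (abs_nonneg _) _) key
    (by positivity : 0 ≤ 1 / q)
  rwa [Real.mul_rpow (by positivity) h0, ← Real.rpow_mul (by positivity),
    mul_one_div_cancel hq0.ne', Real.rpow_one] at h4

end Run7.h157.G
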