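import Mathlib
import Pool.Agent.Run7.h157.G.E1
import Pool.Agent.Run7.h157.G.Iface

/-!
The space `X`.
-/

noncomputable section

namespace Run7.h157.G

open Set Filter Topology
open scoped ENNReal NNReal

variable {m : ℕ → ℝ≥0∞} {p : ℕ → ℝ} {κ : ℕ → ℕ} {nu : ℕ → (ℕ →₀ ℝ) → ℝ} {B : ℝ}

theorem ZoneSys.nu_zero (hZ : ZoneSys κ nu B) (n : ℕ) : nu n 0 = 0 := by
  have := hZ.smul n 0 0
  simpa using this

theorem ZoneSys.nu_eq_zero (hZ : ZoneSys κ nu B) {n : ℕ} {a : ℕ →₀ ℝ}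
    (h : ∀ i, κ n ≤ i → i < κ (n + 1) → a i = 0) : nu n a = 0 := by
  rw [hZ.loc n a 0 (fun i h1 h2 => by rw [h i h1 h2]; rfl), hZ.nu_zero]

theorem ZoneSys.nu_of_top (hZ : ZoneSys κ nu B) {n : ℕ} {a : ℕ →₀ ℝ} (h : top a ≤ n) :
    nu n a = 0 := by
  apply hZ.nu_eq_zero
  intro i h1 _
  by_contra hne
  have h2 : i < top a := lt_top (Finsupp.mem_support_iff.mpr hne)
  have h3 : n ≤ κ n := hZ.mono.id_le n
  omega

/-- the sequence of the squares of the zone norms -/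
def VV (nu : ℕ → (ℕ →₀ ℝ) → ℝ) (a : ℕ →₀ ℝ) : ℕ → ℝ≥0∞ := fun n => ENNReal.ofReal (nu n a ^ 2)

theorem MM_VV_ne_top (h : Par m p) (hZ : ZoneSys κ nu B) (a : ℕ →₀ ℝ) :
    MM m p (VV nu a) ≠ ∞ := by
  apply ne_top_of_le_ne_top _ ((nrm_MM h).sum _)
  rw [tsum_eq_sum (s := Finset.range (top a))]
  · exact ENNReal.sum_ne_top.mpr (fun n _ => ENNReal.ofReal_ne_top)
  · intro n hn
    rw [Finset.mem_range, not_lt] at hn
    unfold VV
    rw [hZ.nu_of_top hn]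
    simp

theorem ZNorm_sq (m : ℕ → ℝ≥0∞) (p : ℕ → ℝ) (nu : ℕ → (ℕ →₀ ℝ) → ℝ) (a : ℕ →₀ ℝ) :
    ZNorm m p nu a ^ 2 = (MM m p (VV nu a)).toReal :=
  Real.sq_sqrt ENNReal.toReal_nonneg

theorem ofReal_ZNorm_sq (h : Par m p) (hZ : ZoneSys κ nu B) (a : ℕ →₀ ℝ) :
    ENNReal.ofReal (ZNorm m p nu a ^ 2) = MM m p (VV nu a) := by
  rw [ZNorm_sq, ENNReal.ofReal_toReal (MM_VV_ne_top h hZ a)]

theorem ZNorm_nonneg (m : ℕ → ℝ≥0∞) (p : ℕ → ℝ) (nu : ℕ → (ℕ →₀ ℝ) → ℝ) (a : ℕ →₀ ℝ) :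
    0 ≤ ZNorm m p nu a := Real.sqrt_nonneg _

/-- comparison of the zone norms gives comparison of the norms -/
theorem ZNorm_le (h : Par m p) (hZ : ZoneSys κ nu B) {c : ℝ} (hc : 0 ≤ c) {a b : ℕ →₀ ℝ}
    (hab : ∀ n, nu n a ≤ c * nu n b) : ZNorm m p nu a ≤ c * ZNorm m p nu b := by
  have h1 : MM m p (VV nu a) ≤ ENNReal.ofReal (c ^ 2) * MM m p (VV nu b) := by
    rw [← (nrm_MM h).smul]
    apply (nrm_MM h).mono
    intro n
    unfold VV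
    rw [← ENNReal.ofReal_mul (by positivity)]
    apply ENNReal.ofReal_le_ofReal
    calc nu n a ^ 2 ≤ (c * nu n b) ^ 2 := pow_le_pow_left₀ (hZ.nonneg n a) (hab n) 2
      _ = _ := by ring
  have h2 : ZNorm m p nu a ^ 2 ≤ (c * ZNorm m p nu b) ^ 2 := by
    rw [mul_pow, ZNorm_sq, ZNorm_sq]
    have h3 := ENNReal.toReal_mono
      (ENNReal.mul_ne_top ENNReal.ofReal_ne_top (MM_VV_ne_top h hZ b)) h1
    rwa [ENNReal.toReal_mul, ENNReal.toReal_ofReal (by positivity)] at h3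
  exact (pow_le_pow_iff_left₀ (ZNorm_nonneg _ _ _ _)
    (mul_nonneg hc (ZNorm_nonneg _ _ _ _)) two_ne_zero).mp h2

/-- the zone norms are dominated by the norm -/
theorem nu_le_ZNorm_x (h : Par m p) (hZ : ZoneSys κ nu B) (n : ℕ) (a : ℕ →₀ ℝ) :
    nu n a ≤ ZNorm m p nu a := by
  have h1 : nu n a ^ 2 ≤ ZNorm m p nu a ^ 2 := by
    rw [ZNorm_sq]
    have h2 := (nrm_MM h).sup (VV nu a) n
    have h3 := ENNReal.toReal_mono (MM_VV_ne_top h hZ a) h2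
    unfold VV at h3
    rwa [ENNReal.toReal_ofReal (by positivity)] at h3
  exact (pow_le_pow_iff_left₀ (hZ.nonneg n a) (ZNorm_nonneg _ _ _ _) two_ne_zero).mp h1

theorem ZNorm_add (h : Par m p) (hE3 : St_E3) (hZ : ZoneSys κ nu B) (a b : ℕ →₀ ℝ) :
    ZNorm m p nu (a + b) ≤ ZNorm m p nu a + ZNorm m p nu b := by
  have h1 := hE3 m p h (fun n => ENNReal.ofReal (nu n a)) (fun n => ENNReal.ofReal (nu n b))
  have h2 : ∀ c : ℕ →₀ ℝ, (fun n => ENNReal.ofReal (nu n c) ^ 2) = VV nu c := by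
    intro c
    ext n
    unfold VV
    rw [ENNReal.ofReal_pow (hZ.nonneg n c)]
  rw [h2, h2] at h1
  have h3 : MM m p (VV nu (a + b)) ≤
      MM m p (fun n => (ENNReal.ofReal (nu n a) + ENNReal.ofReal (nu n b)) ^ 2) := by
    apply (nrm_MM h).mono
    intro n
    unfold VV
    rw [ENNReal.ofReal_pow (hZ.nonneg n _), ← ENNReal.ofReal_add (hZ.nonneg n a) (hZ.nonneg n b)]
    gcongr
    exact hZ.add n a b
  have h4 : MM m p (VV nu (a + b)) ^ (1 / 2 : ℝ) ≤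
      MM m p (VV nu a) ^ (1 / 2 : ℝ) + MM m p (VV nu b) ^ (1 / 2 : ℝ) :=
    (ENNReal.rpow_le_rpow h3 (by norm_num)).trans h1
  have h5 : ∀ c : ℕ →₀ ℝ, ZNorm m p nu c = (MM m p (VV nu c) ^ (1 / 2 : ℝ)).toReal := by
    intro c
    rw [← ENNReal.toReal_rpow, ← Real.sqrt_eq_rpow]
    rfl
  have h6 : ∀ c : ℕ →₀ ℝ, MM m p (VV nu c) ^ (1 / 2 : ℝ) ≠ ∞ := fun c =>
    ENNReal.rpow_ne_top_of_nonneg (by norm_num) (MM_VV_ne_top h hZ c)
  rw [h5, h5, h5, ← ENNReal.toReal_add (h6 a) (h6 b)]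
  exact ENNReal.toReal_mono (ENNReal.add_ne_top.mpr ⟨h6 a, h6 b⟩) h4

theorem ZNorm_smul (h : Par m p) (hZ : ZoneSys κ nu B) (c : ℝ) (a : ℕ →₀ ℝ) :
    ZNorm m p nu (c • a) = ‖c‖ * ZNorm m p nu a := by
  have h1 : MM m p (VV nu (c • a)) = ENNReal.ofReal (c ^ 2) * MM m p (VV nu a) := by
    rw [← (nrm_MM h).smul]
    congr 1
    ext n
    unfold VV
    rw [← ENNReal.ofReal_mul (by positivity), hZ.smul, mul_pow, sq_abs]
  unfold ZNorm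
  change √(MM m p (VV nu (c • a))).toReal = ‖c‖ * √(MM m p (VV nu a)).toReal
  rw [h1, ENNReal.toReal_mul, ENNReal.toReal_ofReal (by positivity),
    Real.sqrt_mul (by positivity), Real.sqrt_sq_eq_abs, Real.norm_eq_abs]

theorem ZNorm_eq_zero (h : Par m p) (hZ : ZoneSys κ nu B) {a : ℕ →₀ ℝ}
    (ha : ZNorm m p nu a = 0) : a = 0 := by
  ext i
  have h1 := bl_spec hZ.mono hZ.zero i
  apply hZ.definite (bl κ i) a _ i h1.1 h1.2
  exact le_antisymm (ha ▸ nu_le_ZNorm_x h hZ (bl κ i) a) (hZ.nonneg _ _)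

theorem st_X1 (hE3 : St_E3) : St_X1 := by
  intro m p κ nu B h hZ
  exact exists_space (ZNorm m p nu) (ZNorm_nonneg m p nu) (ZNorm_smul h hZ) (ZNorm_add h hE3 hZ)
    (fun a ha => ZNorm_eq_zero h hZ ha) hZ.one_le
    (fun a n => ZNorm_le h hZ (zero_le_one.trans hZ.one_le) (fun k => hZ.basis k a n))

end Run7.h157.G
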