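import Mathlib
import Pool.Agent.Run7.h157.G.X1
import Pool.Agent.Run7.h157.G.CAT
import Pool.Agent.Run7.h157.Main2
import Pool.Agent.Run7.h157.Match

/-!
Block-minimality of the space.
-/

noncomputable section

namespace Run7.h157.G

open Set Filter Topology
open scoped ENNReal NNReal

variable {m : ℕ → ℝ≥0∞} {p : ℕ → ℝ} {κ : ℕ → ℕ} {nu : ℕ → (ℕ →₀ ℝ) → ℝ} {B : ℝ}

theorem VV_h (h : Par m p) {hh : ℕ → (ℕ →₀ ℝ)}
    (hnorm : ∀ n (T : ℕ →₀ ℝ), nu n (lc hh T) =
      (∑ r ∈ Finset.Ico (κ n) (κ (n + 1)), |T r| ^ (2 * p n)) ^ (1 / (2 * p n)))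
    (T : ℕ →₀ ℝ) : VV nu (lc hh T) = HH p κ (fun r => ‖T r‖₊ ^ 2) := by
  ext n
  unfold VV HH
  have hp := h.pos n
  have h1 : nu n (lc hh T) ^ 2 =
      (∑ r ∈ Finset.Ico (κ n) (κ (n + 1)), (|T r| ^ 2) ^ p n) ^ (1 / p n) := by
    rw [hnorm]
    have h2 : ∀ r, |T r| ^ (2 * p n) = (|T r| ^ 2) ^ p n := by
      intro r
      rw [Real.rpow_mul (abs_nonneg _)]
      norm_num
    simp only [h2]
    rw [← Real.rpow_natCast, ← Real.rpow_mul (by positivity)]
    congr 1
    push_cast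
    field_simp
  rw [h1, ← ENNReal.ofReal_rpow_of_nonneg (by positivity) (by positivity),
    ENNReal.ofReal_sum_of_nonneg (fun _ _ => by positivity)]
  congr 1
  apply Finset.sum_congr rfl
  intro r _
  rw [← ENNReal.ofReal_rpow_of_nonneg (by positivity) hp.le]
  congr 1
  rw [← Real.norm_eq_abs, ENNReal.ofReal_pow (norm_nonneg _), ofReal_norm_eq_enorm]
  push_cast
  rfl

theorem ZNorm_le_of_MM (h : Par m p) (hZ : ZoneSys κ nu B) {C : ℝ≥0} {a b : ℕ →₀ ℝ}
    (hab : MM m p (VV nu a) ≤ C * MM m p (VV nu b)) :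
    ZNorm m p nu a ≤ √C * ZNorm m p nu b := by
  have h2 : ZNorm m p nu a ^ 2 ≤ (√C * ZNorm m p nu b) ^ 2 := by
    rw [mul_pow, ZNorm_sq, ZNorm_sq, Real.sq_sqrt C.coe_nonneg]
    have h3 := ENNReal.toReal_mono
      (ENNReal.mul_ne_top ENNReal.coe_ne_top (MM_VV_ne_top h hZ b)) hab
    rwa [ENNReal.toReal_mul, ENNReal.coe_toReal] at h3
  exact (pow_le_pow_iff_left₀ (ZNorm_nonneg _ _ _ _)
    (mul_nonneg (Real.sqrt_nonneg _) (ZNorm_nonneg _ _ _ _)) two_ne_zero).mp h2

theorem st_X2 : St_X2 := by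
  classical
  intro m p κ nu B C h hZ hE8 X _ _ _ b hb hh y hy
  obtain ⟨hh, hsupp, hnorm, hspan⟩ := hh
  obtain ⟨c, hc0, hcs, hyc⟩ := hy
  have hcB : IsBlock c := isBlock_of hc0 hcs
  have hκ := hZ.mono
  -- the subsequence
  set next : ℕ → ℕ := fun s => max (s + 1) (top (c (κ s))) with hnext
  set s : ℕ → ℕ := fun k => next^[k] 0 with hsdef
  have hs0 : s 0 = 0 := rfl
  have hs1 : ∀ k, s (k + 1) = next (s k) := fun k => Function.iterate_succ_apply' _ _ _
  have hs : StrictMono s := strictMono_nat_of_lt_succ (fun k => by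
    rw [hs1]; exact lt_of_lt_of_le (Nat.lt_succ_self _) (le_max_left _ _))
  set φ : ℕ → ℕ := fun k => κ (s k) with hφdef
  have hφ : StrictMono φ := hκ.comp hs
  have hsc : ∀ k, ∀ i ∈ (c (φ k)).support, κ (s k) ≤ i ∧ i < κ (s (k + 1)) := by
    intro k i hi
    constructor
    · have h1 := (hcB (φ k)).2 i hi
      have h2 : φ k ≤ prevTop c (φ k) := hcB.strictMono.id_le _
      exact h2.trans h1
    · have h1 : i < top (c (φ k)) := lt_top hi
      have h2 : top (c (φ k)) ≤ s (k + 1) := by rw [hs1]; exact le_max_right _ _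
      have h3 : s (k + 1) ≤ κ (s (k + 1)) := hκ.id_le _
      omega
  set ζ : ℕ → ℝ≥0∞ := fun i => VV nu (c (φ (bl s i))) i with hζ
  obtain ⟨τ, γ, hτ, hτ0, hγ, hEst⟩ := hE8 s ζ hs hs0 (fun i => ENNReal.ofReal_ne_top) (by
    intro k
    obtain ⟨i0, hi0⟩ := Finsupp.support_nonempty_iff.mpr (hc0 (φ k))
    obtain ⟨h1, h2⟩ := hsc k i0 hi0
    have h3 := bl_spec hκ hZ.zero i0
    have h4 : s k ≤ bl κ i0 := by
      by_contra hlt
      have := hκ.monotone (show bl κ i0 + 1 ≤ s k by omega)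
      omega
    have h5 : bl κ i0 < s (k + 1) := by
      by_contra hlt
      have := hκ.monotone (show s (k + 1) ≤ bl κ i0 by omega)
      omega
    refine ⟨bl κ i0, h4, h5, ?_⟩
    have h6 : bl s (bl κ i0) = k := bl_eq hs h4 h5
    simp only [hζ, h6, VV]
    intro h7
    rw [ENNReal.ofReal_eq_zero] at h7
    have h8 : nu (bl κ i0) (c (φ k)) = 0 := by
      have := sq_nonneg (nu (bl κ i0) (c (φ k)))
      exact pow_eq_zero_iff two_ne_zero |>.mp (le_antisymm h7 this)
    exact (Finsupp.mem_support_iff.mp hi0) (hZ.definite _ _ h8 i0 h3.1 h3.2))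
  -- the block sequence
  set wc : ℕ → ℕ →₀ ℝ := fun r => ∑ k ∈ Finset.Ico (τ r) (τ (r + 1)),
    Finsupp.single (φ k) (√(γ k)) with hwc
  have hwcs : ∀ r j, j ∈ (wc r).support → ∃ k, τ r ≤ k ∧ k < τ (r + 1) ∧ j = φ k := by
    intro r j hj
    have h1 := Finsupp.support_finsetSum hj
    rw [Finset.mem_biUnion] at h1
    obtain ⟨k, hk, h2⟩ := h1
    rw [Finset.mem_Ico] at hk
    have h3 := Finsupp.support_single_subset h2
    rw [Finset.mem_singleton] at h3
    exact ⟨k, hk.1, hk.2, h3⟩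
  have hwcv : ∀ r k, τ r ≤ k → k < τ (r + 1) → wc r (φ k) = √(γ k) := by
    intro r k h1 h2
    simp only [hwc, Finsupp.finsetSum_apply]
    rw [Finset.sum_eq_single k]
    · simp
    · intro k' _ hk'
      rw [Finsupp.single_apply, if_neg]
      intro h3
      exact hk' (hφ.injective h3)
    · intro h3
      exact absurd (Finset.mem_Ico.mpr ⟨h1, h2⟩) h3
  have hblz : IsBlockSeq ℝ y (fun r => lc y (wc r)) := by
    refine ⟨wc, ?_, ?_, fun _ => rfl⟩
    · intro r h1
      obtain ⟨k, hk1, hk2, hk3⟩ := hγ r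
      have h2 := hwcv r k hk1 hk2
      rw [h1, Finsupp.zero_apply] at h2
      have h3 : (0 : ℝ) < γ k := by
        have : (γ k : ℝ) ≠ 0 := by exact_mod_cast hk3
        exact lt_of_le_of_ne (γ k).coe_nonneg this.symm
      have h4 := Real.sqrt_pos.mpr h3
      linarith
    · intro r i hi j hj
      obtain ⟨k, h1, h2, rfl⟩ := hwcs r i hi
      obtain ⟨k', h3, h4, rfl⟩ := hwcs (r + 1) j hj
      exact hφ (by omega)
  refine ⟨fun r => lc y (wc r), hblz, ?_⟩
  -- coefficient vectors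
  set Dd : (ℕ →₀ ℝ) → (ℕ →₀ ℝ) := fun T => lc (fun r => lc c (wc r)) T with hDd
  have hlcz : ∀ T : ℕ →₀ ℝ, lc (fun r => lc y (wc r)) T = lc b (Dd T) := by
    intro T
    have hy' : y = fun k => lc b (c k) := funext hyc
    rw [hDd, lc_lc]
    apply lc_congr
    intro r _
    rw [hy', ← lc_lc]
  have hcw : ∀ r i j, κ i ≤ j → j < κ (i + 1) → (lc c (wc r)) j =
      if r = bl τ (bl s i) then √(γ (bl s i)) * c (φ (bl s i)) j else 0 := by
    intro r i j hj1 hj2
    have hbi := bl_spec hs hs0 i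
    have e1 : lc c (wc r) = ∑ k ∈ Finset.Ico (τ r) (τ (r + 1)), √(γ k) • c (φ k) := by
      rw [hwc, map_sum]
      simp only [lc, Finsupp.linearCombination_single]
    rw [e1, Finsupp.finsetSum_apply]
    have e2 : ∀ k, k ≠ bl s i → (√(γ k) • c (φ k)) j = 0 := by
      intro k hk
      rw [Finsupp.smul_apply, smul_eq_mul]
      have h3 : c (φ k) j = 0 := by
        by_contra hne
        obtain ⟨h4, h5⟩ := hsc k j (Finsupp.mem_support_iff.mpr hne)
        apply hk
        symm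
        apply bl_eq hs
        · by_contra hlt
          have := hκ.monotone (show i + 1 ≤ s k by omega)
          omega
        · by_contra hlt
          have := hκ.monotone (show s (k + 1) ≤ i by omega)
          omega
      rw [h3, mul_zero]
    by_cases hr : r = bl τ (bl s i)
    · rw [if_pos hr]
      have hbt := bl_spec hτ hτ0 (bl s i)
      rw [← hr] at hbt
      rw [Finset.sum_eq_single (bl s i)]
      · rw [Finsupp.smul_apply, smul_eq_mul]
      · intro k _ hk
        exact e2 k hk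
      · intro h3
        exact absurd (Finset.mem_Ico.mpr hbt) h3
    · rw [if_neg hr]
      apply Finset.sum_eq_zero
      intro k hk
      apply e2
      rintro rfl
      rw [Finset.mem_Ico] at hk
      exact hr (bl_eq hτ hk.1 hk.2).symm
  have hDv : ∀ (T : ℕ →₀ ℝ) i j, κ i ≤ j → j < κ (i + 1) → (Dd T) j =
      ((T (bl τ (bl s i)) * √(γ (bl s i))) • c (φ (bl s i))) j := by
    intro T i j hj1 hj2
    simp only [hDd, lc, Finsupp.linearCombination_apply, Finsupp.sum, Finsupp.finsetSum_apply,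
      Finsupp.smul_apply, smul_eq_mul]
    have e3 : ∀ r, ((Finsupp.linearCombination ℝ c) (wc r)) j =
        if r = bl τ (bl s i) then √(γ (bl s i)) * c (φ (bl s i)) j else 0 :=
      fun r => hcw r i j hj1 hj2
    have e4 : ∑ r ∈ T.support, T r * (∑ a ∈ (wc r).support, wc r a * (c a) j) =
        ∑ r ∈ T.support, T r * (if r = bl τ (bl s i) then
          √(γ (bl s i)) * c (φ (bl s i)) j else 0) := by
      apply Finset.sum_congr rfl
      intro r _
      rw [← e3 r]
      simp only [Finsupp.linearCombination_apply, Finsupp.sum, Finsupp.finsetSum_apply,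
        Finsupp.smul_apply, smul_eq_mul]
    rw [e4]
    simp only [mul_ite, mul_zero]
    rw [Finset.sum_ite_eq']
    split_ifs with h5
    · ring
    · rw [Finsupp.notMem_support_iff.mp h5]
      ring
  have hVV : ∀ T : ℕ →₀ ℝ, VV nu (Dd T) =
      fun i => (((‖T (bl τ (bl s i))‖₊ ^ 2 * γ (bl s i) : ℝ≥0) : ℝ≥0∞)) * ζ i := by
    intro T
    ext i
    unfold VV
    rw [hZ.loc i (Dd T) _ (hDv T i), hZ.smul, mul_pow, ENNReal.ofReal_mul (by positivity)]
    congr 1
    have e5 : |T (bl τ (bl s i)) * √(γ (bl s i))| ^ 2 =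
        ((‖T (bl τ (bl s i))‖₊ ^ 2 * γ (bl s i) : ℝ≥0) : ℝ) := by
      rw [sq_abs, mul_pow, Real.sq_sqrt (γ (bl s i)).coe_nonneg]
      push_cast
      rw [Real.norm_eq_abs, sq_abs]
    rw [e5, ENNReal.ofReal_coe_nnreal]
  have heq : SeqEquivWith ℝ (√C) (fun r => lc b (hh r)) (fun r => lc y (wc r)) := by
    intro T
    have h1 := hEst (fun r => ‖T r‖₊ ^ 2)
    rw [← VV_h h hnorm T] at h1
    have e6 : (fun i => (((fun r => ‖T r‖₊ ^ 2) (bl τ (bl s i)) * γ (bl s i) : ℝ≥0) : ℝ≥0∞) * ζ i) =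
        VV nu (Dd T) := (hVV T).symm
    rw [e6] at h1
    have e7 : Finsupp.linearCombination ℝ (fun r => lc b (hh r)) T = lc b (lc hh T) :=
      (lc_lc b hh T).symm
    have e8 : Finsupp.linearCombination ℝ (fun r => lc y (wc r)) T = lc b (Dd T) := hlcz T
    rw [e7, e8, hb, hb]
    exact ⟨ZNorm_le_of_MM h hZ h1.2, ZNorm_le_of_MM h hZ h1.1⟩
  obtain ⟨S⟩ := iso_of_seqEquiv ⟨√C, heq⟩
  have htop : closedSpan ℝ (fun r => lc b (hh r)) = ⊤ := by
    rw [eq_top_iff]
    have h1 : closedSpan ℝ (b : ℕ → X) ≤ closedSpan ℝ (fun r => lc b (hh r)) := by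
      apply closedSpan_le
      intro i
      obtain ⟨T, hT⟩ := hspan i
      have h2 : (b : ℕ → X) i = lc b (Finsupp.single i (1 : ℝ)) := by simp [lc]
      rw [h2, ← hT, lc_lc]
      exact lc_mem_closedSpan _ _
    refine le_trans ?_ h1
    intro x _
    rw [mem_closedSpan_iff]
    intro ε hε
    exact basis_span b x ε hε
  exact ⟨((LinearIsometryEquiv.ofTop X _ htop).symm.toContinuousLinearEquiv).trans S⟩

end Run7.h157.G
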