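import Mathlib
import Pool.Agent.Run7.h157.G.CAT
import Pool.Agent.Run7.h157.G.E2E3E5
import Pool.Agent.Run7.h157.G.E4
import Pool.Agent.Run7.h157.G.E6
import Pool.Agent.Run7.h157.G.E7
import Pool.Agent.Run7.h157.G.E8
import Pool.Agent.Run7.h157.G.Fin
import Pool.Agent.Run7.h157.G.NA
import Pool.Agent.Run7.h157.G.TR
import Pool.Agent.Run7.h157.G.WAL
import Pool.Agent.Run7.h157.G.X1
import Pool.Agent.Run7.h157.G.X2
import Pool.Agent.Run7.h651.G.LH
import Pool.Agent.Run7.h651.G.PAR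
import Pool.Agent.Run7.h651.G.ZL
import Pool.Agent.Run7.h651.G.ZS

/-!
All pieces together.
-/

noncomputable section

namespace Run7.h157.G

theorem main_of_LH (hLH : St_LH) : St_FIN :=
  st_FIN hLH st_WAL st_TR Run7.h651.G.st_PAR (st_E8 (st_E7 st_E2 st_E4 st_E5)) (st_X1 st_E3)
    Run7.h651.G.st_ZS Run7.h651.G.st_ZL st_X2 st_NA st_CAT st_QEX

theorem main : St_FIN := main_of_LH Run7.h651.G.st_LH

end Run7.h157.G
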